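import Pool.Agent.Work.MP_308fa9_nt.NE.Defs
import Pool.Agent.Work.MP_308fa9_nt.FQ.Basic
import Pool.Agent.Work.MP_308fa9_nt.DQ.Basic

set_option autoImplicit false

/-!
Working definitions.
-/

namespace Stoll308.NE

open Polynomial Finset Matrix BG BF

/-- The coefficients of the monic polynomial, the leading one included. -/
def cf {n : ℕ} (c : Fin n → ℤ) : Fin (n + 1) → ℤ := Fin.cons 1 c

lemma cf_zero {n : ℕ} (c : Fin n → ℤ) : cf c 0 = 1 := rfl

lemma cf_succ {n : ℕ} (c : Fin n → ℤ) (i : Fin n) : cf c i.succ = c i := rfl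

lemma GZ_cf {n : ℕ} (K : Type*) [CommRing K] (c : Fin n → ℤ) : GZ K (cf c) = FZ K c := by
  simp only [GZ, FZ, BF.gpol, BG.fpol]
  rw [Fin.sum_univ_succ]
  congr 1
  · simp [cf_zero]
  · refine Finset.sum_congr rfl fun i _ => ?_
    rw [cf_succ]
    congr 2
    rw [Fin.val_succ]
    omega

/-- A reduced pair: `K` is a constant, `M` the size of the roots, `t` the lengths of the basis. -/
structure RPair {n : ℕ} (K M : ℝ) (c : Fin n → ℤ) (A B : Matrix (Fin n) (Fin n) ℤ)
    (t : Fin n → ℝ) : Prop where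
  symA : A.IsSymm
  symB : B.IsSymm
  char : BG.HasChar c A B
  pos : ∀ i, 0 < t i
  hA : ∀ i j, |(A i j : ℝ)| ≤ t i * t j
  hB : ∀ i j, |(B i j : ℝ)| ≤ M * (t i * t j)
  mono : ∀ i j, i ≤ j → t i ≤ t j
  prod : ∏ i, t i ≤ K

/-- The pair is distinguished: the first `n / 2` vectors span an isotropic subspace for `A`, and `B`
vanishes on the product of the span of the first `n / 2 - 1` vectors with it. -/
def Dist {n : ℕ} (A B : Matrix (Fin n) (Fin n) ℤ) : Prop :=
  (∀ i j : Fin n, (i : ℕ) < n / 2 → (j : ℕ) < n / 2 → A i j = 0) ∧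
    ∀ i j : Fin n, (i : ℕ) + 1 < n / 2 → (j : ℕ) < n / 2 → B i j = 0

end Stoll308.NE
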