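import Pool.Agent.Work.MP_308fa9_nt.NE.Basic
import Pool.Agent.Work.MP_308fa9_nt.FQ.Split

set_option autoImplicit false

/-!
A class which is no constant times a square differs from it at many roots of `q` modulo primes.
-/

namespace Stoll308.NE

open Polynomial Finset BF FQ

namespace DenseAux

open Pool.Agent.Work.MP_2b9663_nt NumberField

/-- A mean value which is positive gives a dense set. -/
lemma dense_of_MV {c : Nat.Primes → ℝ} {κ : ℝ} (h : MV c κ) (hκ : 0 < κ) (h1 : ∀ p, c p ≤ 1)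
    (N : ℕ) (hN : N ≠ 0) (S : Set ℕ)
    (hS : ∀ p : Nat.Primes, ¬ (p : ℕ) ∣ N → 5 ≤ (p : ℕ) → 0 < c p → (p : ℕ) ∈ S) :
    FQ.Dense S := by
  classical
  obtain ⟨C, -, hM⟩ := Cheb.mertens h
  apply FQ.SplitAux.dense_of
  intro T
  set N' : ℕ := 6 * N with hN'
  have hN0 : N' ≠ 0 := by omega
  have htend : Filter.Tendsto (fun y : ℕ => Real.log (Real.log (y : ℝ))) Filter.atTop
      Filter.atTop :=
    (Real.tendsto_log_atTop.comp Real.tendsto_log_atTop).comp tendsto_natCast_atTop_atTop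
  obtain ⟨X, hX1, hX2⟩ := ((htend.eventually_ge_atTop
    ((T + ∑ p ∈ N'.primeFactors, 1 / (p : ℝ) + C) / κ)).and
      (Filter.eventually_ge_atTop 3)).exists
  have h2 := (abs_le.1 (hM X hX2)).1
  rw [div_le_iff₀ hκ] at hX1
  have hex : ∀ p : ℕ, ∀ hp : p.Prime, Cheb.ex c p = c ⟨p, hp⟩ :=
    fun p hp => Cheb.ex_apply c ⟨p, hp⟩
  refine ⟨X, (MeanSum.PR X).filter (fun p => ¬ p ∣ N' ∧ 0 < Cheb.ex c p), ?_, ?_⟩
  · intro l hl
    rw [mem_filter, MeanSum.mem_PR] at hl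
    obtain ⟨⟨hp, hlX⟩, hlN, hlc⟩ := hl
    have h5 : 5 ≤ l := by
      have h2 := hp.two_le
      by_contra hcon
      have h6 : l ∣ 6 := by
        have : l = 2 ∨ l = 3 ∨ l = 4 := by omega
        rcases this with rfl | rfl | rfl
        · norm_num
        · norm_num
        · exact absurd hp (by norm_num)
      exact hlN (h6.trans ⟨N, rfl⟩)
    refine ⟨h5, hlX, hp, hS ⟨l, hp⟩ (fun hd => hlN (hd.trans ⟨6, by rw [hN']; ring⟩)) h5 ?_⟩
    rwa [hex l hp] at hlc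
  · have h3 : ∑ p ∈ MeanSum.PR X, Cheb.ex c p / p ≤
        ∑ l ∈ (MeanSum.PR X).filter (fun p => ¬ p ∣ N' ∧ 0 < Cheb.ex c p), (1 : ℝ) / l +
          ∑ p ∈ N'.primeFactors, 1 / (p : ℝ) := by
      rw [← sum_filter_add_sum_filter_not (MeanSum.PR X) (fun p : ℕ => ¬ p ∣ N')]
      apply add_le_add
      · rw [← filter_filter, sum_filter (s := (MeanSum.PR X).filter (fun p => ¬ p ∣ N'))]
        apply sum_le_sum
        intro p hp
        rw [mem_filter, MeanSum.mem_PR] at hp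
        split_ifs with h6
        · apply div_le_div_of_nonneg_right _ (Nat.cast_nonneg p)
          rw [hex p hp.1.1]
          exact h1 _
        · push Not at h6
          exact div_nonpos_of_nonpos_of_nonneg h6 (Nat.cast_nonneg p)
      · have h5 : ∀ p ∈ (MeanSum.PR X).filter (fun p : ℕ => ¬ ¬ p ∣ N'),
            Cheb.ex c p / p ≤ 1 / (p : ℝ) := by
          intro p hp
          rw [mem_filter, MeanSum.mem_PR] at hp
          apply div_le_div_of_nonneg_right _ (Nat.cast_nonneg p)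
          rw [hex p hp.1.1]
          exact h1 _
        refine (sum_le_sum h5).trans ?_
        apply sum_le_sum_of_subset_of_nonneg
        · intro p hp
          rw [mem_filter, MeanSum.mem_PR, not_not] at hp
          rw [Nat.mem_primeFactors]
          exact ⟨hp.1.1, hp.2, hN0⟩
        · intro p _ _
          positivity
    linarith

/-- The chinese remainder theorem for squares. -/
lemma exists_factor_ns (Q : ℚ[X]) (hQ : Squarefree Q) (ε : ℚ[X]) (e : ℚ)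
    (hns : ¬ ∃ s : ℚ[X], Q ∣ ε - C e * s ^ 2) :
    ∃ g : ℚ[X], Irreducible g ∧ g ∣ Q ∧ ¬ ∃ s : ℚ[X], g ∣ ε - C e * s ^ 2 := by
  by_contra hcon
  push Not at hcon
  apply hns
  clear hns
  induction Q using WfDvdMonoid.induction_on_irreducible with
  | zero => exact absurd hQ not_squarefree_zero
  | unit u hu => exact ⟨0, hu.dvd⟩
  | mul a i ha hi ih =>
    have h1 := squarefree_mul_iff.1 hQ
    obtain ⟨s, hs⟩ := ih h1.2.2 (fun g hg hga => hcon g hg (hga.mul_left i))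
    obtain ⟨s', hs'⟩ := hcon i hi (dvd_mul_right i a)
    have h2 : IsCoprime i a := h1.1.isCoprime
    obtain ⟨u, v, huv⟩ := h2
    refine ⟨s * (u * i) + s' * (v * a), IsCoprime.mul_dvd h1.1.isCoprime ?_ ?_⟩
    · have e1 : ε - C e * (s * (u * i) + s' * (v * a)) ^ 2 =
          (ε - C e * s' ^ 2) + i * (u * (C e * (s' - s) *
            (2 * s' + (s - s') * (u * i)))) := by
        have hv : v * a = 1 - u * i := by rw [← huv]; ring
        rw [hv]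
        ring
      rw [e1]
      exact dvd_add hs' (dvd_mul_right _ _)
    · have e1 : ε - C e * (s * (u * i) + s' * (v * a)) ^ 2 =
          (ε - C e * s ^ 2) + a * (v * (C e * (s - s') *
            (2 * s + (s' - s) * (v * a)))) := by
        have hv : u * i = 1 - v * a := by rw [← huv]; ring
        rw [hv]
        ring
      rw [e1]
      exact dvd_add hs (dvd_mul_right _ _)

lemma nf_of (E : Type) [Field E] (inst : Algebra ℚ E)
    (hfd : @FiniteDimensional ℚ E _ _ inst.toModule) : NumberField E := by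
  have hc : CharZero E := algebraRat.charZero E
  have e : inst = DivisionRing.toRatAlgebra := Subsingleton.elim _ _
  subst e
  exact ⟨⟩

lemma embed (E : Type) [Field E] [NumberField E] :
    ∃ (L : Type) (_ : Field L) (_ : NumberField L) (_ : IsGalois ℚ L), Nonempty (E →+* L) := by
  obtain ⟨α, hα⟩ := Field.exists_primitive_element ℚ E
  have hint : IsIntegral ℚ α := Algebra.IsIntegral.isIntegral α
  obtain ⟨L, i1, i2, i3, hspl⟩ := Cheb.exists_splitting (minpoly ℚ α)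
    (minpoly.irreducible hint).separable
  obtain ⟨φ, -⟩ := IntermediateField.exists_algHom_of_adjoin_splits (F := ℚ) (K := L) (S := {α})
    (by
      intro x hx
      rw [Set.mem_singleton_iff] at hx
      subst hx
      exact ⟨hint, hspl⟩) (L := ⊥)
      ((Algebra.ofId ℚ L).comp (IntermediateField.botEquiv ℚ E).toAlgHom) hα
  exact ⟨L, i1, i2, i3, ⟨φ.toRingHom⟩⟩

lemma map_aeval {E L : Type} [Field E] [Field L] [Algebra ℚ E] [Algebra ℚ L] (ψ : E →+* L)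
    (x : E) (f : ℚ[X]) : ψ (aeval x f) = aeval (ψ x) f := by
  rw [aeval_def, aeval_def, hom_eval₂]
  congr 1
  exact Subsingleton.elim _ _

/-- A Galois number field with a root of `g` and a square root of the value of `h` there. -/
lemma exists_field_aux (Ω : Type) [Field Ω] [Algebra ℚ Ω] [IsAlgClosed Ω]
    [Algebra.IsAlgebraic ℚ Ω] (g h : ℚ[X]) (hg : Irreducible g) :
    ∃ (L : Type) (_ : Field L) (_ : NumberField L) (_ : IsGalois ℚ L) (ρ s : L),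
      aeval ρ g = 0 ∧ s ^ 2 = aeval ρ h := by
  obtain ⟨ρ, hρ⟩ := IsAlgClosed.exists_aeval_eq_zero Ω g
    (degree_pos_of_irreducible hg).ne'
  obtain ⟨s, hs⟩ := IsAlgClosed.exists_pow_nat_eq (aeval ρ h) (n := 2) (by norm_num)
  set S : Set Ω := {ρ, s} with hS
  have hfin : Finite S := by rw [hS]; infer_instance
  have hfd : NumberField (IntermediateField.adjoin ℚ S) :=
    nf_of _ (IntermediateField.algebra' (IntermediateField.adjoin ℚ S))
      (IntermediateField.finiteDimensional_adjoin fun x _ =>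
        (Algebra.IsAlgebraic.isAlgebraic x).isIntegral)
  obtain ⟨L, i1, i2, i3, ⟨φ⟩⟩ := embed (IntermediateField.adjoin ℚ S)
  have h1 : ρ ∈ IntermediateField.adjoin ℚ S := IntermediateField.subset_adjoin ℚ S (by simp [hS])
  have h2 : s ∈ IntermediateField.adjoin ℚ S := IntermediateField.subset_adjoin ℚ S (by simp [hS])
  have key : ∀ f : ℚ[X], ((aeval (⟨ρ, h1⟩ : IntermediateField.adjoin ℚ S) f :
      IntermediateField.adjoin ℚ S) : Ω) = aeval ρ f := fun f =>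
    map_aeval (algebraMap (IntermediateField.adjoin ℚ S) Ω) (⟨ρ, h1⟩ :
      IntermediateField.adjoin ℚ S) f
  refine ⟨L, i1, i2, i3, φ ⟨ρ, h1⟩, φ ⟨s, h2⟩, ?_, ?_⟩
  · rw [← map_aeval φ]
    have : aeval (⟨ρ, h1⟩ : IntermediateField.adjoin ℚ S) g = 0 := by
      apply Subtype.ext
      rw [key, hρ]
      rfl
    rw [this, map_zero]
  · rw [← map_aeval φ, ← map_pow]
    congr 1
    apply Subtype.ext
    rw [key, ← hs]
    rfl

lemma exists_field (g h : ℚ[X]) (hg : Irreducible g) :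
    ∃ (L : Type) (_ : Field L) (_ : NumberField L) (_ : IsGalois ℚ L) (ρ s : L),
      aeval ρ g = 0 ∧ s ^ 2 = aeval ρ h :=
  @exists_field_aux (AlgebraicClosure ℚ) _ (AlgebraicClosure.instAlgebra ℚ) _ _ g h hg

/-- An automorphism which fixes the root and not the square root. -/
lemma exists_aut {L : Type} [Field L] [NumberField L] [IsGalois ℚ L] (g h : ℚ[X])
    (hg : Irreducible g) (ρ s : L) (hρ : aeval ρ g = 0) (hs : s ^ 2 = aeval ρ h)
    (hns : ¬ ∃ k : ℚ[X], g ∣ h - k ^ 2) : ∃ σ : L ≃ₐ[ℚ] L, σ ρ = ρ ∧ σ s ≠ s := by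
  by_contra hcon
  push Not at hcon
  have h1 : s ∈ IntermediateField.adjoin ℚ {ρ} := by
    rw [← IsGalois.fixedField_fixingSubgroup (IntermediateField.adjoin ℚ {ρ}),
      IntermediateField.mem_fixedField_iff]
    intro f hf
    rw [IntermediateField.mem_fixingSubgroup_iff] at hf
    exact hcon f (hf ρ (IntermediateField.mem_adjoin_simple_self ℚ ρ))
  have hint : IsIntegral ℚ ρ := Algebra.IsIntegral.isIntegral ρ
  rw [← IntermediateField.mem_toSubalgebra,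
    IntermediateField.adjoin_simple_toSubalgebra_of_isAlgebraic hint.isAlgebraic,
    Algebra.adjoin_singleton_eq_range_aeval] at h1
  obtain ⟨k, hk⟩ := h1
  apply hns
  refine ⟨k, ?_⟩
  have h2 : minpoly ℚ ρ ∣ h - k ^ 2 := by
    apply minpoly.dvd
    rw [map_sub, map_pow, ← hs]
    have : aeval ρ k = s := hk
    rw [this, sub_self]
  have h3 : g * C g.leadingCoeff⁻¹ = minpoly ℚ ρ := minpoly.eq_of_irreducible hg hρ
  exact (dvd_mul_right g _).trans (h3 ▸ h2)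

lemma clear_den (f : ℚ[X]) : ∃ D : ℤ, D ≠ 0 ∧ ∃ F : ℤ[X],
    F.map (Int.castRingHom ℚ) = C (D : ℚ) * f := by
  obtain ⟨D, hD, hF⟩ := IsLocalization.integerNormalization_spec (nonZeroDivisors ℤ) f
  refine ⟨D, nonZeroDivisors.ne_zero hD, _, hF.trans ?_⟩
  rw [zsmul_eq_mul]
  congr 1

lemma bezout (A B : ℤ[X]) (h : IsCoprime (A.map (Int.castRingHom ℚ))
    (B.map (Int.castRingHom ℚ))) : ∃ N : ℤ, N ≠ 0 ∧ ∃ U V : ℤ[X], U * A + V * B = C N := by
  obtain ⟨u, v, huv⟩ := h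
  obtain ⟨D1, hD1, U, hU⟩ := clear_den u
  obtain ⟨D2, hD2, V, hV⟩ := clear_den v
  refine ⟨D1 * D2, mul_ne_zero hD1 hD2, C D2 * U, C D1 * V, ?_⟩
  apply map_injective (Int.castRingHom ℚ) Int.cast_injective
  simp only [Polynomial.map_add, Polynomial.map_mul, Polynomial.map_C, hU, hV]
  simp only [eq_intCast, Int.cast_mul, C_mul]
  linear_combination (C (D1 : ℚ) * C (D2 : ℚ)) * huv

/-- Evaluation of the polynomial with cleared denominators. -/
lemma eval_H {m : ℕ} (b : Fin (m + 1) → ℤ) (h0 : b 0 ≠ 0) (ε : ℚ[X]) (D e : ℤ) (H : ℤ[X])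
    (hH : H.map (Int.castRingHom ℚ) =
      C ((D : ℚ) ^ 2 * e) * ε.comp (C ((b 0 : ℚ)⁻¹) * X)) {K : Type*} [Field K] [Algebra ℚ K]
    (x : K) : (H.map (Int.castRingHom K)).eval ((b 0 : K) * x) =
      (D : K) ^ 2 * (e * (ε.map (algebraMap ℚ K)).eval x) := by
  have h0' : (b 0 : ℚ) ≠ 0 := by exact_mod_cast h0
  have e1 : H.map (Int.castRingHom K) = (H.map (Int.castRingHom ℚ)).map (algebraMap ℚ K) := by
    rw [Polynomial.map_map]
    congr 1
    exact RingHom.ext_int _ _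
  rw [e1, hH]
  simp only [Polynomial.map_mul, map_C, Polynomial.map_comp, map_X, eval_mul, eval_C, eval_comp,
    eval_X]
  simp only [_root_.map_mul, _root_.map_pow, map_intCast, map_inv₀]
  have h3 : (b 0 : K) ≠ 0 := by
    have : (algebraMap ℚ K) (b 0 : ℚ) ≠ 0 := by
      rw [Ne, map_eq_zero]; exact h0'
    rwa [map_intCast] at this
  rw [← mul_assoc, inv_mul_cancel₀ h3, one_mul]
  ring

/-- The part over the number field. -/
lemma at_frob {L : Type} [Field L] [NumberField L] {m : ℕ} (hm : 1 ≤ m)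
    (b : Fin (m + 1) → ℤ) (h0 : b 0 ≠ 0) (ε : ℚ[X]) (e D : ℤ) (H : ℤ[X])
    (hH : H.map (Int.castRingHom ℚ) = C ((D : ℚ) ^ 2 * e) * ε.comp (C ((b 0 : ℚ)⁻¹) * X))
    (N : ℤ) (U V : ℤ[X]) (hB : U * SplitAux.f1 b + V * H = C N) (p : ℕ) [hp : Fact p.Prime]
    (hp2 : p ≠ 2) (hpN : ¬ (p : ℤ) ∣ N) (P : Ideal (𝓞 L)) (σ : L ≃ₐ[ℚ] L)
    (hF : Cheb.IsFrob L p P σ) (ρ s : L) (hρ : (GZ L b).eval ρ = 0)
    (hs : s ^ 2 = e * (ε.map (algebraMap ℚ L)).eval ρ) (h1 : σ ρ = ρ) (h2 : σ s ≠ s) :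
    ∃ n : ℤ, (p : ℤ) ∣ (SplitAux.f1 b).eval n ∧ ¬ IsSquare (((H.eval n : ℤ)) : ZMod p) := by
  have hPp := hF.prime
  -- the integral elements
  have hF1 : ((SplitAux.f1 b).map (Int.castRingHom L)).eval ((b 0 : L) * ρ) = 0 := by
    rw [SplitAux.f1_eval hm b h0, hρ, mul_zero]
  have hint1 : IsIntegral ℤ ((b 0 : L) * ρ) :=
    ⟨SplitAux.f1 b, SplitAux.f1_monic b h0, by rw [← eval_map]; exact hF1⟩
  obtain ⟨ρ1, hρ1⟩ : ∃ ρ1 : 𝓞 L, (ρ1 : L) = (b 0 : L) * ρ := ⟨⟨_, hint1⟩, rfl⟩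
  have hev : ∀ G : ℤ[X], (((G.map (Int.castRingHom (𝓞 L))).eval ρ1 : 𝓞 L) : L) =
      (G.map (Int.castRingHom L)).eval ((b 0 : L) * ρ) := by
    intro G
    rw [← hρ1, eval_map, eval_map]
    have h3 := hom_eval₂ G (Int.castRingHom (𝓞 L)) (algebraMap (𝓞 L) L) ρ1
    have h4 : (algebraMap (𝓞 L) L).comp (Int.castRingHom (𝓞 L)) = Int.castRingHom L :=
      RingHom.ext_int _ _
    rw [h4] at h3
    exact h3
  have hs2 : ((D : L) * s) ^ 2 = (((H.map (Int.castRingHom (𝓞 L))).eval ρ1 : 𝓞 L) : L) := by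
    rw [hev, eval_H b h0 ε D e H hH, ← hs]
    ring
  have hint2 : IsIntegral ℤ ((D : L) * s) := by
    refine IsIntegral.of_pow (n := 2) (by norm_num) ?_
    rw [hs2]
    exact RingOfIntegers.isIntegral_coe _
  obtain ⟨s1, hs1⟩ : ∃ s1 : 𝓞 L, (s1 : L) = (D : L) * s := ⟨⟨_, hint2⟩, rfl⟩
  have hs3 : s1 ^ 2 = (H.map (Int.castRingHom (𝓞 L))).eval ρ1 := by
    apply RingOfIntegers.ext
    rw [← hs2, ← hs1]
    rfl
  have hf1 : ((SplitAux.f1 b).map (Int.castRingHom (𝓞 L))).eval ρ1 = 0 := by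
    apply RingOfIntegers.ext
    rw [hev, hF1]
    rfl
  -- the action
  have hσ1 : σ • ρ1 = ρ1 := by
    apply RingOfIntegers.ext
    have : ((σ • ρ1 : 𝓞 L) : L) = σ (ρ1 : L) := rfl
    rw [this, hρ1, map_mul, map_intCast, h1]
  have hσs : σ s = - s := by
    have h3 : (σ s) ^ 2 = s ^ 2 := by
      rw [← map_pow, hs, map_mul, map_intCast]
      congr 1
      have h4 : σ ((ε.map (algebraMap ℚ L)).eval ρ) = (ε.map (algebraMap ℚ L)).eval (σ ρ) := by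
        rw [eval_map, eval_map, ← aeval_def, ← aeval_def]
        exact (aeval_algHom_apply σ.toAlgHom ρ ε).symm
      rw [h4, h1]
    exact (sq_eq_sq_iff_eq_or_eq_neg.1 h3).resolve_left h2
  have hσ2 : σ • s1 = - s1 := by
    apply RingOfIntegers.ext
    have : ((σ • s1 : 𝓞 L) : L) = σ (s1 : L) := rfl
    rw [this, hs1, map_mul, map_intCast, hσs]
    have h5 : ((-s1 : 𝓞 L) : L) = - (s1 : L) := rfl
    rw [h5, hs1]
    ring
  -- reduction
  have hr1 : ρ1 ^ p - ρ1 ∈ P := by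
    have := hF.spec ρ1
    rw [hσ1] at this
    have := P.neg_mem this
    rwa [neg_sub] at this
  obtain ⟨n, hn⟩ := hF.exists_int hr1
  have hcast : ∀ f : ℤ[X], (f.map (Int.castRingHom (𝓞 L))).eval (n : 𝓞 L) =
      ((f.eval n : ℤ) : 𝓞 L) := by
    intro f
    rw [eval_intCast_map, eq_intCast, Int.cast_id]
  have hG : ∀ G : ℤ[X], (G.map (Int.castRingHom (𝓞 L))).eval ρ1 - ((G.eval n : ℤ) : 𝓞 L) ∈ P := by
    intro G
    rw [← hcast]
    exact P.mem_of_dvd (sub_dvd_eval_sub _ _ _) hn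
  have hn1 : (p : ℤ) ∣ (SplitAux.f1 b).eval n := by
    rw [← hF.int_mem]
    have := hG (SplitAux.f1 b)
    rw [hf1, zero_sub] at this
    exact (P.neg_mem_iff).1 this
  refine ⟨n, hn1, ?_⟩
  rintro ⟨k, hk⟩
  obtain ⟨k, rfl⟩ := ZMod.intCast_surjective k
  have hk1 : (p : ℤ) ∣ H.eval n - k ^ 2 := by
    rw [← ZMod.intCast_zmod_eq_zero_iff_dvd]
    push_cast
    rw [hk]
    ring
  have hk2 : (s1 - k) * (s1 + k) ∈ P := by
    have h3 := hG H
    rw [← hs3] at h3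
    have h4 := (hF.int_mem _).2 hk1
    have h5 := P.add_mem h3 h4
    have e1 : (s1 - (k : 𝓞 L)) * (s1 + k) =
        s1 ^ 2 - ((H.eval n : ℤ) : 𝓞 L) + ((H.eval n - k ^ 2 : ℤ) : 𝓞 L) := by
      push_cast
      ring
    rw [e1]
    exact h5
  have hk3 : ∃ k' : ℤ, s1 - k' ∈ P := by
    rcases hPp.mem_or_mem hk2 with h | h
    · exact ⟨k, h⟩
    · refine ⟨-k, ?_⟩
      push_cast
      rwa [sub_neg_eq_add]
  obtain ⟨k', hk'⟩ := hk3
  have hk4 : s1 ^ p - s1 ∈ P := by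
    have h3 : s1 ^ p - (k' : 𝓞 L) ^ p ∈ P := P.mem_of_dvd (sub_dvd_pow_sub_pow _ _ _) hk'
    have h4 : (((k' ^ p - k' : ℤ)) : 𝓞 L) ∈ P := by
      rw [hF.int_mem, ← ZMod.intCast_zmod_eq_zero_iff_dvd]
      push_cast
      rw [ZMod.pow_card, sub_self]
    have h5 := P.sub_mem (P.add_mem h3 h4) hk'
    have e1 : s1 ^ p - s1 = s1 ^ p - (k' : 𝓞 L) ^ p + ((k' ^ p - k' : ℤ) : 𝓞 L) - (s1 - k') := by
      push_cast
      ring
    rw [e1]
    exact h5
  have hk5 : s1 ∈ P := by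
    have h3 := P.add_mem (hF.spec s1) hk4
    rw [hσ2] at h3
    have e1 : -s1 - s1 ^ p + (s1 ^ p - s1) = -(((2 : ℤ) : 𝓞 L) * s1) := by
      push_cast
      ring
    rw [e1, P.neg_mem_iff] at h3
    refine (hPp.mem_or_mem h3).resolve_left ?_
    rw [hF.int_mem]
    intro hd
    have h4 : p ∣ 2 := by exact_mod_cast hd
    exact hp2 ((Nat.prime_dvd_prime_iff_eq hp.out Nat.prime_two).1 h4)
  have hk6 : (p : ℤ) ∣ H.eval n := by
    rw [← hF.int_mem]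
    have h3 := hG H
    rw [← hs3] at h3
    have h4 := P.sub_mem (P.pow_mem_of_mem hk5 2 (by norm_num)) h3
    rwa [sub_sub_cancel] at h4
  apply hpN
  have h7 := congrArg (fun G : ℤ[X] => G.eval n) hB
  simp only [eval_add, eval_mul, eval_C] at h7
  rw [← h7]
  exact dvd_add (hn1.mul_left _) (hk6.mul_left _)

/-- The local part. -/
lemma local_part {m : ℕ} (hm : 1 ≤ m) (b : Fin (m + 1) → ℤ) (h0 : b 0 ≠ 0) (ε : ℚ[X])
    (e D : ℤ) (H : ℤ[X])
    (hH : H.map (Int.castRingHom ℚ) = C ((D : ℚ) ^ 2 * e) * ε.comp (C ((b 0 : ℚ)⁻¹) * X))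
    (N : ℤ) (U V : ℤ[X]) (hB : U * GZ ℤ b + V * derivative (GZ ℤ b) = C N) (p : ℕ)
    [hp : Fact p.Prime] (hpb : ¬ (p : ℤ) ∣ b 0) (hpN : ¬ (p : ℤ) ∣ N) (n : ℤ)
    (hn : (p : ℤ) ∣ (SplitAux.f1 b).eval n) (hns : ¬ IsSquare (((H.eval n : ℤ)) : ZMod p)) :
    ∃ (r : ℤ) (ρ : ℤ_[p]), Root b p r ∧ (GZ ℤ_[p] b).eval ρ = 0 ∧ ‖ρ - (r : ℤ_[p])‖ < 1 ∧
      ¬ IsSquare ((e : ℚ_[p]) * (ε.map (algebraMap ℚ ℚ_[p])).eval (ρ : ℚ_[p])) := by
  have hb : ((b 0 : ℤ) : ZMod p) ≠ 0 := by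
    intro h
    exact hpb ((ZMod.intCast_zmod_eq_zero_iff_dvd _ _).1 h)
  have hcastZ : ∀ f : ℤ[X], (f.map (Int.castRingHom (ZMod p))).eval (n : ZMod p) =
      ((f.eval n : ℤ) : ZMod p) := by
    intro f
    rw [eval_intCast_map, eq_intCast, Int.cast_id]
  obtain ⟨a, ha⟩ : ∃ a : ZMod p, a = ((b 0 : ℤ) : ZMod p)⁻¹ * (n : ZMod p) := ⟨_, rfl⟩
  have hba : ((b 0 : ℤ) : ZMod p) * a = (n : ZMod p) := by
    rw [ha, ← mul_assoc, mul_inv_cancel₀ hb, one_mul]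
  have h1 : (GZ (ZMod p) b).eval a = 0 := by
    have h2 := SplitAux.f1_eval hm b h0 (S := ZMod p) a
    rw [hba, hcastZ, (ZMod.intCast_zmod_eq_zero_iff_dvd _ _).2 hn] at h2
    exact (mul_eq_zero.1 h2.symm).resolve_left (pow_ne_zero _ hb)
  have h2 : (derivative (GZ (ZMod p) b)).eval a ≠ 0 := by
    intro h3
    apply hpN
    rw [← ZMod.intCast_zmod_eq_zero_iff_dvd]
    have h4 := congrArg (fun G : ℤ[X] => (G.map (Int.castRingHom (ZMod p))).eval a) hB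
    simp only [Polynomial.map_add, Polynomial.map_mul, eval_add, eval_mul, Polynomial.map_C,
      eval_C, ← derivative_map, SplitAux.gz_map, h1, h3, mul_zero, add_zero] at h4
    exact h4.symm
  obtain ⟨ρ, hρ1, hρ2, hρ3⟩ := SplitAux.lift_root b a h1 h2
  obtain ⟨r, hr⟩ : ∃ r : ℤ, r = ((PadicInt.appr ρ 2 : ℕ) : ℤ) := ⟨_, rfl⟩
  have hspec := PadicInt.appr_spec 2 ρ
  rw [Ideal.mem_span_singleton] at hspec
  have hrρ : (p : ℤ_[p]) ^ 2 ∣ ρ - (r : ℤ_[p]) := by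
    rw [hr, Int.cast_natCast]
    exact hspec
  have hcast : ∀ f : ℤ[X], (f.map (Int.castRingHom ℤ_[p])).eval (r : ℤ_[p]) =
      ((f.eval r : ℤ) : ℤ_[p]) := by
    intro f
    rw [eval_intCast_map, eq_intCast, Int.cast_id]
  refine ⟨r, ρ, ⟨?_, ?_⟩, hρ1, ?_, ?_⟩
  · have h6 : (p : ℤ_[p]) ^ 2 ∣ (GZ ℤ_[p] b).eval ρ - (GZ ℤ_[p] b).eval (r : ℤ_[p]) :=
      hrρ.trans (sub_dvd_eval_sub _ _ _)
    rw [hρ1, zero_sub, dvd_neg, ← SplitAux.gz_map (Int.castRingHom ℤ_[p]) b, hcast] at h6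
    exact (PadicInt.pow_p_dvd_int_iff 2 _).1 h6
  · intro hd
    have h6 : (p : ℤ_[p]) ∣ (derivative (GZ ℤ_[p] b)).eval ρ -
        (derivative (GZ ℤ_[p] b)).eval (r : ℤ_[p]) :=
      ((dvd_pow_self _ two_ne_zero).trans hrρ).trans (sub_dvd_eval_sub _ _ _)
    have h7 : (p : ℤ_[p]) ∣ (derivative (GZ ℤ_[p] b)).eval (r : ℤ_[p]) := by
      rw [← SplitAux.gz_map (Int.castRingHom ℤ_[p]) b, derivative_map, hcast]
      obtain ⟨k, hk⟩ := hd
      rw [hk]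
      push_cast
      exact dvd_mul_right _ _
    have h8 : (p : ℤ_[p]) ∣ (derivative (GZ ℤ_[p] b)).eval ρ := by
      have := dvd_add h6 h7
      rwa [sub_add_cancel] at this
    exact PadicInt.p_nonunit (isUnit_of_dvd_unit h8 hρ2)
  · have h6 : (p : ℤ_[p]) ∣ ρ - (r : ℤ_[p]) := (dvd_pow_self _ two_ne_zero).trans hrρ
    exact (PadicInt.norm_lt_one_iff_dvd _).2 h6
  · rintro ⟨w, hw⟩
    apply hns
    -- the value in the integers
    obtain ⟨y, hy⟩ : ∃ y : ℤ_[p], y = (H.map (Int.castRingHom ℤ_[p])).eval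
      (((b 0 : ℤ) : ℤ_[p]) * ρ) := ⟨_, rfl⟩
    have hyv : (y : ℚ_[p]) = (D * w) ^ 2 := by
      have h3 := eval_H b h0 ε D e H hH (K := ℚ_[p]) (ρ : ℚ_[p])
      rw [hw] at h3
      have h4 : (y : ℚ_[p]) = (H.map (Int.castRingHom ℚ_[p])).eval
          (((b 0 : ℤ) : ℚ_[p]) * (ρ : ℚ_[p])) := by
        rw [hy, eval_map, eval_map]
        have h5 := hom_eval₂ H (Int.castRingHom ℤ_[p]) (PadicInt.Coe.ringHom (p := p))
          (((b 0 : ℤ) : ℤ_[p]) * ρ)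
        have h6 : (PadicInt.Coe.ringHom (p := p)).comp (Int.castRingHom ℤ_[p]) =
          Int.castRingHom ℚ_[p] := RingHom.ext_int _ _
        rw [h6, _root_.map_mul, map_intCast] at h5
        exact h5
      rw [h4, h3]
      ring
    have hnorm : ‖(D * w : ℚ_[p])‖ ≤ 1 := by
      have h3 : ‖(D * w : ℚ_[p])‖ ^ 2 ≤ 1 := by
        rw [← norm_pow, ← hyv]
        exact PadicInt.norm_le_one y
      exact (sq_le_one_iff₀ (norm_nonneg _)).1 h3
    obtain ⟨z, hz⟩ : ∃ z : ℤ_[p], (z : ℚ_[p]) = D * w := ⟨⟨_, hnorm⟩, rfl⟩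
    have hyz : y = z ^ 2 := by
      apply Subtype.ext
      have : ((z ^ 2 : ℤ_[p]) : ℚ_[p]) = (z : ℚ_[p]) ^ 2 := PadicInt.coe_pow z 2
      rw [hyv, this, hz]
    have h5 : PadicInt.toZMod y = ((H.eval n : ℤ) : ZMod p) := by
      rw [hy, eval_map, hom_eval₂]
      have h6 : (PadicInt.toZMod (p := p)).comp (Int.castRingHom ℤ_[p]) =
        Int.castRingHom (ZMod p) := RingHom.ext_int _ _
      rw [h6, _root_.map_mul, map_intCast, hρ3, hba, ← eval_map, hcastZ]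
    rw [← h5, hyz, map_pow]
    exact ⟨PadicInt.toZMod z, sq _⟩

lemma coprime_H {m : ℕ} (hm : 1 ≤ m) (b : Fin (m + 1) → ℤ) (h0 : b 0 ≠ 0) (ε : ℚ[X])
    (hε : IsCoprime ε (GZ ℚ b)) (e D : ℤ) (he : e ≠ 0) (hD : D ≠ 0) (H : ℤ[X])
    (hH : H.map (Int.castRingHom ℚ) = C ((D : ℚ) ^ 2 * e) * ε.comp (C ((b 0 : ℚ)⁻¹) * X)) :
    IsCoprime ((SplitAux.f1 b).map (Int.castRingHom ℚ)) (H.map (Int.castRingHom ℚ)) := by
  have h0' : ((b 0 : ℤ) : ℚ) ≠ 0 := by exact_mod_cast h0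
  have he' : ((e : ℤ) : ℚ) ≠ 0 := by exact_mod_cast he
  have hD' : ((D : ℤ) : ℚ) ≠ 0 := by exact_mod_cast hD
  have e1 : (SplitAux.f1 b).map (Int.castRingHom ℚ) =
      C (((b 0 : ℤ) : ℚ) ^ (m - 1)) * (GZ ℚ b).comp (C (((b 0 : ℤ) : ℚ)⁻¹) * X) := by
    apply Polynomial.funext
    intro x
    have h := SplitAux.f1_eval hm b h0 (S := ℚ) (((b 0 : ℤ) : ℚ)⁻¹ * x)
    rw [← mul_assoc, mul_inv_cancel₀ h0', one_mul] at h
    rw [h, eval_mul, eval_C, eval_comp, eval_mul, eval_C, eval_X]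
  have hu : ∀ c : ℚ, c ≠ 0 → IsUnit (C c) := fun c hc => isUnit_C.2 (isUnit_iff_ne_zero.2 hc)
  rw [e1, hH]
  have h2 : IsCoprime ((GZ ℚ b).comp (C (((b 0 : ℤ) : ℚ)⁻¹) * X))
      (ε.comp (C (((b 0 : ℤ) : ℚ)⁻¹) * X)) := by
    obtain ⟨u, v, huv⟩ := hε.symm
    refine ⟨u.comp (C (((b 0 : ℤ) : ℚ)⁻¹) * X), v.comp (C (((b 0 : ℤ) : ℚ)⁻¹) * X), ?_⟩
    have h3 := congrArg (fun q : ℚ[X] => q.comp (C (((b 0 : ℤ) : ℚ)⁻¹) * X)) huv
    simpa only [add_comp, mul_comp, one_comp] using h3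
  exact (isCoprime_mul_unit_left_left (hu _ (pow_ne_zero _ h0')) _ _).2
    ((isCoprime_mul_unit_left_right (hu _ (mul_ne_zero (pow_ne_zero _ hD') he')) _ _).2 h2)

end DenseAux

open DenseAux in
theorem dense_ns {m : ℕ} (hm : 1 ≤ m) (b : Fin (m + 1) → ℤ) (h0 : b 0 ≠ 0)
    (hsq : Squarefree (GZ ℚ b)) (ε : ℚ[X]) (hε : IsCoprime ε (GZ ℚ b)) (e : ℤ) (he : e ≠ 0)
    (hns : ¬ ∃ s : ℚ[X], GZ ℚ b ∣ ε - C (e : ℚ) * s ^ 2) :
    FQ.Dense {l | ∃ (_ : Fact l.Prime) (r : ℤ) (ρ : ℤ_[l]), Root b l r ∧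
      (GZ ℤ_[l] b).eval ρ = 0 ∧ ‖ρ - (r : ℤ_[l])‖ < 1 ∧
      ¬ IsSquare ((e : ℚ_[l]) * (ε.map (algebraMap ℚ ℚ_[l])).eval (ρ : ℚ_[l]))} := by
  classical
  have h0' : ((b 0 : ℤ) : ℚ) ≠ 0 := by exact_mod_cast h0
  have he' : ((e : ℤ) : ℚ) ≠ 0 := by exact_mod_cast he
  obtain ⟨g, hg, hgQ, hgns⟩ := exists_factor_ns (GZ ℚ b) hsq ε e hns
  obtain ⟨L, i1, i2, i3, ρ0, s0, hρ0, hs0⟩ := exists_field g (C (e : ℚ) * ε) hg
  obtain ⟨σ0, hσ1, hσ2⟩ := exists_aut g (C (e : ℚ) * ε) hg ρ0 s0 hρ0 hs0 (by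
    rintro ⟨k, hk⟩
    apply hgns
    refine ⟨C ((e : ℚ)⁻¹) * k, ?_⟩
    have e1 : ε - C (e : ℚ) * (C ((e : ℚ)⁻¹) * k) ^ 2 =
        C ((e : ℚ)⁻¹) * (C (e : ℚ) * ε - k ^ 2) := by
      have h3 : C ((e : ℚ)⁻¹) * C (e : ℚ) = 1 := by
        rw [← C_mul, inv_mul_cancel₀ he', C_1]
      linear_combination (- ε - C ((e : ℚ)⁻¹) * k ^ 2) * h3
    rw [e1]
    exact hk.mul_left _)
  -- the polynomial with integral coefficients
  obtain ⟨D, hD, H0, hH0⟩ := clear_den (ε.comp (C ((b 0 : ℚ)⁻¹) * X))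
  obtain ⟨H, hHd⟩ : ∃ H : ℤ[X], H = C (D * e) * H0 := ⟨_, rfl⟩
  have hH : H.map (Int.castRingHom ℚ) =
      C ((D : ℚ) ^ 2 * e) * ε.comp (C ((b 0 : ℚ)⁻¹) * X) := by
    rw [hHd, Polynomial.map_mul, Polynomial.map_C, hH0, ← mul_assoc, ← C_mul]
    congr 2
    simp only [eq_intCast, Int.cast_mul]
    ring
  -- the bad primes
  have hsep : (GZ ℚ b).Separable := (PerfectField.separable_iff_squarefree).2 hsq
  obtain ⟨N1, hN1, U1, V1, hB1⟩ := bezout (GZ ℤ b) (derivative (GZ ℤ b)) (by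
    rw [← derivative_map, SplitAux.gz_map]
    exact hsep)
  obtain ⟨N2, hN2, U2, V2, hB2⟩ := bezout (SplitAux.f1 b) H (coprime_H hm b h0 ε hε e D he hD H hH)
  -- the class function
  obtain ⟨A, hA⟩ : ∃ A : Set (L ≃ₐ[ℚ] L), A = {σ | ∃ ρ s : L, (GZ L b).eval ρ = 0 ∧
    s ^ 2 = e * (ε.map (algebraMap ℚ L)).eval ρ ∧ σ ρ = ρ ∧ σ s ≠ s} := ⟨_, rfl⟩
  have hA0 : σ0 ∈ A := by
    rw [hA]
    refine ⟨ρ0, s0, ?_, ?_, hσ1, hσ2⟩
    · have h3 : GZ L b = (GZ ℚ b).map (algebraMap ℚ L) := (SplitAux.gz_map _ b).symm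
      obtain ⟨k, hk⟩ := hgQ
      rw [h3, hk, Polynomial.map_mul, eval_mul, eval_map, ← aeval_def, hρ0, zero_mul]
    · rw [hs0, _root_.map_mul, aeval_C, eval_map, ← aeval_def, map_intCast]
  have hconj : ∀ g σ : L ≃ₐ[ℚ] L, σ ∈ A → g * σ * g⁻¹ ∈ A := by
    intro g σ h
    rw [hA] at h ⊢
    obtain ⟨ρ, s, h1, h2, h3, h4⟩ := h
    have hg : g⁻¹ (g ρ) = ρ := g.symm_apply_apply ρ
    have hgs : g⁻¹ (g s) = s := g.symm_apply_apply s
    have hev : ∀ f : ℚ[X], g ((f.map (algebraMap ℚ L)).eval ρ) =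
        (f.map (algebraMap ℚ L)).eval (g ρ) := by
      intro f
      rw [eval_map, eval_map, ← aeval_def, ← aeval_def]
      exact (aeval_algHom_apply g.toAlgHom ρ f).symm
    refine ⟨g ρ, g s, ?_, ?_, ?_, ?_⟩
    · have h5 : GZ L b = (GZ ℚ b).map (algebraMap ℚ L) := (SplitAux.gz_map _ b).symm
      rw [h5] at h1 ⊢
      rw [← hev, h1, map_zero]
    · rw [← hev, ← map_pow, h2, _root_.map_mul, map_intCast]
    · rw [AlgEquiv.mul_apply, AlgEquiv.mul_apply, hg, h3]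
    · rw [AlgEquiv.mul_apply, AlgEquiv.mul_apply, hgs]
      intro h5
      exact h4 (g.injective h5)
  have hdiv : ∀ σ τ : L ≃ₐ[ℚ] L, Subgroup.zpowers σ = Subgroup.zpowers τ → σ ∈ A → τ ∈ A := by
    intro σ τ h hσ
    have hfix : ∀ σ τ : L ≃ₐ[ℚ] L, Subgroup.zpowers σ = Subgroup.zpowers τ → ∀ x : L,
        σ x = x → τ x = x := by
      intro σ τ h x hx
      have h3 : τ ∈ Subgroup.zpowers σ := by
        rw [h]
        exact Subgroup.mem_zpowers τ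
      have h4 : Subgroup.zpowers σ ≤ MulAction.stabilizer (L ≃ₐ[ℚ] L) x := by
        rw [Subgroup.zpowers_le]
        exact hx
      exact h4 h3
    rw [hA] at hσ ⊢
    obtain ⟨ρ, s, h1, h2, h3, h4⟩ := hσ
    exact ⟨ρ, s, h1, h2, hfix σ τ h ρ h3, fun h5 => h4 (hfix τ σ h.symm s h5)⟩
  have hMV := Cheb.MV_class L (fun σ => if σ ∈ A then (1 : ℝ) else 0) (by
      intro g σ
      have : g * σ * g⁻¹ ∈ A ↔ σ ∈ A := by
        refine ⟨fun h => ?_, hconj g σ⟩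
        have h3 := hconj g⁻¹ _ h
        have e1 : g⁻¹ * (g * σ * g⁻¹) * g⁻¹⁻¹ = σ := by group
        rwa [e1] at h3
      simp only [this]) (by
      intro σ τ h
      have : σ ∈ A ↔ τ ∈ A := ⟨hdiv σ τ h, hdiv τ σ h.symm⟩
      simp only [this])
  refine dense_of_MV hMV ?_ ?_ (b 0 * N1 * N2).natAbs ?_ _ ?_
  · apply div_pos
    · apply sum_pos'
      · intro σ _
        split_ifs <;> norm_num
      · exact ⟨σ0, mem_univ _, by rw [if_pos hA0]; norm_num⟩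
    · exact_mod_cast Fintype.card_pos
  · intro p
    split_ifs <;> norm_num
  · rw [Int.natAbs_ne_zero]
    exact mul_ne_zero (mul_ne_zero h0 hN1) hN2
  · intro p hpN hp5 hpA
    have hp : Fact (p : ℕ).Prime := ⟨p.2⟩
    have hmem : Cheb.frob L p ∈ A := by
      by_contra hcon
      rw [if_neg hcon] at hpA
      exact lt_irrefl _ hpA
    rw [hA] at hmem
    obtain ⟨ρ, s, h1, h2, h3, h4⟩ := hmem
    have hpd : ∀ z : ℤ, z ∣ b 0 * N1 * N2 → ¬ ((p : ℕ) : ℤ) ∣ z := fun z hz hd =>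
      hpN (Int.natCast_dvd.1 (hd.trans hz))
    obtain ⟨n, hn, hnsq⟩ := at_frob hm b h0 ε e D H hH N2 U2 V2 hB2 p (by omega)
      (hpd N2 (dvd_mul_left _ _)) (Cheb.frobP L p) (Cheb.frob L p) (Cheb.frob_spec L p) ρ s h1 h2
      h3 h4
    exact ⟨hp, local_part hm b h0 ε e D H hH N1 U1 V1 hB1 p
      (hpd _ ((dvd_mul_right _ _).trans (dvd_mul_right _ _)))
      (hpd _ ((dvd_mul_left _ _).trans (dvd_mul_right _ _))) n hn hnsq⟩

end Stoll308.NE
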