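import Pool.Agent.Work.MP_308fa9_nt.NE.Basic
import Pool.Agent.Work.MP_308fa9_nt.BG.HankL
import Pool.Agent.Work.MP_308fa9_nt.BG.DetCls
import Pool.Agent.Work.MP_308fa9_nt.BF.LocLat

set_option autoImplicit false

/-!
A pair of matrices determines its class.
-/

namespace Stoll308.NE

open Polynomial Finset Matrix BF

section comm

variable {K : Type*} [Field K] {n : ℕ}

lemma pu_row (F : K[X]) (hF : F.Monic) (hn : F.natDegree = n) (W : Matrix (Fin n) (Fin n) K)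
    (h : W * BG.mulMat n F X = BG.mulMat n F X * W) (k : ℕ) (hk : k + 1 < n) :
    W ⟨k + 1, hk⟩ = W ⟨k, by omega⟩ ᵥ* BG.mulMat n F X := by
  ext j
  have h1 := congrFun (congrFun h ⟨k, by omega⟩) j
  have h2 : (W ⟨k, by omega⟩ ᵥ* BG.mulMat n F X) j = (W * BG.mulMat n F X) ⟨k, by omega⟩ j := rfl
  rw [h2, h1, Matrix.mul_apply, Finset.sum_eq_single (⟨k + 1, hk⟩ : Fin n)]
  · have h3 : BG.mulMat n F X ⟨k, by omega⟩ ⟨k + 1, hk⟩ = ((X * X ^ k) %ₘ F).coeff (k + 1) := rfl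
    rw [h3, ← pow_succ', BG.HankL.mod_X_pow F hF hn hk, coeff_X_pow, if_pos rfl, one_mul]
  · intro l _ hl
    have h3 : BG.mulMat n F X ⟨k, by omega⟩ l = ((X * X ^ k) %ₘ F).coeff l := rfl
    rw [h3, ← pow_succ', BG.HankL.mod_X_pow F hF hn hk, coeff_X_pow, if_neg, zero_mul]
    intro h4
    exact hl (Fin.ext h4)
  · intro h3
    exact absurd (Finset.mem_univ _) h3

/-- A matrix which commutes with the multiplication by `θ` is a multiplication. -/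
lemma pu_comm (F : K[X]) (hF : F.Monic) (hn : F.natDegree = n) (hn1 : 1 ≤ n)
    (W : Matrix (Fin n) (Fin n) K) (h : W * BG.mulMat n F X = BG.mulMat n F X * W) :
    ∃ u : K[X], W = BG.mulMat n F u := by
  refine ⟨BG.MidX.pv (W ⟨0, by omega⟩), ?_⟩
  set u := BG.MidX.pv (W ⟨0, by omega⟩) with hu
  have hc : BG.mulMat n F u * BG.mulMat n F X = BG.mulMat n F X * BG.mulMat n F u := by
    rw [← BG.HankL.mulMat_mul F _ _ hF hn, ← BG.HankL.mulMat_mul F _ _ hF hn, mul_comm]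
  have key : ∀ (k : ℕ) (hk : k < n), W ⟨k, hk⟩ = BG.mulMat n F u ⟨k, hk⟩ := by
    intro k
    induction k with
    | zero =>
      intro hk
      ext j
      have h1 : BG.mulMat n F u ⟨0, hk⟩ j = ((u * X ^ 0) %ₘ F).coeff j := rfl
      have h2 : u %ₘ F = u := by
        rw [modByMonic_eq_self_iff hF, degree_eq_natDegree hF.ne_zero, hn]
        exact BG.MidX.pv_degree_lt _
      rw [h1, pow_zero, mul_one, h2, hu, BG.MidX.pv_coeff]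
    | succ k ih =>
      intro hk
      rw [pu_row F hF hn W h k hk, pu_row F hF hn (BG.mulMat n F u) hc k hk, ih (by omega)]
  ext i j
  exact congrFun (key i i.2) j

lemma pu_core (F : K[X]) (hF : F.Monic) (hn : F.natDegree = n) (hn1 : 1 ≤ n) (ε₁ ε₂ : K[X])
    (h1 : IsCoprime ε₁ F) (h2 : IsCoprime ε₂ F) (G₁ G₂ : Matrix (Fin n) (Fin n) K)
    (hG₁ : G₁.det ≠ 0) (hG₂ : G₂.det ≠ 0)
    (eA : G₁ * BG.Hank n F ε₁ * G₁ᵀ = G₂ * BG.Hank n F ε₂ * G₂ᵀ)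
    (eB : G₁ * BG.Hank n F (X * ε₁) * G₁ᵀ = G₂ * BG.Hank n F (X * ε₂) * G₂ᵀ) :
    ∃ u : K[X], IsCoprime u F ∧ F ∣ ε₂ - ε₁ * u ^ 2 := by
  have hu1 : IsUnit G₁.det := isUnit_iff_ne_zero.2 hG₁
  have hu2 : IsUnit G₂.det := isUnit_iff_ne_zero.2 hG₂
  have k2 : G₂⁻¹ * G₂ = 1 := Matrix.nonsing_inv_mul _ hu2
  have k2t : G₂ᵀ * (G₂⁻¹)ᵀ = 1 := by
    rw [← Matrix.transpose_mul, k2, Matrix.transpose_one]
  set M := BG.mulMat n F X with hM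
  set H₁ := BG.Hank n F ε₁ with hH₁
  set H₂ := BG.Hank n F ε₂ with hH₂
  set W := G₂⁻¹ * G₁ with hW
  have m1 : BG.Hank n F (X * ε₁) = M * H₁ := by
    rw [mul_comm X ε₁]
    exact BG.HankL.hank_mul F ε₁ X hF hn
  have m2 : BG.Hank n F (X * ε₂) = M * H₂ := by
    rw [mul_comm X ε₂]
    exact BG.HankL.hank_mul F ε₂ X hF hn
  have key : ∀ P Q : Matrix (Fin n) (Fin n) K, G₁ * P * G₁ᵀ = G₂ * Q * G₂ᵀ → W * P * Wᵀ = Q := by
    intro P Q e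
    have e1 : W * P * Wᵀ = G₂⁻¹ * (G₁ * P * G₁ᵀ) * (G₂⁻¹)ᵀ := by
      rw [hW, Matrix.transpose_mul]
      simp only [Matrix.mul_assoc]
    have e2 : G₂⁻¹ * (G₂ * Q * G₂ᵀ) * (G₂⁻¹)ᵀ = (G₂⁻¹ * G₂) * Q * (G₂ᵀ * (G₂⁻¹)ᵀ) := by
      simp only [Matrix.mul_assoc]
    rw [e1, e, e2, k2, k2t, Matrix.one_mul, Matrix.mul_one]
  have cA : W * H₁ * Wᵀ = H₂ := key _ _ eA
  have cB : W * (M * H₁) * Wᵀ = M * H₂ := by
    apply key
    rw [← m1, ← m2]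
    exact eB
  have hH₁0 : H₁.det ≠ 0 := BG.hank_det_ne_zero F ε₁ hF hn h1
  have hW0 : W.det ≠ 0 := by
    rw [hW, Matrix.det_mul]
    refine mul_ne_zero ?_ hG₁
    intro h3
    have h4 := congrArg Matrix.det k2
    rw [Matrix.det_mul, h3, zero_mul, Matrix.det_one] at h4
    exact zero_ne_one h4
  have hcomm : W * M = M * W := by
    have e1 : (W * M) * (H₁ * Wᵀ) = (M * W) * (H₁ * Wᵀ) := by
      rw [show (W * M) * (H₁ * Wᵀ) = W * (M * H₁) * Wᵀ by simp only [Matrix.mul_assoc],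
        show (M * W) * (H₁ * Wᵀ) = M * (W * H₁ * Wᵀ) by simp only [Matrix.mul_assoc], cA, cB]
    have e2 : IsUnit (H₁ * Wᵀ).det := by
      rw [isUnit_iff_ne_zero, Matrix.det_mul, Matrix.det_transpose]
      exact mul_ne_zero hH₁0 hW0
    have e3 : (H₁ * Wᵀ) * (H₁ * Wᵀ)⁻¹ = 1 := Matrix.mul_nonsing_inv _ e2
    have e4 := congrArg (fun N => N * (H₁ * Wᵀ)⁻¹) e1
    beta_reduce at e4
    rw [Matrix.mul_assoc (W * M), Matrix.mul_assoc (M * W), e3, Matrix.mul_one,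
      Matrix.mul_one] at e4
    exact e4
  obtain ⟨u, hu⟩ := pu_comm F hF hn hn1 W hcomm
  have q1 : BG.Hank n F (ε₁ * u ^ 2) = H₂ := by
    rw [BG.hank_mul_sq F ε₁ u hF hn, ← hu]
    exact cA
  have q2 : BG.mulMat n F (ε₁ * u ^ 2) = BG.mulMat n F ε₂ := by
    have e1 := BG.HankL.hank_mul F 1 (ε₁ * u ^ 2) hF hn
    have e2 := BG.HankL.hank_mul F 1 ε₂ hF hn
    rw [one_mul] at e1 e2
    have e3 : BG.mulMat n F (ε₁ * u ^ 2) * BG.Hank n F 1 = BG.mulMat n F ε₂ * BG.Hank n F 1 := by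
      rw [← e1, ← e2, q1]
    have e4 : IsUnit (BG.Hank n F 1).det := by
      rw [isUnit_iff_ne_zero]
      exact BG.hank_det_ne_zero F 1 hF hn isCoprime_one_left
    have e5 : (BG.Hank n F 1) * (BG.Hank n F 1)⁻¹ = 1 := Matrix.mul_nonsing_inv _ e4
    have e6 := congrArg (fun N => N * (BG.Hank n F 1)⁻¹) e3
    beta_reduce at e6
    rw [Matrix.mul_assoc, Matrix.mul_assoc, e5, Matrix.mul_one, Matrix.mul_one] at e6
    exact e6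
  have q3 : (ε₁ * u ^ 2) %ₘ F = ε₂ %ₘ F := by
    rw [BG.HankL.mod_eq_sum F (ε₁ * u ^ 2) hF hn, BG.HankL.mod_eq_sum F ε₂ hF hn]
    refine Finset.sum_congr rfl fun k _ => ?_
    have e1 := congrFun (congrFun q2 ⟨0, by omega⟩) k
    have e2 : BG.mulMat n F (ε₁ * u ^ 2) ⟨0, by omega⟩ k =
      (((ε₁ * u ^ 2) * X ^ 0) %ₘ F).coeff k := rfl
    have e3 : BG.mulMat n F ε₂ ⟨0, by omega⟩ k = ((ε₂ * X ^ 0) %ₘ F).coeff k := rfl
    rw [e2, e3, pow_zero, mul_one, mul_one] at e1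
    rw [e1]
  have q4 : F ∣ ε₂ - ε₁ * u ^ 2 := by
    rw [← modByMonic_eq_zero_iff_dvd hF, sub_modByMonic, q3, sub_self]
  refine ⟨u, ?_, q4⟩
  obtain ⟨v, hv⟩ := q4
  have e1 : IsCoprime (ε₁ * u ^ 2) F := by
    have e2 : ε₁ * u ^ 2 = ε₂ + F * (-v) := by linear_combination (-1 : K[X]) * hv
    rw [e2]
    exact IsCoprime.add_mul_left_left h2 (-v)
  have e2 : IsCoprime (u ^ 2) F := IsCoprime.of_mul_left_right e1
  exact (IsCoprime.pow_left_iff (by norm_num)).1 e2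

end comm

theorem pair_uniq {m : ℕ} (hm : 1 ≤ m) (b : Fin (m + 1) → ℤ) (h0 : b 0 ≠ 0) (ε₁ ε₂ : ℚ[X])
    (h1 : IsCoprime ε₁ (GZ ℚ b)) (h2 : IsCoprime ε₂ (GZ ℚ b)) (A B : Matrix (Fin m) (Fin m) ℤ)
    (e1 : BF.IsPair b ε₁ A B) (e2 : BF.IsPair b ε₂ A B) :
    ∃ u : ℚ[X], IsCoprime u (GZ ℚ b) ∧ GZ ℚ b ∣ ε₂ - ε₁ * u ^ 2 := by
  have h0' : ((b 0 : ℤ) : ℚ) ≠ 0 := by exact_mod_cast h0
  obtain ⟨G₁, hG₁, a1, b1⟩ := e1
  obtain ⟨G₂, hG₂, a2, b2⟩ := e2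
  have hc : ((b 0 : ℚ)⁻¹) ≠ 0 := inv_ne_zero h0'
  have eA : G₁ * BG.Hank m (mon ℚ b) ε₁ * G₁ᵀ = G₂ * BG.Hank m (mon ℚ b) ε₂ * G₂ᵀ := by
    rw [a1] at a2
    exact smul_right_injective _ hc a2
  have eB : G₁ * BG.Hank m (mon ℚ b) (X * ε₁) * G₁ᵀ =
      G₂ * BG.Hank m (mon ℚ b) (X * ε₂) * G₂ᵀ := by
    rw [b1] at b2
    exact smul_right_injective _ hc b2
  have hF : (mon ℚ b).Monic := BF.LocLat.mon_monic b h0'
  have hn : (mon ℚ b).natDegree = m := BF.LocLat.mon_natDegree b h0'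
  have hGZ : GZ ℚ b = C (b 0 : ℚ) * mon ℚ b := BF.LocLat.GZ_eq b h0'
  have hmd : mon ℚ b ∣ GZ ℚ b := ⟨C (b 0 : ℚ), by rw [hGZ, mul_comm]⟩
  have hdm : GZ ℚ b ∣ mon ℚ b := ⟨C ((b 0 : ℚ)⁻¹), by rw [mon, mul_comm]⟩
  obtain ⟨u, hu1, hu2⟩ := pu_core (mon ℚ b) hF hn hm ε₁ ε₂ (h1.of_isCoprime_of_dvd_right hmd)
    (h2.of_isCoprime_of_dvd_right hmd) G₁ G₂ hG₁ hG₂ eA eB
  exact ⟨u, hu1.of_isCoprime_of_dvd_right hdm, hdm.trans hu2⟩

end Stoll308.NE
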