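import Pool.Agent.Work.MP_308fa9_nt.NE.Basic
import Pool.Agent.Work.MP_308fa9_nt.BG.TrivC

set_option autoImplicit false

/-!
Few monic polynomials have, at no prime `l` of a set which is not too small, the given integer as a
simple root exactly modulo `l`.
-/

namespace Stoll308.NE

open Polynomial Finset BG FQ

namespace Sv

lemma eval_FZ {n : ℕ} (c : Fin n → ℤ) (r : ℤ) :
    (FZ ℤ c).eval r = r ^ n + ∑ i : Fin n, c i * r ^ (n - 1 - (i : ℕ)) := by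
  unfold FZ fpol
  rw [eval_add, eval_finset_sum]
  simp

lemma eval_dFZ {n : ℕ} (c : Fin n → ℤ) (r : ℤ) :
    (derivative (FZ ℤ c)).eval r = n * r ^ (n - 1) +
      ∑ i : Fin n, c i * (((n - 1 - (i : ℕ) : ℕ) : ℤ) * r ^ (n - 1 - (i : ℕ) - 1)) := by
  unfold FZ fpol
  rw [derivative_add, eval_add, derivative_sum, eval_finset_sum]
  simp [derivative_X_pow]

/-- the event at `l` -/
def Ev {m : ℕ} (r : ℤ) (l : ℕ) (t : Fin (m + 2) → ℤ) : Prop :=
  (l : ℤ) ∣ (FZ ℤ t).eval r ∧ ¬ (l : ℤ) ^ 2 ∣ (FZ ℤ t).eval r ∧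
    ¬ (l : ℤ) ∣ (derivative (FZ ℤ t)).eval r

lemma sum_congr_mod {n : ℕ} {L : ℤ} (t t' β : Fin n → ℤ) (h : ∀ i, L ∣ t i - t' i) :
    L ∣ ∑ i, t i * β i - ∑ i, t' i * β i := by
  rw [← Finset.sum_sub_distrib]
  refine Finset.dvd_sum fun i _ => ?_
  rw [← sub_mul]
  exact (h i).mul_right _

lemma ev_congr {m : ℕ} (r : ℤ) (l : ℕ) (t t' : Fin (m + 2) → ℤ)
    (h : ∀ i, ((l ^ 2 : ℕ) : ℤ) ∣ t i - t' i) : Ev r l t ↔ Ev r l t' := by
  have h2 : ∀ i, (l : ℤ) ^ 2 ∣ t i - t' i := fun i => by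
    have := h i
    rwa [Nat.cast_pow] at this
  have h1 : ∀ i, (l : ℤ) ∣ t i - t' i := fun i => (dvd_pow_self (l : ℤ) two_ne_zero).trans (h2 i)
  have e : ∀ L : ℤ, (∀ i, L ∣ t i - t' i) → L ∣ (FZ ℤ t).eval r - (FZ ℤ t').eval r := by
    intro L hL
    rw [eval_FZ, eval_FZ, add_sub_add_left_eq_sub]
    exact sum_congr_mod _ _ _ hL
  have e' : ∀ L : ℤ, (∀ i, L ∣ t i - t' i) →
      L ∣ (derivative (FZ ℤ t)).eval r - (derivative (FZ ℤ t')).eval r := by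
    intro L hL
    rw [eval_dFZ, eval_dFZ, add_sub_add_left_eq_sub]
    exact sum_congr_mod _ _ _ hL
  unfold Ev
  rw [dvd_iff_dvd_of_dvd_sub (e _ h1), dvd_iff_dvd_of_dvd_sub (e _ h2),
    dvd_iff_dvd_of_dvd_sub (e' _ h1)]

/-- the residue -/
def rs (L : ℕ) (hL : 0 < L) (z : ℤ) : Fin L :=
  ⟨(z % (L : ℤ)).toNat, by
    have h1 := Int.emod_lt_of_pos z (show (0 : ℤ) < L by exact_mod_cast hL)
    have h2 := Int.emod_nonneg z (show (L : ℤ) ≠ 0 by exact_mod_cast hL.ne')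
    omega⟩

lemma rs_dvd (L : ℕ) (hL : 0 < L) (z : ℤ) : (L : ℤ) ∣ ((rs L hL z : ℕ) : ℤ) - z := by
  have h2 := Int.emod_nonneg z (show (L : ℤ) ≠ 0 by exact_mod_cast hL.ne')
  unfold rs
  rw [Int.toNat_of_nonneg h2]
  exact ⟨-(z / L), by have := Int.emod_add_mul_ediv z L; linarith⟩

lemma fin_eq {L : ℕ} (a b : Fin L) (h : (L : ℤ) ∣ ((a : ℕ) : ℤ) - ((b : ℕ) : ℤ)) : a = b := by
  apply Fin.ext
  have h1 := (Nat.modEq_iff_dvd (n := L) (a := (b : ℕ)) (b := (a : ℕ))).2 h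
  unfold Nat.ModEq at h1
  rw [Nat.mod_eq_of_lt a.2, Nat.mod_eq_of_lt b.2] at h1
  exact h1.symm

/-- the change of coordinates -/
def Psi {m : ℕ} (r : ℤ) (L : ℕ) (hL : 0 < L) (V V' : (Fin (m + 2) → ℤ) → ℤ)
    (t : Fin (m + 2) → Fin L) : Fin (m + 2) → Fin L :=
  Fin.snoc (α := fun _ => Fin L) (Fin.snoc (α := fun _ => Fin L)
    (fun i : Fin m => t i.castSucc.castSucc) (rs L hL (V' (fun i => ((t i : ℕ) : ℤ)))))
    (rs L hL (V (fun i => ((t i : ℕ) : ℤ))))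

open Classical in
lemma ev_count (m l : ℕ) (r : ℤ) (hl : 2 ≤ l) : (l ^ 2) ^ m * (l * ((l - 1) * (l - 1))) ≤
    (univ.filter fun t : Fin (m + 2) → Fin (l ^ 2) =>
      Ev r l (fun i => ((t i : ℕ) : ℤ))).card := by
  have hL : 0 < l ^ 2 := by positivity
  refine (BG.TrivC.ev_count m l hl).trans ?_
  set Ψ := Psi (m := m) r (l ^ 2) hL (fun t => (FZ ℤ t).eval r)
    (fun t => (derivative (FZ ℤ t)).eval r) with hΨ
  have hinj : Function.Injective Ψ := by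
    intro t s h
    rw [hΨ] at h
    unfold Psi at h
    obtain ⟨h01, h2⟩ := Fin.snoc_inj.1 h
    obtain ⟨h0, h1⟩ := Fin.snoc_inj.1 h01
    have a0 : ∀ i : Fin m, t i.castSucc.castSucc = s i.castSucc.castSucc := fun i => congrFun h0 i
    have d : ∀ z z' : ℤ, rs (l ^ 2) hL z = rs (l ^ 2) hL z' → ((l ^ 2 : ℕ) : ℤ) ∣ z - z' := by
      intro z z' hz
      have e1 := rs_dvd (l ^ 2) hL z
      have e2 := rs_dvd (l ^ 2) hL z'
      rw [hz] at e1
      have := dvd_sub e2 e1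
      rwa [sub_sub_sub_cancel_left] at this
    have h1' := d _ _ h1
    have h2' := d _ _ h2
    simp only [eval_FZ, eval_dFZ, add_sub_add_left_eq_sub, Fin.sum_univ_castSucc,
      Fin.val_castSucc, Fin.val_last, a0] at h1' h2'
    have x1 : m + 2 - 1 - m = 1 := by omega
    have x2 : m + 2 - 1 - (m + 1) = 0 := by omega
    rw [x1, x2] at h1' h2'
    have a1 : t (Fin.last m).castSucc = s (Fin.last m).castSucc := by
      apply fin_eq
      convert h1' using 1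
      push_cast
      ring
    have a2 : t (Fin.last (m + 1)) = s (Fin.last (m + 1)) := by
      apply fin_eq
      rw [a1] at h2'
      convert h2' using 1
      push_cast
      ring
    funext i
    refine Fin.lastCases a2 (fun j => ?_) i
    exact Fin.lastCases a1 (fun k => a0 k) j
  have hsurj : Function.Surjective Ψ := Finite.surjective_of_injective hinj
  refine Finset.card_le_card_of_surjOn Ψ ?_
  intro u hu
  rw [mem_coe, mem_filter] at hu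
  obtain ⟨t, rfl⟩ := hsurj u
  refine ⟨t, ?_, rfl⟩
  rw [mem_coe, mem_filter]
  refine ⟨mem_univ _, ?_⟩
  have h1 := hu.2
  unfold BG.TrivC.Ev at h1
  rw [hΨ] at h1
  unfold Psi at h1
  simp only [Fin.snoc_last, Fin.snoc_castSucc] at h1
  have e := rs_dvd (l ^ 2) hL ((FZ ℤ (fun i => ((t i : ℕ) : ℤ))).eval r)
  have e' := rs_dvd (l ^ 2) hL ((derivative (FZ ℤ (fun i => ((t i : ℕ) : ℤ)))).eval r)
  rw [Nat.cast_pow] at e e'
  have f := (dvd_pow_self (l : ℤ) two_ne_zero).trans e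
  have f' := (dvd_pow_self (l : ℤ) two_ne_zero).trans e'
  unfold Ev
  rwa [dvd_iff_dvd_of_dvd_sub f, dvd_iff_dvd_of_dvd_sub e, dvd_iff_dvd_of_dvd_sub f'] at h1

end Sv

theorem sieve_small {n : ℕ} (hn : 2 ≤ n) (S : Set ℕ) (hS : FQ.Dense S) (r : ℕ → ℤ) (ε : ℝ)
    (hε : 0 < ε) : ∃ X₀ : ℕ, ∀ X : ℕ, X₀ ≤ X →
      (BG.cnt n (fun c => ∀ l : ℕ, l.Prime → 5 ≤ l → l ∈ S →
        ¬ ((l : ℤ) ∣ (FZ ℤ c).eval (r l) ∧ ¬ (l : ℤ) ^ 2 ∣ (FZ ℤ c).eval (r l) ∧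
          ¬ (l : ℤ) ∣ (derivative (FZ ℤ c)).eval (r l))) X : ℝ) ≤ ε * X ^ (n * (n + 1) / 2) := by
  classical
  obtain ⟨m, rfl⟩ : ∃ m, n = m + 2 := ⟨n - 2, by omega⟩
  obtain ⟨z, hz⟩ := hS (2 * (-Real.log (ε / 4 ^ (m + 2))))
  set P := (Icc 5 z).filter (fun l => l.Prime ∧ l ∈ S) with hP
  have hPm : ∀ l ∈ P, l.Prime ∧ 5 ≤ l ∧ l ∈ S := by
    intro l hl
    rw [hP, mem_filter, mem_Icc] at hl
    exact ⟨hl.2.1, hl.1.1, hl.2.2⟩
  set M : ℕ := ∏ l ∈ P, l ^ 2 with hM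
  have hprod : ∏ l ∈ P, (1 - 1 / (2 * (l : ℝ))) ≤ ε / 4 ^ (m + 2) := by
    have h1 : ∏ l ∈ P, (1 - 1 / (2 * (l : ℝ))) ≤ ∏ l ∈ P, Real.exp (-(1 / (2 * (l : ℝ)))) := by
      refine prod_le_prod (fun l hl => ?_) fun l hl => ?_
      · have h2 : (5 : ℝ) ≤ l := by exact_mod_cast (hPm l hl).2.1
        rw [sub_nonneg, div_le_one (by linarith)]
        linarith
      · have := Real.add_one_le_exp (-(1 / (2 * (l : ℝ))))
        linarith
    refine h1.trans ?_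
    rw [← Real.exp_sum, ← Real.le_log_iff_exp_le (by positivity)]
    have h2 : ∑ l ∈ P, -(1 / (2 * (l : ℝ))) = -(1 / 2 * ∑ l ∈ P, (1 : ℝ) / l) := by
      rw [mul_sum, ← sum_neg_distrib]
      refine sum_congr rfl fun l _ => ?_
      rw [neg_inj]
      ring
    rw [h2]
    linarith
  refine ⟨M + 1, fun X hX => ?_⟩
  have hbox := BE.sieve_box (n := m + 2) P (fun l => l ^ 2)
    (fun l hl => by have := (hPm l hl).2.1; positivity)
    (fun l hl l' hl' hne => by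
      refine Nat.Coprime.pow 2 2 ?_
      exact (Nat.coprime_primes (hPm l hl).1 (hPm l' hl').1).2 hne)
    (fun l t => Sv.Ev (r l) l t) (fun l hl t t' h => Sv.ev_congr (r l) l t t' h)
    (fun l => 1 / (2 * (l : ℝ)))
    (fun l hl => by
      have h2 : (5 : ℝ) ≤ l := by exact_mod_cast (hPm l hl).2.1
      rw [div_le_one (by linarith)]
      linarith)
    (fun l hl => by
      have h2 : 5 ≤ l := (hPm l hl).2.1
      have h3 : (5 : ℝ) ≤ l := by exact_mod_cast h2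
      have h4 := Sv.ev_count m l (r l) (by omega)
      have h5 : (((l ^ 2) ^ m * (l * ((l - 1) * (l - 1))) : ℕ) : ℝ) =
          ((l : ℝ) ^ 2) ^ m * (l * ((l : ℝ) - 1) ^ 2) := by
        push_cast [Nat.cast_sub (show 1 ≤ l by omega)]
        ring
      have h6 : (((l ^ 2) ^ m * (l * ((l - 1) * (l - 1))) : ℕ) : ℝ) ≤ _ := Nat.cast_le.mpr h4
      rw [h5] at h6
      refine le_trans ?_ h6
      have h7 : 1 / (2 * (l : ℝ)) * (((l ^ 2 : ℕ) : ℝ)) ^ (m + 2) =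
          ((l : ℝ) ^ 2) ^ m * (l * (1 / 2 * (l : ℝ) ^ 2)) := by
        push_cast
        rw [pow_add]
        field_simp
      rw [h7]
      refine mul_le_mul_of_nonneg_left ?_ (by positivity)
      refine mul_le_mul_of_nonneg_left ?_ (by positivity)
      nlinarith)
    (fun i => -(X : ℤ) ^ ((i : ℕ) + 1)) (fun i => 2 * X ^ ((i : ℕ) + 1) + 1)
  refine le_trans (Nat.cast_le.mpr (TrivC.cnt_le_box _ X (fun t => ∀ l ∈ P, ¬ Sv.Ev (r l) l t) ?_))
    (hbox.trans ?_)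
  · intro b h l hl hE
    exact h l (hPm l hl).1 (hPm l hl).2.1 (hPm l hl).2.2 hE
  have hX1 : (1 : ℝ) ≤ X := by exact_mod_cast (by omega : 1 ≤ X)
  have hMX : (M : ℝ) ≤ X := by exact_mod_cast (by omega : M ≤ X)
  have hMc : ∏ l ∈ P, (((l ^ 2 : ℕ) : ℕ) : ℝ) = (M : ℝ) := by
    rw [hM, Nat.cast_prod]
  rw [hMc]
  have hp0 : 0 ≤ ∏ l ∈ P, (1 - 1 / (2 * (l : ℝ))) := by
    refine prod_nonneg fun l hl => ?_
    have h2 : (5 : ℝ) ≤ l := by exact_mod_cast (hPm l hl).2.1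
    rw [sub_nonneg, div_le_one (by linarith)]
    linarith
  have hD : ∏ i : Fin (m + 2), (((2 * X ^ ((i : ℕ) + 1) + 1 : ℕ) : ℝ) + M) ≤
      4 ^ (m + 2) * (X : ℝ) ^ ((m + 2) * (m + 2 + 1) / 2) := by
    calc ∏ i : Fin (m + 2), (((2 * X ^ ((i : ℕ) + 1) + 1 : ℕ) : ℝ) + M)
        ≤ ∏ i : Fin (m + 2), (4 * (X : ℝ) ^ ((i : ℕ) + 1)) := by
          refine prod_le_prod (fun i _ => by positivity) fun i _ => ?_
          have h1 : (X : ℝ) ≤ (X : ℝ) ^ ((i : ℕ) + 1) := le_self_pow₀ hX1 (by omega)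
          push_cast
          linarith
      _ = _ := by
          rw [prod_mul_distrib, TrivC.prod_pow_box, prod_const, card_univ, Fintype.card_fin]
  calc (∏ i : Fin (m + 2), (((2 * X ^ ((i : ℕ) + 1) + 1 : ℕ) : ℝ) + M)) *
        ∏ l ∈ P, (1 - 1 / (2 * (l : ℝ)))
      ≤ (4 ^ (m + 2) * (X : ℝ) ^ ((m + 2) * (m + 2 + 1) / 2)) * (ε / 4 ^ (m + 2)) := by
        gcongr
    _ = ε * (X : ℝ) ^ ((m + 2) * (m + 2 + 1) / 2) := by
        field_simp

end Stoll308.NE
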