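import Pool.Agent.Work.MP_308fa9_nt.NE.ConstLink
import Pool.Agent.Work.MP_308fa9_nt.NE.DenseNS
import Pool.Agent.Work.MP_308fa9_nt.NE.PairUniq
import Pool.Agent.Work.MP_308fa9_nt.NE.Sieve
import Pool.Agent.Work.MP_308fa9_nt.DQ.Upper
import Pool.Agent.Work.MP_308fa9_nt.BG.Main

set_option autoImplicit false

/-!
The polynomials `f` such that the class of `f` is a given constant and the class of `q` is not.
-/

namespace Stoll308.NE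

open Polynomial Finset Matrix BG BF FQ DQ SC

/-- The class of `f` is `e`, the class of `q` is given by the pair `x`, and it is not `e`. -/
def CC {n m : ℕ} (b : Fin (m + 1) → ℤ) (e : ℤ) (N : ℕ)
    (x : Matrix (Fin m) (Fin m) ℤ × Matrix (Fin m) (Fin m) ℤ) (c : Fin n → ℤ) : Prop :=
  ∃ δ ε s : ℚ[X], IsCoprime δ (FZ ℚ c) ∧ IsCoprime ε (GZ ℚ b) ∧
    FZ ℚ c ∣ δ - C (e : ℚ) * s ^ 2 ∧ BF.IsPair (sc N b) ε x.1 x.2 ∧
    (∀ (p : ℕ) [Fact p.Prime], p ≠ 2 → DLoc (GZ ℚ_[p] (cf c)) (GZ ℚ_[p] b)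
      (δ.map (algebraMap ℚ ℚ_[p])) (ε.map (algebraMap ℚ ℚ_[p]))) ∧
    ¬ ∃ s : ℚ[X], GZ ℚ b ∣ ε - C (e : ℚ) * s ^ 2

theorem const_small {n m : ℕ} (hn : 2 ≤ n) (hm : 2 ≤ m) (b : Fin (m + 1) → ℤ) (h0 : b 0 ≠ 0)
    (hsq : Squarefree (GZ ℚ b)) (e : ℤ) (he : e ≠ 0) (N : ℕ) (hN : 0 < N)
    (x : Matrix (Fin m) (Fin m) ℤ × Matrix (Fin m) (Fin m) ℤ) (ε : ℝ) (hε : 0 < ε) :
    ∃ X₀ : ℕ, ∀ X : ℕ, X₀ ≤ X →
      (BG.cnt n (CC b e N x) X : ℝ) ≤ ε * X ^ (n * (n + 1) / 2) := by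
  classical
  by_cases hex : ∃ c : Fin n → ℤ, CC b e N x c
  swap
  · refine ⟨0, fun X _ => ?_⟩
    have h1 : BG.cnt n (CC b e N x) X = 0 := by
      unfold BG.cnt
      rw [Finset.card_eq_zero, Finset.filter_eq_empty_iff]
      intro c _ h
      exact hex ⟨c, h⟩
    rw [h1, Nat.cast_zero]
    positivity
  obtain ⟨c₀, δ₀, ε₀, s₀, -, hε₀, -, hx₀, -, hns⟩ := hex
  have hden := dense_ns (by omega) b h0 hsq ε₀ hε₀ e he hns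
  obtain ⟨S, hS⟩ : ∃ S : Set ℕ, S = {l | ∃ (_ : Fact l.Prime) (r : ℤ) (ρ : ℤ_[l]), Root b l r ∧
      (GZ ℤ_[l] b).eval ρ = 0 ∧ ‖ρ - (r : ℤ_[l])‖ < 1 ∧
      ¬ IsSquare ((e : ℚ_[l]) * (ε₀.map (algebraMap ℚ ℚ_[l])).eval (ρ : ℚ_[l]))} := ⟨_, rfl⟩
  rw [← hS] at hden
  have hr : ∀ l : ℕ, ∃ r : ℤ, l ∈ S → ∃ (_ : Fact l.Prime) (ρ : ℤ_[l]), Root b l r ∧
      (GZ ℤ_[l] b).eval ρ = 0 ∧ ‖ρ - (r : ℤ_[l])‖ < 1 ∧
      ¬ IsSquare ((e : ℚ_[l]) * (ε₀.map (algebraMap ℚ ℚ_[l])).eval (ρ : ℚ_[l])) := by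
    intro l
    by_cases hl : l ∈ S
    · have hl' := hl
      rw [hS] at hl'
      obtain ⟨h1, r, ρ, h2⟩ := hl'
      exact ⟨r, fun _ => ⟨h1, ρ, h2⟩⟩
    · exact ⟨0, fun h => absurd h hl⟩
  choose r hr using hr
  obtain ⟨X₀, hX₀⟩ := sieve_small (n := n) hn S hden r ε hε
  refine ⟨X₀, fun X hX => le_trans ?_ (hX₀ X hX)⟩
  have hNe : sc N b 0 ≠ 0 := sc_ne h0 hN
  refine Nat.cast_le.2 (BG.cnt_mono X ?_)
  intro c _ hc l hl h5 hlS hbad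
  obtain ⟨δ, ε', s, hδ, hε', hs, hx, hloc, -⟩ := hc
  obtain ⟨h3, h4, h6⟩ := hbad
  obtain ⟨hF, ρ, hrt, hρ, hρr, hnsq⟩ := hr l hlS
  have h2 : l ≠ 2 := by omega
  have hsquare := const_link (by omega) c b δ ε' hδ hε' e he s hs l h2 (hloc l h2) (r l) h3 h4 h6
    hrt ρ hρ hρr
  obtain ⟨u, hu, hdu⟩ := pair_uniq (by omega) (sc N b) hNe ε₀ ε' (coprime_sc hε₀ hN)
    (coprime_sc hε' hN) x.1 x.2 hx₀ hx
  have hdvd : GZ ℚ b ∣ ε' - ε₀ * u ^ 2 := by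
    refine dvd_trans ?_ hdu
    rw [GZ_sc]
    exact Dvd.intro_left _ rfl
  have huc : IsCoprime u (GZ ℚ b) := by
    refine hu.of_isCoprime_of_dvd_right ?_
    rw [GZ_sc]
    exact Dvd.intro_left _ rfl
  -- evaluate at the root
  have hmapq : (GZ ℚ b).map (algebraMap ℚ ℚ_[l]) = GZ ℚ_[l] b :=
    BF.LocLat.GZ_map _ b
  have hev : (GZ ℚ_[l] b).eval (ρ : ℚ_[l]) = 0 := by
    have h7 : (GZ ℤ_[l] b).map (PadicInt.Coe.ringHom (p := l)) = GZ ℚ_[l] b :=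
      BF.LocLat.GZ_map _ b
    rw [← h7]
    have h8 : (ρ : ℚ_[l]) = PadicInt.Coe.ringHom (p := l) ρ := rfl
    rw [h8, eval_map, eval₂_at_apply, hρ, map_zero]
  have hu0 : (u.map (algebraMap ℚ ℚ_[l])).eval (ρ : ℚ_[l]) ≠ 0 := by
    intro h
    obtain ⟨α, β, hαβ⟩ := huc
    have h7 := congrArg (fun P => (P.map (algebraMap ℚ ℚ_[l])).eval (ρ : ℚ_[l])) hαβ
    simp only [Polynomial.map_add, Polynomial.map_mul, eval_add, eval_mul, Polynomial.map_one,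
      eval_one] at h7
    rw [h, hmapq, hev, mul_zero, mul_zero, add_zero] at h7
    exact zero_ne_one h7
  have heq : (ε'.map (algebraMap ℚ ℚ_[l])).eval (ρ : ℚ_[l]) =
      (ε₀.map (algebraMap ℚ ℚ_[l])).eval (ρ : ℚ_[l]) *
        (u.map (algebraMap ℚ ℚ_[l])).eval (ρ : ℚ_[l]) ^ 2 := by
    obtain ⟨w, hw⟩ := hdvd
    have h7 := congrArg (fun P => (P.map (algebraMap ℚ ℚ_[l])).eval (ρ : ℚ_[l])) hw
    simp only [Polynomial.map_sub, Polynomial.map_mul, Polynomial.map_pow, eval_sub, eval_mul,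
      eval_pow] at h7
    rw [hmapq, hev, zero_mul] at h7
    exact sub_eq_zero.1 h7
  apply hnsq
  obtain ⟨v, hv⟩ := hsquare
  rw [heq] at hv
  refine ⟨v / (u.map (algebraMap ℚ ℚ_[l])).eval (ρ : ℚ_[l]), ?_⟩
  field_simp
  linear_combination hv

end Stoll308.NE
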