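import Pool.Agent.Work.MP_308fa9_nt.NE.Basic
import Pool.Agent.Work.MP_308fa9_nt.DQ.Link
import Pool.Agent.Work.MP_308fa9_nt.DQ.LCond

set_option autoImplicit false

/-!
The class of `q` at a common root of `f` and `q` modulo `l`, if the class of `f` is constant.
-/

namespace Stoll308.NE

open Polynomial Finset BG BF FQ DQ

/-- The distance of a root to a point where the derivative is a unit. -/
lemma cl_dist {l : ℕ} [Fact l.Prime] (P : ℤ_[l][X]) (x y : ℤ_[l]) (hx : P.eval x = 0)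
    (hxy : ‖x - y‖ < 1) (hd : ‖(derivative P).eval y‖ = 1) :
    ‖P.eval y‖ = ‖x - y‖ ∧ IsUnit ((derivative P).eval x) := by
  constructor
  · obtain ⟨k, hk⟩ := P.binomExpansion y (x - y)
    have h1 : y + (x - y) = x := by ring
    rw [h1, hx] at hk
    have h2 : P.eval y = -((x - y) * ((derivative P).eval y + k * (x - y))) := by
      linear_combination -hk
    have h3 : ‖(derivative P).eval y + k * (x - y)‖ = 1 := by
      have h4 : ‖k * (x - y)‖ < ‖(derivative P).eval y‖ := by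
        rw [hd, norm_mul]
        calc ‖k‖ * ‖x - y‖ ≤ 1 * ‖x - y‖ :=
              mul_le_mul_of_nonneg_right k.norm_le_one (norm_nonneg _)
          _ < 1 := by rw [one_mul]; exact hxy
      rw [PadicInt.norm_add_eq_max_of_ne (ne_of_gt h4), max_eq_left h4.le, hd]
    rw [h2, norm_neg, norm_mul, h3, mul_one]
  · rw [PadicInt.isUnit_iff]
    obtain ⟨w, hw⟩ := (derivative P).sub_dvd_eval_sub x y
    have h5 : (derivative P).eval x = (derivative P).eval y + (x - y) * w := by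
      linear_combination hw
    have h4 : ‖(x - y) * w‖ < ‖(derivative P).eval y‖ := by
      rw [hd, norm_mul]
      calc ‖x - y‖ * ‖w‖ ≤ ‖x - y‖ * 1 :=
            mul_le_mul_of_nonneg_left w.norm_le_one (norm_nonneg _)
        _ < 1 := by rw [mul_one]; exact hxy
    rw [h5, PadicInt.norm_add_eq_max_of_ne (ne_of_gt h4), max_eq_left h4.le, hd]

/-- The value of a polynomial at an integer. -/
lemma cl_eval {l : ℕ} [Fact l.Prime] (P : ℤ[X]) (r : ℤ) :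
    (P.map (Int.castRingHom ℤ_[l])).eval (r : ℤ_[l]) = ((P.eval r : ℤ) : ℤ_[l]) := by
  rw [eval_map, ← eq_intCast (Int.castRingHom ℤ_[l]) r, eval₂_at_apply]
  simp

lemma cl_norm_one {l : ℕ} [Fact l.Prime] (k : ℤ) (h : ¬ (l : ℤ) ∣ k) : ‖(k : ℤ_[l])‖ = 1 := by
  have h5 : ¬ ‖(k : ℤ_[l])‖ < 1 := fun h' => h ((PadicInt.norm_int_lt_one_iff_dvd _).mp h')
  have h7 := (k : ℤ_[l]).norm_le_one
  linarith [not_lt.mp h5]

lemma cl_norm_le {l : ℕ} [hl : Fact l.Prime] (k : ℤ) (h : (l : ℤ) ^ 2 ∣ k) :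
    ‖(k : ℤ_[l])‖ < (l : ℝ)⁻¹ := by
  have h1 : ‖(k : ℤ_[l])‖ ≤ (l : ℝ) ^ (-(2 : ℕ) : ℤ) := by
    rw [PadicInt.norm_int_le_pow_iff_dvd]
    exact_mod_cast h
  have hl1 : (1 : ℝ) < l := by exact_mod_cast hl.out.one_lt
  refine lt_of_le_of_lt h1 ?_
  rw [_root_.zpow_neg, zpow_natCast]
  apply inv_strictAnti₀ (by linarith)
  nlinarith

lemma cl_norm_eq {l : ℕ} [hl : Fact l.Prime] (k : ℤ) (h : (l : ℤ) ∣ k)
    (h' : ¬ (l : ℤ) ^ 2 ∣ k) : ‖(k : ℤ_[l])‖ = (l : ℝ)⁻¹ := by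
  obtain ⟨j, rfl⟩ := h
  have hj : ¬ (l : ℤ) ∣ j := by
    rintro ⟨i, rfl⟩
    exact h' ⟨i, by ring⟩
  push_cast
  rw [norm_mul, cl_norm_one j hj, mul_one, PadicInt.norm_p]

open DQ.LC SC in
theorem const_link {n m : ℕ} (hn : 1 ≤ n) (c : Fin n → ℤ) (b : Fin (m + 1) → ℤ) (δ ε : ℚ[X])
    (hδ : IsCoprime δ (FZ ℚ c)) (hε : IsCoprime ε (GZ ℚ b)) (e : ℤ) (he : e ≠ 0) (s : ℚ[X])
    (hs : FZ ℚ c ∣ δ - C (e : ℚ) * s ^ 2) (l : ℕ) [Fact l.Prime] (h2 : l ≠ 2)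
    (hloc : DLoc (GZ ℚ_[l] (cf c)) (GZ ℚ_[l] b) (δ.map (algebraMap ℚ ℚ_[l]))
      (ε.map (algebraMap ℚ ℚ_[l]))) (r : ℤ) (h3 : (l : ℤ) ∣ (FZ ℤ c).eval r)
    (h4 : ¬ (l : ℤ) ^ 2 ∣ (FZ ℤ c).eval r) (h5 : ¬ (l : ℤ) ∣ (derivative (FZ ℤ c)).eval r)
    (hr : Root b l r) (ρ : ℤ_[l]) (hρ : (GZ ℤ_[l] b).eval ρ = 0) (hρr : ‖ρ - (r : ℤ_[l])‖ < 1) :
    IsSquare ((e : ℚ_[l]) * (ε.map (algebraMap ℚ ℚ_[l])).eval (ρ : ℚ_[l])) := by
  set F := GZ ℤ_[l] (cf c) with hF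
  have hFm : F = (FZ ℤ c).map (Int.castRingHom ℤ_[l]) := by
    rw [← GZ_cf ℤ c]
    exact (BF.LCond.lc_GZ_map _ (cf c)).symm
  set Q := GZ ℤ_[l] b with hQ
  have hQm : Q = (GZ ℤ b).map (Int.castRingHom ℤ_[l]) := (BF.LCond.lc_GZ_map _ b).symm
  have hF0 : ‖F.eval (r : ℤ_[l])‖ = (l : ℝ)⁻¹ := by
    rw [hFm, cl_eval]
    exact cl_norm_eq _ h3 h4
  have hF1 : ‖(derivative F).eval (r : ℤ_[l])‖ = 1 := by
    rw [hFm, derivative_map, cl_eval]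
    exact cl_norm_one _ h5
  have hQ0 : ‖Q.eval (r : ℤ_[l])‖ < (l : ℝ)⁻¹ := by
    rw [hQm, cl_eval]
    exact cl_norm_le _ hr.1
  have hQ1 : ‖(derivative Q).eval (r : ℤ_[l])‖ = 1 := by
    rw [hQm, derivative_map, cl_eval]
    exact cl_norm_one _ hr.2
  have hl1 : (1 : ℝ) < l := by exact_mod_cast (Fact.out : l.Prime).one_lt
  have hli : (l : ℝ)⁻¹ < 1 := inv_lt_one_of_one_lt₀ hl1
  obtain ⟨θ, hθ, hθn, -, -⟩ := hensels_lemma (F := F) (a := (r : ℤ_[l])) (by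
    simp only [coe_aeval_eq_eval]
    rw [hF1, hF0]
    simpa using hli)
  simp only [coe_aeval_eq_eval] at hθ hθn
  rw [hF1] at hθn
  obtain ⟨hθ1, hθd⟩ := cl_dist F θ r hθ hθn hF1
  obtain ⟨hρ1, hρd⟩ := cl_dist Q ρ r hρ hρr hQ1
  rw [hF0] at hθ1
  rw [hρ1] at hQ0
  have hdist : ‖θ - ρ‖ = (l : ℝ)⁻¹ := by
    have h6 : θ - ρ = (θ - r) + -(ρ - r) := by ring
    have h7 : ‖-(ρ - (r : ℤ_[l]))‖ < ‖θ - (r : ℤ_[l])‖ := by
      rw [norm_neg, ← hθ1]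
      exact hQ0
    rw [h6, PadicInt.norm_add_eq_max_of_ne (ne_of_gt h7), max_eq_left h7.le, ← hθ1]
  obtain ⟨g, k, hk, hcl, hcl'⟩ := hloc
  have hq1 : toQ F = GZ ℚ_[l] (cf c) := BF.LCond.lc_GZ_map _ (cf c)
  have hq2 : toQ Q = GZ ℚ_[l] b := BF.LCond.lc_GZ_map _ b
  have hcoe : ∀ (P : ℤ_[l][X]) (x : ℤ_[l]), (toQ P).eval (x : ℚ_[l]) =
      ((P.eval x : ℤ_[l]) : ℚ_[l]) := by
    intro P x
    have h5 : (x : ℚ_[l]) = algebraMap ℤ_[l] ℚ_[l] x := rfl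
    rw [h5, eval_map, eval₂_at_apply]
    rfl
  have hr1 : (GZ ℚ_[l] (cf c)).eval (θ : ℚ_[l]) = 0 := by
    rw [← hq1, hcoe, hθ]
    rfl
  have hr2 : (GZ ℚ_[l] b).eval (ρ : ℚ_[l]) = 0 := by
    rw [← hq2, hcoe, hρ]
    rfl
  have hlink := link l h2 F Q θ ρ hθ hρ hθd hρd hdist g
    (by rw [hq1]; exact hcl.2.2.1) (by rw [hq2]; exact hcl'.2.2.1)
  obtain ⟨hg1, s₁, hs₁, hgs₁⟩ := cls_eval hcl hr1
  obtain ⟨hg2, s₂, hs₂, hgs₂⟩ := cls_eval hcl' hr2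
  obtain ⟨z, hz⟩ := hlink
  -- the value of `δ` at `θ`
  have hδθ : (δ.map (algebraMap ℚ ℚ_[l])).eval (θ : ℚ_[l]) =
      (e : ℚ_[l]) * (s.map (algebraMap ℚ ℚ_[l])).eval (θ : ℚ_[l]) ^ 2 := by
    obtain ⟨w, hw⟩ := hs
    have h7 := congrArg (fun P => (P.map (algebraMap ℚ ℚ_[l])).eval (θ : ℚ_[l])) hw
    simp only [Polynomial.map_sub, Polynomial.map_mul, Polynomial.map_pow, eval_sub, eval_mul,
      eval_pow, Polynomial.map_C] at h7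
    rw [eval_C, map_intCast] at h7
    have h8 : (FZ ℚ c).map (algebraMap ℚ ℚ_[l]) = GZ ℚ_[l] (cf c) := by
      rw [← GZ_cf ℚ c]
      exact BF.LCond.lc_GZ_map _ (cf c)
    rw [h8, hr1, zero_mul] at h7
    exact sub_eq_zero.1 h7
  set E := (ε.map (algebraMap ℚ ℚ_[l])).eval (ρ : ℚ_[l]) with hE
  set D := (s.map (algebraMap ℚ ℚ_[l])).eval (θ : ℚ_[l]) with hD
  rw [hδθ] at hgs₁
  have hD0 : D ≠ 0 := by
    intro h9
    apply hg1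
    rw [hgs₁, h9]
    ring
  refine ⟨z / (k * D * s₁ * s₂), ?_⟩
  have hz' : z * z = (e * E) * (k * D * s₁ * s₂) ^ 2 := by
    rw [← hz, hgs₁, hgs₂]
    ring
  have e1 : z / (k * D * s₁ * s₂) * (z / (k * D * s₁ * s₂)) = z * z / (k * D * s₁ * s₂) ^ 2 := by
    field_simp
  rw [e1, hz']
  field_simp

end Stoll308.NE
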