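import Pool.Agent.Work.MP_308fa9_nt.NE.Basic
import Pool.Agent.Work.MP_308fa9_nt.BG.Cube
import Pool.Agent.Work.MP_308fa9_nt.FQ.Count

set_option autoImplicit false

/-!
Few matrices `B` of a large box satisfy the local conditions, `A` fixed.
-/

namespace Stoll308.NE

open Finset Matrix BG FQ

namespace CubeA

/-- Bad in the monic setting implies bad at the root `0`, with the sign given by `κ`. -/
lemma badZ_of {n : ℕ} (hn : 4 ≤ n) (he : Even n) (l : ℕ) (_hl : l.Prime) (s κ : ℤ)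
    (A B : Matrix (Fin n) (Fin n) ℤ) (N : ℕ) (hd : A.det = (-1) ^ (n / 2) * (N : ℤ) ^ 2)
    (hN : ¬ l ∣ N) (hκ : ∀ _ : Fact l.Prime, legendreSym l κ = -s) (hs : s = 1 ∨ s = -1)
    (h : BG.Bad κ l A B) : BadZ s l A B := by
  obtain ⟨h1, h2, h3, hF, i, hi⟩ := h
  refine ⟨h1, h2, h3, hF, i, ?_⟩
  have ho : Odd (n - 1) := by
    obtain ⟨k, hk⟩ := he
    exact ⟨k - 1, by omega⟩
  have e : (-1 : ℤ) ^ (n - 1) * B.adjugate i i * A.det * κ =
      ((-1) ^ (n / 2 + 1) * B.adjugate i i) * κ * (N : ℤ) ^ 2 := by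
    rw [ho.neg_one_pow, pow_succ, hd]
    ring
  rw [e, legendreSym.mul, legendreSym.mul, hκ hF] at hi
  have h4 : (((N : ℕ) : ℤ) : ZMod l) ≠ 0 := by
    rw [Ne, ZMod.intCast_zmod_eq_zero_iff_dvd]
    intro h5
    exact hN (by exact_mod_cast h5)
  rw [legendreSym.sq_one' l h4, mul_one] at hi
  rcases hs with rfl | rfl
  · linarith
  · linarith

/-- An integer with a given character. -/
lemma exists_kappa (l : ℕ) (hl : l.Prime) (h5 : 5 ≤ l) (s : ℤ) (hs : s = 1 ∨ s = -1) :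
    ∃ κ : ℤ, ¬ (l : ℤ) ∣ κ ∧ ∀ _ : Fact l.Prime, legendreSym l κ = -s := by
  have : Fact l.Prime := ⟨hl⟩
  rcases hs with rfl | rfl
  · obtain ⟨a, ha⟩ := FiniteField.exists_nonsquare (F := ZMod l)
      (by rw [ZMod.ringChar_zmod_n]; omega)
    have ha1 : quadraticChar (ZMod l) a = -1 := quadraticChar_neg_one_iff_not_isSquare.2 ha
    have ha0 : a ≠ 0 := by
      rintro rfl
      simp at ha1
    have hc : (((a.val : ℕ) : ℤ) : ZMod l) = a := by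
      rw [Int.cast_natCast, ZMod.natCast_zmod_val]
    refine ⟨((a.val : ℕ) : ℤ), ?_, fun _ => ?_⟩
    · rw [← ZMod.intCast_zmod_eq_zero_iff_dvd, hc]
      exact ha0
    · rw [legendreSym, hc]
      exact ha1
  · refine ⟨1, ?_, fun _ => ?_⟩
    · intro h
      have h1 := Int.le_of_dvd one_pos h
      have h2 : (5 : ℤ) ≤ l := by exact_mod_cast h5
      omega
    · rw [legendreSym.at_one, neg_neg]

/-- The translation `v ↦ v + r A` modulo `l²`. -/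
def tr {n : ℕ} {l : ℕ} (hl : 0 < l) (r : ℤ) (A : Matrix (Fin n) (Fin n) ℤ)
    (v : Ix n → Fin (l ^ 2)) : Ix n → Fin (l ^ 2) := fun p =>
  ⟨((((v p : ℕ) : ℤ) + r * A p.1.1 p.1.2) % ((l ^ 2 : ℕ) : ℤ)).toNat, by
    have h0 : (0 : ℤ) < ((l ^ 2 : ℕ) : ℤ) := by exact_mod_cast pow_pos hl 2
    have h1 := Int.emod_lt_of_pos (((v p : ℕ) : ℤ) + r * A p.1.1 p.1.2) h0
    have h2 := Int.emod_nonneg (((v p : ℕ) : ℤ) + r * A p.1.1 p.1.2) h0.ne'
    omega⟩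

lemma tr_dvd {n : ℕ} {l : ℕ} (hl : 0 < l) (r : ℤ) (A : Matrix (Fin n) (Fin n) ℤ)
    (v : Ix n → Fin (l ^ 2)) (p : Ix n) :
    ((l ^ 2 : ℕ) : ℤ) ∣ ((v p : ℕ) : ℤ) - (((tr hl r A v p : ℕ) : ℤ) - r * A p.1.1 p.1.2) := by
  have h0 : (0 : ℤ) < ((l ^ 2 : ℕ) : ℤ) := by exact_mod_cast pow_pos hl 2
  have h2 := Int.emod_nonneg (((v p : ℕ) : ℤ) + r * A p.1.1 p.1.2) h0.ne'
  have h3 : ((tr hl r A v p : ℕ) : ℤ) =
      (((v p : ℕ) : ℤ) + r * A p.1.1 p.1.2) % ((l ^ 2 : ℕ) : ℤ) := by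
    simp only [tr]
    exact Int.toNat_of_nonneg h2
  have h4 := Int.emod_add_mul_ediv (((v p : ℕ) : ℤ) + r * A p.1.1 p.1.2) ((l ^ 2 : ℕ) : ℤ)
  rw [h3]
  exact ⟨(((v p : ℕ) : ℤ) + r * A p.1.1 p.1.2) / ((l ^ 2 : ℕ) : ℤ), by linear_combination -h4⟩

lemma tr_inj {n : ℕ} {l : ℕ} (hl : 0 < l) (r : ℤ) (A : Matrix (Fin n) (Fin n) ℤ) :
    Function.Injective (tr hl r A : (Ix n → Fin (l ^ 2)) → (Ix n → Fin (l ^ 2))) := by
  intro v w h
  funext p
  have h1 := tr_dvd hl r A v p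
  have h2 := tr_dvd hl r A w p
  rw [h] at h1
  have h3 : ((l ^ 2 : ℕ) : ℤ) ∣ ((v p : ℕ) : ℤ) - ((w p : ℕ) : ℤ) := by
    have h4 := dvd_sub h1 h2
    have e : ((v p : ℕ) : ℤ) - (((tr hl r A w p : ℕ) : ℤ) - r * A p.1.1 p.1.2) -
        (((w p : ℕ) : ℤ) - (((tr hl r A w p : ℕ) : ℤ) - r * A p.1.1 p.1.2)) =
        ((v p : ℕ) : ℤ) - ((w p : ℕ) : ℤ) := by ring
    rwa [e] at h4
  have h5 : ((v p : ℕ) : ℤ) ≡ ((w p : ℕ) : ℤ) [ZMOD ((l ^ 2 : ℕ) : ℤ)] :=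
    (Int.modEq_iff_dvd.2 (by rw [← neg_sub]; exact (dvd_neg.2 h3)))
  have h6 := Int.natCast_modEq_iff.1 h5
  refine Fin.ext ?_
  unfold Nat.ModEq at h6
  rwa [Nat.mod_eq_of_lt (v p).2, Nat.mod_eq_of_lt (w p).2] at h6

/-- The entries of `symM v - r A`. -/
lemma symM_sub {n : ℕ} (A : Matrix (Fin n) (Fin n) ℤ) (hA : A.IsSymm) (r : ℤ) (v : Ix n → ℤ)
    (i j : Fin n) : (symM v - r • A) i j =
      v ⟨(min i j, max i j), min_le_max⟩ - r * A (min i j) (max i j) := by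
  rw [Matrix.sub_apply, Matrix.smul_apply, smul_eq_mul]
  have h1 : A i j = A (min i j) (max i j) := by
    rcases le_total i j with h | h
    · rw [min_eq_left h, max_eq_right h]
    · rw [min_eq_right h, max_eq_left h]
      exact hA.apply j i
  rw [h1]
  rfl

open Classical in
/-- The number of bad classes modulo `l²`, `A` fixed. -/
lemma bad_count {n : ℕ} (hn : 4 ≤ n) (he : Even n) (A : Matrix (Fin n) (Fin n) ℤ)
    (hA : A.IsSymm) (N : ℕ) (hd : A.det = (-1) ^ (n / 2) * (N : ℤ) ^ 2)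
    (l : ℕ) (hl : l.Prime) (h5 : 5 ≤ l) (hN : ¬ l ∣ N) (s : ℤ) (hs : s = 1 ∨ s = -1) (r : ℤ) :
    (l : ℝ) ^ (n * (n + 1) - 1) / 2 ^ (n + 3) ≤ ((univ.filter fun v : Ix n → Fin (l ^ 2) =>
      BadZ s l A (symM (fun p => ((v p : ℕ) : ℤ)) - r • A)).card : ℝ) := by
  obtain ⟨κ, hκ, hκs⟩ := exists_kappa l hl h5 s hs
  have hd' : ¬ (l : ℤ) ∣ A.det := by
    rw [hd, (isUnit_one.neg.pow _).dvd_mul_left]
    intro h
    exact hN (by exact_mod_cast Int.Prime.dvd_pow' hl h)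
  refine (BG.bad_count (by omega) κ A hA l hl h5 hκ hd').trans (Nat.cast_le.2 ?_)
  refine Finset.card_le_card_of_injOn (tr hl.pos r A) ?_ (tr_inj hl.pos r A).injOn
  intro v hv
  have hv' := ((@Finset.mem_filter _ _ (_) _ _).1 (Finset.mem_coe.1 hv)).2
  refine Finset.mem_coe.2 ((@Finset.mem_filter _ _ (_) _ _).2 ⟨Finset.mem_univ _, ?_⟩)
  refine (badZ_of_dvd s l _ _ _ _ (fun i j => ⟨0, by rw [mul_zero, sub_self]⟩) ?_).1
    (badZ_of hn he l hl s κ A _ N hd hN hκs hs hv')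
  intro i j
  rw [symM_sub A hA]
  exact tr_dvd hl.pos r A v ⟨(min i j, max i j), min_le_max⟩

open Classical in
lemma dense_sub {S : Set ℕ} (hS : FQ.Dense S) (N : ℕ) (hN : 0 < N) (T : ℝ) :
    ∃ z : ℕ, T ≤ ∑ l ∈ (Icc 5 z).filter (fun l => (l.Prime ∧ l ∈ S) ∧ ¬ l ∣ N), (1 : ℝ) / l := by
  obtain ⟨z, hz⟩ := hS (T + ∑ l ∈ N.divisors, (1 : ℝ) / l)
  refine ⟨z, ?_⟩
  have h1 : ∑ l ∈ (Icc 5 z).filter (fun l => l.Prime ∧ l ∈ S), (1 : ℝ) / l ≤
      ∑ l ∈ (Icc 5 z).filter (fun l => (l.Prime ∧ l ∈ S) ∧ ¬ l ∣ N) ∪ N.divisors,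
        (1 : ℝ) / l := by
    refine Finset.sum_le_sum_of_subset_of_nonneg ?_ (fun i _ _ => by positivity)
    intro l hl
    obtain ⟨hl1, hl2⟩ := (@Finset.mem_filter _ _ (_) _ _).1 hl
    by_cases h : l ∣ N
    · exact Finset.mem_union_right _ (Nat.mem_divisors.2 ⟨h, hN.ne'⟩)
    · exact Finset.mem_union_left _ ((@Finset.mem_filter _ _ (_) _ _).2 ⟨hl1, hl2, h⟩)
  have h2 := Finset.sum_union_inter
    (s₁ := (Icc 5 z).filter (fun l => (l.Prime ∧ l ∈ S) ∧ ¬ l ∣ N)) (s₂ := N.divisors)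
    (f := fun l : ℕ => (1 : ℝ) / l)
  have h3 : 0 ≤ ∑ l ∈ (Icc 5 z).filter (fun l => (l.Prime ∧ l ∈ S) ∧ ¬ l ∣ N) ∩ N.divisors,
      (1 : ℝ) / l := Finset.sum_nonneg fun i _ => by positivity
  linarith

end CubeA

open CubeA

open Classical in
theorem cube_small {n : ℕ} (hn : 4 ≤ n) (he : Even n) (A : Matrix (Fin n) (Fin n) ℤ)
    (hA : A.IsSymm) (N : ℕ) (hN : 0 < N) (hd : A.det = (-1) ^ (n / 2) * (N : ℤ) ^ 2)
    (S : Set ℕ) (hS : FQ.Dense S) (r s : ℕ → ℤ) (hs : ∀ l, s l = 1 ∨ s l = -1) (ε : ℝ)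
    (hε : 0 < ε) :
    ∃ D₀ : ℝ, ∀ D : ℝ, D₀ ≤ D →
      (((Fintype.piFinset fun _ : Ix n => Icc (-⌊D⌋) ⌊D⌋).filter
        fun v => ∀ l : ℕ, l.Prime → 5 ≤ l → l ∈ S →
          ¬ BadZ (s l) l A (symM v - r l • A)).card : ℝ) ≤ ε * D ^ (n * (n + 1) / 2) := by
  set k : ℕ := n * (n + 1) / 2 with hk
  have hk2 : n * (n + 1) = 2 * k := by
    rw [hk, Nat.mul_div_cancel' (Nat.even_mul_succ_self n).two_dvd]
  have hk1 : 1 ≤ n * (n + 1) := by nlinarith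
  set B : ℝ := 2 ^ (n + 3) with hB
  have hB0 : 0 < B := by positivity
  have hB1 : 1 ≤ B := one_le_pow₀ (by norm_num)
  obtain ⟨z, hz⟩ := dense_sub hS N hN (B * Real.log (3 ^ k / ε))
  set F := (Icc 5 z).filter (fun l => (l.Prime ∧ l ∈ S) ∧ ¬ l ∣ N) with hF
  have hFm : ∀ l ∈ F, 5 ≤ l ∧ l.Prime ∧ l ∈ S ∧ ¬ l ∣ N := by
    intro l hl
    obtain ⟨h1, h2, h3⟩ := (@Finset.mem_filter _ _ (_) _ _).1 hl
    exact ⟨(mem_Icc.1 h1).1, h2.1, h2.2, h3⟩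
  set M : ℝ := ∏ l ∈ F, ((l ^ 2 : ℕ) : ℝ) with hM
  have hM0 : 0 ≤ M := Finset.prod_nonneg fun l _ => by positivity
  refine ⟨M + 1, fun D hD => ?_⟩
  have hD0 : 0 ≤ D := by linarith
  have hfl : 0 ≤ ⌊D⌋ := Int.floor_nonneg.2 hD0
  set L : ℕ := (2 * ⌊D⌋ + 1).toNat with hL
  have hLz : (L : ℤ) = 2 * ⌊D⌋ + 1 := Int.toNat_of_nonneg (by omega)
  have hLR : (L : ℝ) ≤ 2 * D + 1 := by
    have h1 : (L : ℝ) = 2 * (⌊D⌋ : ℝ) + 1 := by exact_mod_cast hLz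
    have h2 := Int.floor_le D
    linarith
  have hpow : ∀ l : ℕ, 5 ≤ l → 1 / (B * (l : ℝ)) ≤ 1 := by
    intro l h5
    have h6 : (5 : ℝ) ≤ l := by exact_mod_cast h5
    rw [div_le_one (by positivity)]
    nlinarith
  have hbox := cube_box (ι := Ix n) F (fun l => l ^ 2)
    (fun l hl => pow_pos (hFm l hl).2.1.pos 2)
    (fun l hl l' hl' hne => Nat.Coprime.pow 2 2
      ((Nat.coprime_primes (hFm l hl).2.1 (hFm l' hl').2.1).2 hne))
    (fun l v => BadZ (s l) l A (symM v - r l • A))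
    (fun l _ t t' h => badZ_of_dvd (s l) l _ _ _ _
      (fun i j => ⟨0, by rw [mul_zero, sub_self]⟩) (fun i j => by
        rw [symM_sub A hA, symM_sub A hA]
        have e : ∀ a b c : ℤ, a - c - (b - c) = a - b := fun a b c => by ring
        rw [e]
        exact h _))
    (fun l => 1 / (B * (l : ℝ)))
    (fun l hl => hpow l (hFm l hl).1)
    (fun l hl => by
      have h1 := CubeA.bad_count hn he A hA N hd l (hFm l hl).2.1 (hFm l hl).1
        (hFm l hl).2.2.2 (s l) (hs l) (r l)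
      have hl0 : (l : ℝ) ≠ 0 := by exact_mod_cast (hFm l hl).2.1.ne_zero
      have h2 : (1 / (B * (l : ℝ))) * (((l ^ 2 : ℕ) : ℝ)) ^ Fintype.card (Ix n) =
          (l : ℝ) ^ (n * (n + 1) - 1) / 2 ^ (n + 3) := by
        rw [cube_ix n, ← hk]
        push_cast
        rw [← pow_mul, ← hk2]
        obtain ⟨q, hq⟩ : ∃ q, n * (n + 1) = q + 1 := ⟨n * (n + 1) - 1, by omega⟩
        rw [hq, Nat.add_sub_cancel, ← hB, pow_succ]
        field_simp
      rw [h2]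
      refine h1.trans (Nat.cast_le.2 (Finset.card_le_card ?_))
      intro t ht
      exact (@Finset.mem_filter _ _ (_) _ _).2 ((@Finset.mem_filter _ _ (_) _ _).1 ht))
    (fun _ => -⌊D⌋) (fun _ => L)
  refine le_trans (Nat.cast_le.2 (Finset.card_le_card ?_)) (hbox.trans ?_)
  · intro t ht
    have ht1 := (@Finset.mem_filter _ _ (_) _ _).1 ht
    refine (@Finset.mem_filter _ _ (_) _ _).2 ⟨Fintype.mem_piFinset.2 fun i => ?_, fun l hl => ?_⟩
    · have := Fintype.mem_piFinset.1 ht1.1 i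
      rw [mem_Icc] at this
      rw [mem_Ico, hLz]
      omega
    · exact ht1.2 l (hFm l hl).2.1 (hFm l hl).1 (hFm l hl).2.2.1
  have h1 : (∏ _i : Ix n, ((L : ℝ) + M)) ≤ (3 * D) ^ k := by
    rw [Finset.prod_const, Finset.card_univ, cube_ix n]
    exact pow_le_pow_left₀ (by positivity) (by linarith) _
  have h2 : ∏ l ∈ F, (1 - 1 / (B * (l : ℝ))) ≤ ε / 3 ^ k := by
    calc ∏ l ∈ F, (1 - 1 / (B * (l : ℝ))) ≤ ∏ l ∈ F, Real.exp (-(1 / (B * (l : ℝ)))) := by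
          refine Finset.prod_le_prod (fun l hl => ?_) (fun l _ => ?_)
          · have := hpow l (hFm l hl).1
            linarith
          · have := Real.add_one_le_exp (-(1 / (B * (l : ℝ))))
            linarith
      _ = Real.exp (-((∑ l ∈ F, (1 : ℝ) / l) / B)) := by
          rw [← Real.exp_sum]
          congr 1
          rw [Finset.sum_neg_distrib, Finset.sum_div]
          congr 1
          refine Finset.sum_congr rfl fun l _ => ?_
          rw [div_div, mul_comm]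
      _ ≤ Real.exp (-(Real.log (3 ^ k / ε))) := by
          apply Real.exp_le_exp.2
          rw [neg_le_neg_iff, le_div_iff₀ hB0, mul_comm]
          exact hz
      _ = ε / 3 ^ k := by
          rw [Real.exp_neg, Real.exp_log (by positivity), inv_div]
  have h3 : 0 ≤ ∏ l ∈ F, (1 - 1 / (B * (l : ℝ))) :=
    Finset.prod_nonneg fun l hl => by
      have := hpow l (hFm l hl).1
      linarith
  calc (∏ _i : Ix n, ((L : ℝ) + M)) * ∏ l ∈ F, (1 - 1 / (B * (l : ℝ)))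
      ≤ (3 * D) ^ k * (ε / 3 ^ k) := mul_le_mul h1 h2 h3 (by positivity)
    _ = ε * D ^ k := by
        rw [mul_pow]
        field_simp

end Stoll308.NE
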