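import Pool.Agent.Work.MP_308fa9_nt.NE.CuspCell
import Pool.Agent.Work.MP_308fa9_nt.BG.Cusp

set_option autoImplicit false

/-!
Few polynomials come from reduced pairs with a short vector which are not distinguished.
-/

namespace Stoll308.NE

open Polynomial Finset Matrix BG

theorem cusp (n : ℕ) (hn : 4 ≤ n) (he : Even n) (K : ℝ) (hK : 1 ≤ K) (ε : ℝ) (hε : 0 < ε) :
    ∃ τ₀ M₀ : ℝ, 0 < τ₀ ∧ ∀ M : ℝ, M₀ ≤ M → ∀ T : Finset (Fin n → ℤ),
      (∀ c ∈ T, Irreducible (FZ ℚ c) ∧ ∃ (A B : Matrix (Fin n) (Fin n) ℤ) (t : Fin n → ℝ),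
        RPair K M c A B t ∧ ¬ Dist A B ∧ ∃ i, t i ≤ τ₀) →
      (T.card : ℝ) ≤ ε * M ^ (n * (n + 1) / 2) := by
  classical
  obtain ⟨C, Q, hC, hcell⟩ := NE.cell n hn he K hK
  obtain ⟨R, M₀, hM₀1, hcells⟩ := BG.Cusp.cells (by omega : 0 < n) Q hC hε
  refine ⟨(2 : ℝ) ^ (-(R : ℤ)), M₀, by positivity, fun M hM T hT => ?_⟩
  have hM1 : 1 ≤ M := hM₀1.trans hM
  have hirr : ∀ c ∈ T, Irreducible (FZ ℚ c) := fun c hc => (hT c hc).1
  have hex : ∀ c ∈ T, ∃ (A B : Matrix (Fin n) (Fin n) ℤ) (t : Fin n → ℝ),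
      RPair K M c A B t ∧ ¬ Dist A B ∧ ∃ i, t i ≤ (2 : ℝ) ^ (-(R : ℤ)) := fun c hc => (hT c hc).2
  choose! A B t hR hD hi using hex
  set f : (Fin n → ℤ) → Fin n → ℤ := fun c i => Int.log 2 (t c i) with hf
  have hbox : ∀ c ∈ T, ∀ i, (2 : ℝ) ^ (f c i) ≤ t c i ∧ t c i < (2 : ℝ) ^ (f c i + 1) := by
    intro c hc i
    have hpos := (hR c hc).pos i
    have h1 := Int.zpow_log_le_self (b := 2) (by norm_num) hpos
    have h2 := Int.lt_zpow_succ_log_self (b := 2) (by norm_num) (t c i)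
    exact ⟨by exact_mod_cast h1, by exact_mod_cast h2⟩
  have hc1 : ∀ c ∈ T, ∀ S ⊆ T, S.Nonempty → (∀ c' ∈ S, f c' = f c) →
      (∀ i, f c ⟨0, by omega⟩ ≤ f c i) ∧ (∀ i, f c i ≤ Q * (1 + |f c ⟨0, by omega⟩|)) ∧
      (2 : ℝ) ^ (-f c ⟨0, by omega⟩) ≤ C * M ^ Q ∧
      (S.card : ℝ) ≤ C * M ^ (n * (n + 1) / 2) *
        √(max ((2 : ℝ) ^ (f c ⟨0, by omega⟩)) (1 / M)) := by
    intro c hc S hS hSne hSf
    refine hcell M (f c) hM1 S hSne ?_
    intro c' hc'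
    refine ⟨hirr c' (hS hc'), A c', B c', t c', hR c' (hS hc'), hD c' (hS hc'), fun i => ?_⟩
    have := hbox c' (hS hc') i
    rwa [hSf c' hc'] at this
  have hself : ∀ c ∈ T, _ := fun c hc => hc1 c hc {c} (Finset.singleton_subset_iff.mpr hc)
    (Finset.singleton_nonempty c) (fun c' hc' => by rw [Finset.mem_singleton.mp hc'])
  refine hcells M hM T f (M ^ (n * (n + 1) / 2)) (by positivity) ?_
    (fun c hc => (hself c hc).1) (fun c hc => (hself c hc).2.1)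
    (fun c hc => (hself c hc).2.2.1) ?_
  · intro c hc
    obtain ⟨i, hi1⟩ := hi c hc
    have h1 := (hbox c hc i).1.trans hi1
    have h2 : f c i ≤ -(R : ℤ) := (zpow_le_zpow_iff_right₀ (by norm_num : (1 : ℝ) < 2)).mp h1
    exact ((hself c hc).1 i).trans h2
  · intro c hc S hS hSf
    rcases S.eq_empty_or_nonempty with rfl | hne
    · rw [Finset.card_empty]
      push_cast
      positivity
    · exact (hc1 c hc S hS hne hSf).2.2.2

end Stoll308.NE
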