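import Pool.Agent.Work.MP_308fa9_nt.BG.Basic
import Pool.Agent.Work.MP_308fa9_nt.BF.Defs

set_option autoImplicit false

/-!
The curves `y² = f(t)`, `w² = q(t)`, `f = T^n + c₀ T^(n-1) + ... + c_(n-1)` monic, `q` fixed, `n` and
the degree of `q` even: definitions of the statement.
-/

namespace Stoll308.NE

open Polynomial Finset Stoll308.BG Stoll308.BF

/-- There is a point `(t, y, w)`, `y` and `w` not zero, of the curve `y² = f(t)`, `w² = q(t)` over the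
field `K ⊇ ℚ` such that `t - θ` is `u δ` times a square in `K[θ] = K[T]/(f)` and `t - ρ` is `u ε` times
a square in `K[ρ] = K[T]/(q)`, for a constant `u` of `K`. -/
def LocImage {n m : ℕ} (c : Fin n → ℤ) (b : Fin (m + 1) → ℤ) (δ ε : ℚ[X]) (K : Type*) [Field K]
    [Algebra ℚ K] : Prop :=
  ∃ (t y w u : K) (s s' : K[X]), y ≠ 0 ∧ w ≠ 0 ∧ u ≠ 0 ∧
    y ^ 2 = (FZ K c).eval t ∧ w ^ 2 = (GZ K b).eval t ∧
    FZ K c ∣ (C t - X) - C u * δ.map (algebraMap ℚ K) * s ^ 2 ∧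
    GZ K b ∣ (C t - X) - C u * ε.map (algebraMap ℚ K) * s' ^ 2

/-- The classes of `δ ∈ ℚ[θ]ˣ` and `ε ∈ ℚ[ρ]ˣ` are in the Selmer set of the curve: they are, up to a
common factor, the classes of a point over `ℚ_p`, for all odd `p`. -/
def InSel {n m : ℕ} (c : Fin n → ℤ) (b : Fin (m + 1) → ℤ) (δ ε : ℚ[X]) : Prop :=
  IsCoprime δ (FZ ℚ c) ∧ IsCoprime ε (GZ ℚ b) ∧
    ∀ (p : ℕ) [Fact p.Prime], p ≠ 2 → LocImage c b δ ε ℚ_[p]

/-- `δ` and `ε` are squares up to a common constant: the class of the points at infinity. -/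
def TrivPair {n m : ℕ} (c : Fin n → ℤ) (b : Fin (m + 1) → ℤ) (δ ε : ℚ[X]) : Prop :=
  ∃ (e : ℚ) (s s' : ℚ[X]), e ≠ 0 ∧ FZ ℚ c ∣ δ - C e * s ^ 2 ∧ GZ ℚ b ∣ ε - C e * s' ^ 2

/-- The curve `y² = f(t)`, `w² = q(t)` is smooth, its Selmer set contains no other class than the one
of the points at infinity, and there is no rational point with `t ∈ Z`, not even on `y² = f(t)`. -/
def Nice {n m : ℕ} (b : Fin (m + 1) → ℤ) (Z : Finset ℚ) (c : Fin n → ℤ) : Prop :=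
  Squarefree (FZ ℚ c * GZ ℚ b) ∧ (∀ δ ε : ℚ[X], InSel c b δ ε → TrivPair c b δ ε) ∧
    ∀ z ∈ Z, ¬ IsSquare ((FZ ℚ c).eval z)

end Stoll308.NE
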