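import Pool.Agent.Work.MP_308fa9_nt.NE.Basic
import Pool.Agent.Work.MP_308fa9_nt.BG.DetCls

set_option autoImplicit false

/-!
The class of a distinguished pair is constant.
-/

namespace Stoll308.NE

open Polynomial Finset Matrix BG

namespace DistC

variable {K : Type*} [Field K]

/-- The rows of a matrix, `n = 2 m`: `Y` is the span of the first `m` rows of `G`, isotropic for `H`,
and `X Cm` is orthogonal to `Y`, `X` the span of the first `m - 1` rows. -/
lemma exists_row {n m : ℕ} (hn : n = 2 * m) (hm : 2 ≤ m) (G H Cm : Matrix (Fin n) (Fin n) K)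
    (hG : G.det ≠ 0) (hH : H.det ≠ 0)
    (h1 : ∀ i j : Fin n, (i : ℕ) < m → (j : ℕ) < m → (G * H * Gᵀ) i j = 0)
    (h2 : ∀ i j : Fin n, (i : ℕ) + 1 < m → (j : ℕ) < m → (G * (Cm * H) * Gᵀ) i j = 0) :
    ∃ u : Fin n → K, u ≠ 0 ∧
      (∀ i < m, ∀ j < m, (u ᵥ* Cm ^ i) ᵥ* H ⬝ᵥ (u ᵥ* Cm ^ j) = 0) := by
  classical
  have hA : (G * H * Gᵀ).det ≠ 0 := by
    rw [det_mul, det_mul, det_transpose]
    exact mul_ne_zero (mul_ne_zero hG hH) hG
  have hGi : G⁻¹ * G = 1 := nonsing_inv_mul G (isUnit_iff_ne_zero.2 hG)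
  have hGi' : G * G⁻¹ = 1 := mul_nonsing_inv G (isUnit_iff_ne_zero.2 hG)
  set D : Matrix (Fin n) (Fin n) K := G * Cm * G⁻¹ with hD
  set A := G * H * Gᵀ with hAd
  have hDA : D * A = G * (Cm * H) * Gᵀ := by
    rw [hD, hAd]
    calc G * Cm * G⁻¹ * (G * H * Gᵀ) = G * Cm * (G⁻¹ * G) * H * Gᵀ := by
          simp only [Matrix.mul_assoc]
      _ = _ := by rw [hGi, Matrix.mul_one]; simp only [Matrix.mul_assoc]
  set hp : (Fin n → K) →ₗ[K] (Fin (m + 1) → K) :=
    LinearMap.funLeft K K (fun j : Fin (m + 1) => (⟨m - 1 + j, by omega⟩ : Fin n)) with hhp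
  set yp : (Fin n → K) →ₗ[K] (Fin m → K) :=
    LinearMap.funLeft K K (fun j : Fin m => (⟨m + j, by omega⟩ : Fin n)) with hyp
  set gp : (Fin n → K) →ₗ[K] (Fin m → K) :=
    (LinearMap.funLeft K K (fun j : Fin m => (⟨j, by omega⟩ : Fin n))) ∘ₗ A.vecMulLinear with hgp
  set W := LinearMap.ker hp with hW
  set Y := LinearMap.ker yp with hY
  set P := LinearMap.ker gp with hP
  have memW : ∀ x, x ∈ W ↔ ∀ j : Fin n, m - 1 ≤ (j : ℕ) → x j = 0 := by
    intro x
    rw [hW, LinearMap.mem_ker]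
    constructor
    · intro h j hj
      have := congrFun h ⟨(j : ℕ) - (m - 1), by omega⟩
      simp only [hhp, LinearMap.funLeft_apply, Pi.zero_apply] at this
      rw [← this]
      congr 1
      apply Fin.ext
      simp only
      omega
    · intro h
      funext j
      exact h _ (by simp)
  have memY : ∀ x, x ∈ Y ↔ ∀ j : Fin n, m ≤ (j : ℕ) → x j = 0 := by
    intro x
    rw [hY, LinearMap.mem_ker]
    constructor
    · intro h j hj
      have := congrFun h ⟨(j : ℕ) - m, by omega⟩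
      simp only [hyp, LinearMap.funLeft_apply, Pi.zero_apply] at this
      rw [← this]
      congr 1
      apply Fin.ext
      simp only
      omega
    · intro h
      funext j
      exact h _ (by simp)
  have memP : ∀ x, x ∈ P ↔ ∀ j : Fin n, (j : ℕ) < m → (x ᵥ* A) j = 0 := by
    intro x
    rw [hP, LinearMap.mem_ker]
    constructor
    · intro h j hj
      exact congrFun h ⟨j, hj⟩
    · intro h
      funext j
      exact h _ (by simp)
  have hYP : Y ≤ P := by
    intro x hx
    rw [memP]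
    rw [memY] at hx
    intro j hj
    rw [vecMul, dotProduct]
    apply Finset.sum_eq_zero
    intro i _
    by_cases hi : (i : ℕ) < m
    · rw [h1 i j hi hj, mul_zero]
    · rw [hx i (by omega), zero_mul]
  have hWY : W ≤ Y := by
    intro x hx
    rw [memY]
    rw [memW] at hx
    intro j hj
    exact hx j (by omega)
  have hT : ∀ w ∈ W, D.vecMulLinear w ∈ P := by
    intro x hx
    rw [memP]
    rw [memW] at hx
    intro j hj
    have h3 : (D.vecMulLinear x) ᵥ* A = x ᵥ* (D * A) := by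
      rw [vecMulLinear_apply, vecMul_vecMul]
    rw [h3, hDA, vecMul, dotProduct]
    apply Finset.sum_eq_zero
    intro i _
    by_cases hi : (i : ℕ) + 1 < m
    · rw [h2 i j hi hj, mul_zero]
    · rw [hx i (by omega), zero_mul]
  have hfW : Module.finrank K W = m - 1 := by
    have h3 := LinearMap.finrank_range_add_finrank_ker hp
    have h4 : LinearMap.range hp = ⊤ := by
      apply LinearMap.range_eq_top.2
      apply LinearMap.funLeft_surjective_of_injective
      intro a b hab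
      have := congrArg Fin.val hab
      simp only at this
      exact Fin.ext (by omega)
    rw [h4, finrank_top, Module.finrank_fin_fun, Module.finrank_fin_fun] at h3
    rw [hW]
    omega
  have hfY : Module.finrank K Y = m := by
    have h3 := LinearMap.finrank_range_add_finrank_ker yp
    have h4 : LinearMap.range yp = ⊤ := by
      apply LinearMap.range_eq_top.2
      apply LinearMap.funLeft_surjective_of_injective
      intro a b hab
      have := congrArg Fin.val hab
      simp only at this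
      exact Fin.ext (by omega)
    rw [h4, finrank_top, Module.finrank_fin_fun, Module.finrank_fin_fun] at h3
    rw [hY]
    omega
  have hfP : Module.finrank K P = m := by
    have h3 := LinearMap.finrank_range_add_finrank_ker gp
    have h4 : LinearMap.range gp = ⊤ := by
      apply LinearMap.range_eq_top.2
      rw [hgp, LinearMap.coe_comp]
      apply Function.Surjective.comp
      · apply LinearMap.funLeft_surjective_of_injective
        intro a b hab
        have := congrArg Fin.val hab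
        simp only at this
        exact Fin.ext (by omega)
      · intro y
        refine ⟨y ᵥ* A⁻¹, ?_⟩
        rw [vecMulLinear_apply, vecMul_vecMul, nonsing_inv_mul A (isUnit_iff_ne_zero.2 hA),
          vecMul_one]
    rw [h4, finrank_top, Module.finrank_fin_fun, Module.finrank_fin_fun] at h3
    rw [hP]
    omega
  have hPY : Y = P := Submodule.eq_of_le_of_finrank_eq hYP (by rw [hfY, hfP])
  obtain ⟨x, hxW, hx0, hx⟩ := MidX.exists_vec (m := m - 1) (by omega) W P (hWY.trans hYP) hfW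
    (by rw [hfP]; omega) D.vecMulLinear hT
  have hpow : ∀ j, (D.vecMulLinear ^ j) x = x ᵥ* D ^ j := by
    intro j
    induction j with
    | zero => simp
    | succ j ih =>
      rw [pow_succ', pow_succ, ← vecMul_vecMul, ← ih]
      rfl
  have hDpow : ∀ j, D ^ j * G = G * Cm ^ j := by
    intro j
    induction j with
    | zero => simp
    | succ j ih =>
      rw [pow_succ', Matrix.mul_assoc, ih, pow_succ', hD]
      calc G * Cm * G⁻¹ * (G * Cm ^ j) = G * Cm * (G⁻¹ * G) * Cm ^ j := by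
            simp only [Matrix.mul_assoc]
        _ = _ := by rw [hGi, Matrix.mul_one]; simp only [Matrix.mul_assoc]
  have hiso : ∀ (a b : Fin n → K), a ∈ P → b ∈ P → (b ᵥ* G) ᵥ* H ⬝ᵥ (a ᵥ* G) = 0 := by
    intro a b ha hb
    have h3 : (b ᵥ* G) ᵥ* H ⬝ᵥ (a ᵥ* G) = (b ᵥ* A) ⬝ᵥ a := by
      rw [hAd, ← vecMul_vecMul, ← vecMul_vecMul, ← mulVec_transpose G a, dotProduct_mulVec]
    rw [h3, dotProduct]
    rw [← hPY, memY] at ha
    rw [memP] at hb
    apply Finset.sum_eq_zero
    intro i _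
    by_cases hi : (i : ℕ) < m
    · rw [hb i hi, zero_mul]
    · rw [ha i (by omega), mul_zero]
  have hrow : ∀ j, (x ᵥ* G) ᵥ* Cm ^ j = (x ᵥ* D ^ j) ᵥ* G := by
    intro j
    rw [vecMul_vecMul, vecMul_vecMul, hDpow]
  have hmem : ∀ j < m, x ᵥ* D ^ j ∈ P := by
    intro j hj
    rw [← hpow]
    by_cases hj1 : j < m - 1
    · exact hYP (hWY (hx j hj1))
    · obtain ⟨k, rfl⟩ : ∃ k, j = k + 1 := ⟨j - 1, by omega⟩
      rw [pow_succ']
      exact hT _ (hx k (by omega))
  refine ⟨x ᵥ* G, ?_, ?_⟩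
  · intro h0
    apply hx0
    have : (x ᵥ* G) ᵥ* G⁻¹ = x := by
      rw [vecMul_vecMul, hGi', vecMul_one]
    rw [← this, h0, zero_vecMul]
  · intro i hi j hj
    rw [hrow, hrow]
    exact hiso _ _ (hmem j hj) (hmem i hi)

end DistC

theorem const_of_dist {n : ℕ} (hn : 4 ≤ n) (he : Even n) (c : Fin n → ℤ)
    (hF : Irreducible (FZ ℚ c)) (δ : ℚ[X]) (hδ : IsCoprime δ (FZ ℚ c))
    (A B : Matrix (Fin n) (Fin n) ℤ) (h : BG.IsPair c δ A B) (hd : Dist A B) :
    ∃ (e : ℚ) (s : ℚ[X]), e ≠ 0 ∧ IsCoprime s (FZ ℚ c) ∧ FZ ℚ c ∣ δ - C e * s ^ 2 := by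
  obtain ⟨m, hm⟩ := he
  have hm' : n = 2 * m := by omega
  have hm2 : n / 2 = m := by omega
  have hm1 : 2 ≤ m := by omega
  obtain ⟨hd1, hd2⟩ := hd
  rw [hm2] at hd1 hd2
  obtain ⟨G, hG, hA, hB⟩ := h
  set F := FZ ℚ c with hFdef
  have hmon : F.Monic := FZ_monic c
  have hdeg : F.natDegree = n := FZ_natDegree c
  set H := Hank n F δ with hH
  have hH0 : H.det ≠ 0 := hank_det_ne_zero F δ hmon hdeg hδ
  obtain ⟨u, hu0, hu1⟩ := DistC.exists_row hm' hm1 G H (mulMat n F X) hG hH0 (by
      intro i j hi hj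
      rw [← hA, map_apply, hd1 i j hi hj, Int.cast_zero]) (by
      intro i j hi hj
      rw [← MidX.hank_X F δ hmon hdeg, ← hB, map_apply, hd2 i j hi hj, Int.cast_zero])
  set w := MidX.pv u with hw
  have hpow : ∀ k, F ∣ X ^ k * w - MidX.pv (u ᵥ* (mulMat n F X) ^ k) := by
    intro k
    induction k with
    | zero => simp [hw]
    | succ k ih =>
      have h1 := MidX.pv_vecMul F X hmon hdeg (u ᵥ* (mulMat n F X) ^ k)
      rw [vecMul_vecMul, ← pow_succ] at h1
      have h2 : X ^ (k + 1) * w - MidX.pv (u ᵥ* (mulMat n F X) ^ (k + 1)) =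
          X * (X ^ k * w - MidX.pv (u ᵥ* (mulMat n F X) ^ k)) +
          (X * MidX.pv (u ᵥ* (mulMat n F X) ^ k) - MidX.pv (u ᵥ* (mulMat n F X) ^ (k + 1))) := by
        ring
      rw [h2]
      exact dvd_add (Dvd.dvd.mul_left ih _) h1
  have hform : ∀ i j, (u ᵥ* (mulMat n F X) ^ i) ᵥ* H ⬝ᵥ (u ᵥ* (mulMat n F X) ^ j) =
      MidX.tau n F (δ * w ^ 2 * X ^ (i + j)) := by
    intro i j
    rw [MidX.hank_form]
    apply MidX.tau_congr F hmon
    obtain ⟨q1, hq1⟩ := hpow i
    obtain ⟨q2, hq2⟩ := hpow j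
    refine ⟨-(δ * (q1 * MidX.pv (u ᵥ* (mulMat n F X) ^ j) + X ^ i * w * q2)), ?_⟩
    rw [pow_add]
    linear_combination (-(δ * MidX.pv (u ᵥ* (mulMat n F X) ^ j))) * hq1 -
      (δ * X ^ i * w) * hq2
  obtain ⟨r, hr⟩ := MidX.const_of_tau F (δ * w ^ 2) hmon hdeg (by omega) (by
    intro k hk
    have h1 := hu1 (k / 2) (by omega) (k - k / 2) (by omega)
    rw [hform] at h1
    have h2 : k / 2 + (k - k / 2) = k := by omega
    rwa [h2] at h1)
  -- `w` is invertible
  have hw0 : ¬ F ∣ w := by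
    intro hdvd
    apply hu0
    have h1 : w = 0 := by
      apply eq_zero_of_dvd_of_degree_lt hdvd
      rw [degree_eq_natDegree hmon.ne_zero, hdeg]
      exact MidX.pv_degree_lt u
    funext k
    rw [← MidX.pv_coeff u k, ← hw, h1]
    simp
  have hcop : IsCoprime w F := ((hF.coprime_iff_not_dvd.2 hw0)).symm
  have hr0 : r ≠ 0 := by
    rintro rfl
    rw [C_0, sub_zero] at hr
    have h1 : IsCoprime F (δ * w ^ 2) := (hδ.mul_left hcop.pow_left).symm
    exact hF.not_isUnit (h1.isUnit_of_dvd' dvd_rfl hr)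
  obtain ⟨a, b, hab⟩ := hcop
  refine ⟨r, a, hr0, ⟨w, b, by rw [mul_comm w a]; exact hab⟩, ?_⟩
  obtain ⟨q, hq⟩ := hr
  refine ⟨a ^ 2 * q + δ * b * (1 + a * w), ?_⟩
  linear_combination a ^ 2 * hq - δ * (1 + a * w) * hab

end Stoll308.NE
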