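import Pool.Agent.Work.MP_308fa9_nt.NE.Basic
import Pool.Agent.Work.MP_308fa9_nt.BG.Expo

set_option autoImplicit false

/-!
The inequality for the cells of the cusp, `n` even, without the condition on `A`.
-/

namespace Stoll308.NE

open Polynomial Finset Matrix BG

namespace Expo

/-- the inequality for one index -/
lemma per {n : ℕ} (hn : 4 ≤ n) (he : Even n) {κ L : ℝ} (hκ : 0 ≤ κ) (hL : 0 ≤ L) (Y : ℕ → ℝ)
    (hmono : ∀ i j, i ≤ j → j < n → Y j ≤ Y i)
    (h2 : ∀ i < n, -(2 * κ) ≤ Y i + Y (n - 1 - i))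
    (h3 : ∀ i j, i + j = n - 2 → Y i + Y j ≤ κ + L)
    (h5 : ∀ i j, i + 2 = n / 2 → j + 1 = n / 2 → Y i + Y j ≤ κ + L) (i : ℕ) (hi : i < n) :
    max 0 (2 * Y i - L) + (if i = 0 then min L (Y i) / 2 else 0) ≤
      ∑ j ∈ Ico (i + 1) n, min L (max 0 (Y i + Y j)) + (8 * n + 8) * κ := by
  set G : ℕ → ℝ := fun j => min L (max 0 (Y i + Y j)) with hG
  have hG0 : ∀ j, 0 ≤ G j := fun j => le_min hL (le_max_left _ _)
  have hGt : ∀ j t, t ≤ L → t ≤ Y i + Y j → t ≤ G j := fun j t a b =>
    le_min a (b.trans (le_max_right _ _))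
  have hnR : (4 : ℝ) ≤ n := by exact_mod_cast hn
  have hc : 40 * κ ≤ (8 * n + 8) * κ := mul_le_mul_of_nonneg_right (by linarith) hκ
  have hS0 : 0 ≤ ∑ j ∈ Ico (i + 1) n, G j := Finset.sum_nonneg fun j _ => hG0 j
  have hsub : ∀ T : Finset ℕ, T ⊆ Ico (i + 1) n → ∑ j ∈ T, G j ≤ ∑ j ∈ Ico (i + 1) n, G j :=
    fun T hT => Finset.sum_le_sum_of_subset_of_nonneg hT fun j _ _ => hG0 j
  set h := n / 2 with hh
  obtain ⟨r, hr⟩ := he
  have hrh : n = 2 * h := by omega
  have hz2 : 2 * Y (h - 1) ≤ κ + L := by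
    have := h3 (h - 1) (h - 1) (by omega)
    linarith
  have hzh : -(2 * κ) ≤ Y (h - 1) + Y h := by
    have b := h2 (h - 1) (by omega)
    have e2 : n - 1 - (h - 1) = h := by omega
    rwa [e2] at b
  have hz0 : -κ ≤ Y (h - 1) := by
    have c := hmono (h - 1) h (by omega) (by omega)
    linarith
  -- the indices `i + 2 > h`
  by_cases hi2 : i + 2 ≤ h
  swap
  · have hi0 : i ≠ 0 := by omega
    rw [if_neg hi0, add_zero]
    have : max 0 (2 * Y i - L) ≤ κ := by
      refine max_le hκ ?_
      have := hmono (h - 1) i (by omega) hi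
      linarith
    linarith
  have hzi : Y (h - 1) ≤ Y i := hmono i (h - 1) (by omega) (by omega)
  have hgoal : max 0 (2 * Y i - L) + min L (Y i) / 2 ≤
      ∑ j ∈ Ico (i + 1) n, G j + (8 * n + 8) * κ := by
    rcases le_or_gt (Y i) 0 with hY | hY
    · have a1 : max 0 (2 * Y i - L) = 0 := max_eq_left (by linarith)
      have a2 : min L (Y i) ≤ Y i := min_le_right _ _
      rw [a1]
      linarith
    rcases le_or_gt (Y i + Y (h - 1)) L with hYL | hYL
    · have c : 2 * Y i - 2 * κ ≤ ∑ j ∈ Ico (i + 1) n, G j := by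
        refine le_trans ?_ (hsub {h - 1, h} ?_)
        · rw [Finset.sum_pair (by omega)]
          have a := hGt (h - 1) (Y i + Y (h - 1)) (by linarith) (by linarith)
          have b := hGt h (Y i - Y (h - 1) - 2 * κ) (by linarith) (by linarith)
          linarith
        · intro x hx
          rw [Finset.mem_insert, Finset.mem_singleton] at hx
          rw [Finset.mem_Ico]
          omega
      have d : min L (Y i) ≤ Y i := min_le_right _ _
      have d' : min L (Y i) ≤ L := min_le_left _ _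
      rcases le_total 0 (2 * Y i - L) with h6 | h6
      · rw [max_eq_right h6]
        linarith
      · rw [max_eq_left h6]
        linarith
    -- the main case
    have main1 : ∀ j ∈ Ico (i + 1) h, L ≤ G j ∧
        Y (j - 1) - Y j - 5 * κ ≤ G (n - 1 - j) := by
      intro j hj
      rw [Finset.mem_Ico] at hj
      have a := h3 (j - 1) (n - 1 - j) (by omega)
      have b := h2 j (by omega)
      have c : Y (h - 1) ≤ Y j := hmono j (h - 1) (by omega) (by omega)
      have d : Y (j - 1) ≤ Y i := hmono i (j - 1) (by omega) (by omega)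
      exact ⟨hGt _ _ (by linarith) (by linarith), hGt _ _ (by linarith) (by linarith)⟩
    have tele : ∑ j ∈ Ico (i + 1) h, (Y (j - 1) - Y j) = Y i - Y (h - 1) := by
      rw [Finset.sum_Ico_eq_sum_range]
      have := Finset.sum_range_sub' (fun k => Y (i + k)) (h - (i + 1))
      have e1 : i + (h - (i + 1)) = h - 1 := by omega
      rw [e1, add_zero] at this
      rw [← this]
      refine Finset.sum_congr rfl fun k _ => ?_
      have e2 : i + 1 + k - 1 = i + k := by omega
      have e3 : i + 1 + k = i + (k + 1) := by omega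
      rw [e2, e3]
    have hcard : ∑ j ∈ Ico (i + 1) h, (Y (j - 1) - Y j - 5 * κ) ≥
        Y i - Y (h - 1) - 5 * κ * h := by
      rw [Finset.sum_sub_distrib, tele, Finset.sum_const, Nat.card_Ico, nsmul_eq_mul]
      have : ((h - (i + 1) : ℕ) : ℝ) ≤ h := by exact_mod_cast Nat.sub_le _ _
      have := mul_le_mul_of_nonneg_right this (by linarith : 0 ≤ 5 * κ)
      linarith
    have t1 : ((h - (i + 1) : ℕ) : ℝ) * L ≤ ∑ j ∈ Ico (i + 1) h, G j := by
      have := Finset.sum_le_sum fun j hj => (main1 j hj).1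
      rwa [Finset.sum_const, Nat.card_Ico, nsmul_eq_mul] at this
    have t2 : Y i - Y (h - 1) - 5 * κ * h ≤ ∑ j ∈ Ico (n - h) (n - (i + 1)), G j := by
      refine hcard.le.trans ((Finset.sum_le_sum fun j hj => (main1 j hj).2).trans ?_)
      rw [Finset.sum_Ico_reflect G (i + 1) (by omega : h ≤ n - 1 + 1)]
      have e1 : n - 1 + 1 = n := by omega
      rw [e1]
    -- the steps
    have step : ∀ m : ℕ, i + m + 2 ≤ h → Y i ≤ Y (i + m) + m * (L + 3 * κ) := by
      intro m
      induction m with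
      | zero => intro _; simp
      | succ m ih =>
        intro hm
        have a := ih (by omega)
        have b := h3 (i + m) (n - 1 - (i + (m + 1))) (by omega)
        have c := h2 (i + (m + 1)) (by omega)
        push_cast
        linarith
    have hst := step (h - 2 - i) (by omega)
    have e3 : i + (h - 2 - i) = h - 2 := by omega
    rw [e3] at hst
    have h5' := h5 (h - 2) (h - 1) (by omega) (by omega)
    have e4 : ((h - (i + 1) : ℕ) : ℝ) = ((h - 2 - i : ℕ) : ℝ) + 1 := by
      have : h - (i + 1) = (h - 2 - i) + 1 := by omega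
      rw [this]
      push_cast
      ring
    rw [e4] at t1
    have e5 : ((h - 2 - i : ℕ) : ℝ) ≤ h := by
      have : h - 2 - i ≤ h := by omega
      exact_mod_cast this
    have e6 := mul_le_mul_of_nonneg_right e5 (by linarith : 0 ≤ 3 * κ)
    have hhR : (h : ℝ) * 2 = n := by
      have : h * 2 = n := by omega
      exact_mod_cast this
    have hhκ : κ * (h * 2) = κ * n := by rw [hhR]
    have hmin : min L (Y i) ≤ L := min_le_left _ _
    rw [max_eq_right (by linarith : 0 ≤ 2 * Y i - L)]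
    have hcons1 : ∑ j ∈ Ico (i + 1) n, G j = ∑ j ∈ Ico (i + 1) h, G j + ∑ j ∈ Ico h n, G j :=
      (Finset.sum_Ico_consecutive _ (by omega) (by omega)).symm
    have hcons3 : ∑ j ∈ Ico (n - h) (n - (i + 1)), G j ≤ ∑ j ∈ Ico h n, G j :=
      Finset.sum_le_sum_of_subset_of_nonneg (Finset.Ico_subset_Ico (by omega) (by omega))
        fun j _ _ => hG0 j
    have hκn : 0 ≤ κ * n := by positivity
    linarith
  split_ifs with hi0
  · exact hgoal
  · have : 0 ≤ min L (Y i) / 2 ∨ Y i < 0 := by
      rcases le_or_gt 0 (Y i) with h | h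
      · left
        have := le_min hL h
        linarith
      · right
        exact h
    rcases this with h | h
    · linarith
    · rw [max_eq_left (by linarith)]
      linarith

/-- the additive form -/
lemma total {n : ℕ} (hn : 4 ≤ n) (he : Even n) {κ L : ℝ} (hκ : 0 ≤ κ) (hL : 0 ≤ L) (y : Fin n → ℝ)
    (hmono : ∀ i j, i ≤ j → y j ≤ y i) (hsum : -κ ≤ ∑ i, y i)
    (h1 : ∀ i, y i + y (Fin.rev i) ≤ 0)
    (h3 : ∀ i j : Fin n, (i : ℕ) + j = n - 2 → y i + y j ≤ κ + L)
    (h5 : ∀ i j : Fin n, (i : ℕ) + 2 = n / 2 → (j : ℕ) + 1 = n / 2 → y i + y j ≤ κ + L) :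
    (∑ p : Ix n, max 0 (-y p.1.1 - y p.1.2)) + (∑ p : Ix n, max 0 (L - y p.1.1 - y p.1.2)) ≤
      (14 * n ^ 2 + 8 * n) * κ + (n * (n + 1) / 2 : ℕ) * L +
        (∑ i, ∑ j ∈ univ.filter (· < i), (y j - y i)) - min L (y ⟨0, by omega⟩) / 2 := by
  have h2 : ∀ i, -(2 * κ) ≤ y i + y (Fin.rev i) := by
    intro i
    have a : ∑ j, (y j + y (Fin.rev j)) = 2 * ∑ j, y j := by
      rw [Finset.sum_add_distrib, BG.Expo.sum_rev]
      ring
    have b : -(y i + y (Fin.rev i)) ≤ ∑ j, -(y j + y (Fin.rev j)) :=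
      Finset.single_le_sum (f := fun j => -(y j + y (Fin.rev j)))
        (fun j _ => by have := h1 j; linarith) (Finset.mem_univ i)
    rw [Finset.sum_neg_distrib, a] at b
    linarith
  have hst := BG.Expo.star y (L := L) hκ hmono h1 h2
  -- the extension to the natural numbers
  set Y : ℕ → ℝ := fun k => if h : k < n then y ⟨k, h⟩ else 0 with hYdef
  have hYv : ∀ i : Fin n, Y i = y i := fun i => by
    rw [hYdef]
    simp only [i.2, dif_pos]
  have hY : ∀ k (h : k < n), Y k = y ⟨k, h⟩ := fun k h => hYv ⟨k, h⟩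
  have hper := per hn he hκ hL Y
    (fun i j hij hj => by
      rw [hY i (by omega), hY j hj]
      exact hmono _ _ hij)
    (fun i hi => by
      rw [hY i hi, hY (n - 1 - i) (by omega)]
      have e : (⟨n - 1 - i, by omega⟩ : Fin n) = Fin.rev ⟨i, hi⟩ := by
        ext
        simp only [Fin.val_rev]
        omega
      rw [e]
      exact h2 _)
    (fun i j hij => by
      rw [hY i (by omega), hY j (by omega)]
      exact h3 _ _ hij)
    (fun i j hi hj => by
      rw [hY i (by omega), hY j (by omega)]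
      exact h5 _ _ hi hj)
  have hsumIco : ∀ i : Fin n, (∑ j, if i < j then min L (max 0 (y i + y j)) else 0) =
      ∑ j ∈ Ico ((i : ℕ) + 1) n, min L (max 0 (Y i + Y j)) := by
    intro i
    have a := Fin.sum_univ_eq_sum_range
      (fun k => if (i : ℕ) < k then min L (max 0 (Y i + Y k)) else 0) n
    have b : (∑ j, if i < j then min L (max 0 (y i + y j)) else 0) =
        ∑ j : Fin n, if (i : ℕ) < (j : ℕ) then min L (max 0 (Y i + Y j)) else 0 := by
      refine Finset.sum_congr rfl fun j _ => ?_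
      rw [hYv, hYv]
      by_cases h : i < j
      · rw [if_pos h, if_pos (Fin.lt_def.mp h)]
      · rw [if_neg h, if_neg (fun h' => h (Fin.lt_def.mpr h'))]
    rw [b, a, ← Finset.sum_filter]
    refine Finset.sum_congr ?_ fun _ _ => rfl
    ext k
    rw [Finset.mem_filter, Finset.mem_range, Finset.mem_Ico]
    omega
  have hper0 : ∀ i : Fin n, max 0 (2 * y i - L) ≤
      (∑ j, if i < j then min L (max 0 (y i + y j)) else 0) + (8 * n + 8) * κ -
        if i = ⟨0, by omega⟩ then min L (y i) / 2 else 0 := by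
    intro i
    have a := hper i i.2
    rw [← hsumIco i, hYv] at a
    by_cases h : i = ⟨0, by omega⟩
    · have h' : (i : ℕ) = 0 := by rw [h]
      rw [if_pos h'] at a
      rw [if_pos h]
      linarith
    · have h' : (i : ℕ) ≠ 0 := fun h' => h (Fin.ext h')
      rw [if_neg h'] at a
      rw [if_neg h]
      linarith
  have hper1 := Finset.sum_le_sum fun i (_ : i ∈ (univ : Finset (Fin n))) => hper0 i
  rw [Finset.sum_sub_distrib, Finset.sum_add_distrib, Finset.sum_ite_eq',
    if_pos (Finset.mem_univ _)] at hper1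
  have hconst : ∑ _i : Fin n, (8 * (n : ℝ) + 8) * κ = (8 * n ^ 2 + 8 * n) * κ := by
    simp only [Finset.sum_const, Finset.card_univ, Fintype.card_fin, nsmul_eq_mul]
    ring
  rw [hconst] at hper1
  -- linear part
  have hlin : -(2 * κ * n ^ 2) ≤ ∑ p : Ix n, (y p.1.1 + y p.1.2) := by
    rw [BG.Expo.ix_sum (fun i j => y i + y j)]
    have a := BG.Expo.sum_refl (fun i j => y i + y j)
    have b : -(4 * κ * n ^ 2) ≤ (∑ i, ∑ j, if i ≤ j then y i + y j else 0) +
        ∑ i, ∑ j, if i ≤ j then y (Fin.rev j) + y (Fin.rev i) else 0 := by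
      have e : (-(4 * κ * n ^ 2) : ℝ) = ∑ _i : Fin n, ∑ _j : Fin n, -(4 * κ) := by
        simp only [Finset.sum_const, Finset.card_univ, Fintype.card_fin, nsmul_eq_mul]
        ring
      rw [e, ← Finset.sum_add_distrib]
      refine Finset.sum_le_sum fun i _ => ?_
      rw [← Finset.sum_add_distrib]
      refine Finset.sum_le_sum fun j _ => ?_
      have a := h2 i
      have b := h2 j
      split_ifs
      · linarith
      · linarith
    rw [← a] at b
    linarith
  have hsplit : ∑ p : Ix n, max 0 (L - y p.1.1 - y p.1.2) =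
      (n * (n + 1) / 2 : ℕ) * L - ∑ p : Ix n, (y p.1.1 + y p.1.2) +
        ∑ p : Ix n, max 0 (y p.1.1 + y p.1.2 - L) := by
    have e : ((n * (n + 1) / 2 : ℕ) : ℝ) * L = ∑ _p : Ix n, L := by
      rw [Finset.sum_const, Finset.card_univ, BG.Expo.card_ix, nsmul_eq_mul]
    rw [e, ← Finset.sum_sub_distrib, ← Finset.sum_add_distrib]
    refine Finset.sum_congr rfl fun p _ => ?_
    rcases le_total 0 (L - y p.1.1 - y p.1.2) with h | h
    · rw [max_eq_right h, max_eq_left (by linarith : y p.1.1 + y p.1.2 - L ≤ 0)]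
      ring
    · rw [max_eq_left h, max_eq_right (by linarith : 0 ≤ y p.1.1 + y p.1.2 - L)]
      ring
  rw [hsplit, BG.Expo.ix_sum (fun i j => max 0 (-y i - y j)), BG.Expo.ix_sum (fun i j => max 0 (y i + y j - L))]
  linarith

end Expo

theorem expo (n : ℕ) (hn : 4 ≤ n) (he : Even n) (K : ℝ) (hK : 1 ≤ K) : ∃ C : ℝ, 0 < C ∧
    ∀ (M : ℝ) (s : Fin n → ℝ), 1 ≤ M → (∀ i, 0 < s i) → (∀ i j, i ≤ j → s i ≤ s j) →
      ∏ i, s i ≤ K → (∀ i, 1 ≤ s i * s (Fin.rev i)) →
      (∀ i j : Fin n, (i : ℕ) + j = n - 2 → 1 ≤ K * M * (s i * s j)) →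
      (∀ i j : Fin n, (i : ℕ) + 2 = n / 2 → (j : ℕ) + 1 = n / 2 → 1 ≤ K * M * (s i * s j)) →
      (∏ p : Ix n, max 1 (s p.1.1 * s p.1.2)) * (∏ p : Ix n, max 1 (M * (s p.1.1 * s p.1.2))) ≤
        C * M ^ (n * (n + 1) / 2) * (∏ i, ∏ j ∈ univ.filter (· < i), (s i / s j)) *
          √(max (s ⟨0, by omega⟩) (1 / M)) := by
  refine ⟨Real.exp ((14 * n ^ 2 + 8 * n) * Real.log K), Real.exp_pos _, ?_⟩
  intro M s hM hs hmono hprod hrev h3 h5
  have hM0 : 0 < M := by linarith
  have hK0 : 0 < K := by linarith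
  obtain ⟨L, rfl⟩ : ∃ L, Real.exp L = M := ⟨Real.log M, Real.exp_log hM0⟩
  obtain ⟨κ, rfl⟩ : ∃ κ, Real.exp κ = K := ⟨Real.log K, Real.exp_log hK0⟩
  obtain ⟨y, rfl⟩ : ∃ y : Fin n → ℝ, (fun i => Real.exp (-y i)) = s :=
    ⟨fun i => -Real.log (s i), by
      funext i
      rw [neg_neg, Real.exp_log (hs i)]⟩
  have hL : 0 ≤ L := by
    rwa [← Real.exp_zero, Real.exp_le_exp] at hM
  have hκ : 0 ≤ κ := by
    rwa [← Real.exp_zero, Real.exp_le_exp] at hK
  have key := Expo.total hn he hκ hL y
    (fun i j hij => by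
      have := hmono i j hij
      simp only [Real.exp_le_exp] at this
      linarith)
    (by
      simp only [← Real.exp_sum, Real.exp_le_exp, Finset.sum_neg_distrib] at hprod
      linarith)
    (fun i => by
      have := hrev i
      simp only [← Real.exp_add] at this
      rw [← Real.exp_zero, Real.exp_le_exp] at this
      linarith)
    (fun i j hij => by
      have := h3 i j hij
      simp only [← Real.exp_add] at this
      rw [← Real.exp_zero, Real.exp_le_exp] at this
      linarith)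
    (fun i j hi hj => by
      have := h5 i j hi hj
      simp only [← Real.exp_add] at this
      rw [← Real.exp_zero, Real.exp_le_exp] at this
      linarith)
  have e1 : ∏ p : Ix n, max 1 (Real.exp (-y p.1.1) * Real.exp (-y p.1.2)) =
      Real.exp (∑ p : Ix n, max 0 (-y p.1.1 - y p.1.2)) := by
    rw [Real.exp_sum]
    refine Finset.prod_congr rfl fun p _ => ?_
    rw [Real.exp_monotone.map_max, Real.exp_zero, ← Real.exp_add, sub_eq_add_neg]
  have e2 : ∏ p : Ix n, max 1 (Real.exp L * (Real.exp (-y p.1.1) * Real.exp (-y p.1.2))) =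
      Real.exp (∑ p : Ix n, max 0 (L - y p.1.1 - y p.1.2)) := by
    rw [Real.exp_sum]
    refine Finset.prod_congr rfl fun p _ => ?_
    rw [Real.exp_monotone.map_max, Real.exp_zero, ← Real.exp_add, ← Real.exp_add]
    congr 2
    ring
  have e3 : ∏ i, ∏ j ∈ univ.filter (· < i), (Real.exp (-y i) / Real.exp (-y j)) =
      Real.exp (∑ i, ∑ j ∈ univ.filter (· < i), (y j - y i)) := by
    rw [Real.exp_sum]
    refine Finset.prod_congr rfl fun i _ => ?_
    rw [Real.exp_sum]
    refine Finset.prod_congr rfl fun j _ => ?_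
    rw [← Real.exp_sub]
    congr 1
    ring
  have e4 : √(max (Real.exp (-y ⟨0, by omega⟩)) (1 / Real.exp L)) =
      Real.exp (-(min L (y ⟨0, by omega⟩) / 2)) := by
    have a : 1 / Real.exp L = Real.exp (-L) := by rw [Real.exp_neg, one_div]
    rw [a, ← Real.exp_monotone.map_max, ← Real.exp_half]
    congr 1
    rcases le_total L (y ⟨0, by omega⟩) with h | h
    · rw [min_eq_left h, max_eq_right (by linarith)]
      ring
    · rw [min_eq_right h, max_eq_left (by linarith)]
      ring
  have e5 : Real.exp L ^ (n * (n + 1) / 2) = Real.exp ((n * (n + 1) / 2 : ℕ) * L) := by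
    rw [Real.exp_nat_mul]
  simp only [Real.log_exp]
  rw [e1, e2, e3, e4, e5, ← Real.exp_add, ← Real.exp_add, ← Real.exp_add, ← Real.exp_add]
  apply Real.exp_le_exp.mpr
  linarith

end Stoll308.NE
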