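import Pool.Agent.Work.MP_308fa9_nt.NE.Basic
import Pool.Agent.Work.MP_308fa9_nt.BG.Redu

set_option autoImplicit false

/-!
The curve is smooth and has no point with given rational `t`, for almost all `f`.
-/

namespace Stoll308.NE

open Polynomial Finset BG BF

namespace Sml

lemma coeff_FZ {n : ℕ} {K : Type*} [CommRing K] (c : Fin n → ℤ) (i : Fin n) :
    (FZ K c).coeff (n - 1 - (i : ℕ)) = (c i : K) := by
  have hi := i.isLt
  simp only [FZ, fpol, coeff_add, finsetSum_coeff, coeff_C_mul, coeff_X_pow]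
  rw [if_neg (by omega), mul_zero, zero_add, Finset.sum_eq_single i]
  · simp
  · intro j _ hj
    have hj' := j.isLt
    rw [if_neg, mul_zero]
    intro h
    apply hj
    apply Fin.ext
    omega
  · intro h
    exact absurd (mem_univ i) h

lemma FZ_inj {n : ℕ} {K : Type*} [CommRing K] [CharZero K] {c c' : Fin n → ℤ}
    (h : FZ K c = FZ K c') : c = c' := by
  funext i
  have h1 : (FZ K c).coeff (n - 1 - (i : ℕ)) = (FZ K c').coeff (n - 1 - (i : ℕ)) := by rw [h]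
  rw [coeff_FZ, coeff_FZ] at h1
  exact_mod_cast h1

lemma GZ_ne_zero {m : ℕ} (b : Fin (m + 1) → ℤ) (h0 : b 0 ≠ 0) : GZ ℚ b ≠ 0 := by
  intro h
  have h1 : (GZ ℚ b).coeff m = (b 0 : ℚ) := by
    simp only [GZ, gpol, finsetSum_coeff, coeff_C_mul, coeff_X_pow]
    rw [Finset.sum_eq_single 0]
    · simp
    · intro j _ hj
      have hj' := j.isLt
      have hj0 : (j : ℕ) ≠ 0 := fun h => hj (Fin.ext h)
      rw [if_neg (by omega), mul_zero]
    · intro h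
      exact absurd (mem_univ _) h
  rw [h, coeff_zero] at h1
  exact h0 (by exact_mod_cast h1.symm)

/-- Only finitely many monic polynomials divide a given one. -/
lemma fin_dvd (n : ℕ) (q : ℚ[X]) (hq : q ≠ 0) : {c : Fin n → ℤ | FZ ℚ c ∣ q}.Finite := by
  classical
  have hq' : q.map (algebraMap ℚ ℂ) ≠ 0 := by
    rwa [Ne, Polynomial.map_eq_zero]
  refine Set.Finite.of_finite_image (f := fun c : Fin n → ℤ => FZ ℂ c) ?_
    (fun c _ c' _ h => FZ_inj h)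
  refine Set.Finite.subset (((q.map (algebraMap ℚ ℂ)).roots.powerset.map
    fun s => (s.map fun r => (X - C r : ℂ[X])).prod).toFinset.finite_toSet) ?_
  rintro _ ⟨c, hc, rfl⟩
  have hmap : (FZ ℚ c).map (algebraMap ℚ ℂ) = FZ ℂ c := by
    simp [FZ, fpol, Polynomial.map_sum]
  have hmon : (FZ ℂ c).Monic := (IrrDens.fpol_natDegree _).2
  have hd : FZ ℂ c ∣ q.map (algebraMap ℚ ℂ) := by
    rw [← hmap]
    exact Polynomial.map_dvd _ hc
  simp only [mem_coe, Multiset.mem_toFinset, Multiset.mem_map, Multiset.mem_powerset]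
  refine ⟨(FZ ℂ c).roots, Polynomial.roots.le_of_dvd hq' hd, ?_⟩
  exact ((IsAlgClosed.splits (FZ ℂ c)).eq_prod_roots_of_monic hmon).symm

/-- The integer `D^(2n) F(z)`. -/
def kk {n : ℕ} (z : ℚ) (c : Fin n → ℤ) : ℤ :=
  (z.den : ℤ) ^ n * (z.num ^ n + ∑ i : Fin n, c i * (z.num ^ (n - 1 - (i : ℕ)) *
    (z.den : ℤ) ^ ((i : ℕ) + 1)))

lemma kk_eq {n : ℕ} (z : ℚ) (c : Fin n → ℤ) :
    ((kk z c : ℤ) : ℚ) = (z.den : ℚ) ^ (2 * n) * (FZ ℚ c).eval z := by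
  have hd : (z.den : ℚ) ≠ 0 := by exact_mod_cast z.den_nz
  have hz : z * z.den = z.num := Rat.mul_den_eq_num z
  simp only [kk, FZ, fpol, eval_add, eval_mul, eval_C, eval_pow, eval_X, one_mul,
    eval_finsetSum]
  push_cast
  have hsum : ∑ i : Fin n, (c i : ℚ) * ((z.num : ℚ) ^ (n - 1 - (i : ℕ)) *
      (z.den : ℚ) ^ ((i : ℕ) + 1)) =
      (z.den : ℚ) ^ n * ∑ i : Fin n, (c i : ℚ) * z ^ (n - 1 - (i : ℕ)) := by
    rw [Finset.mul_sum]
    refine Finset.sum_congr rfl fun i _ => ?_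
    have hi := i.isLt
    have e : n = (n - 1 - (i : ℕ)) + ((i : ℕ) + 1) := by omega
    calc (c i : ℚ) * ((z.num : ℚ) ^ (n - 1 - (i : ℕ)) * (z.den : ℚ) ^ ((i : ℕ) + 1))
        = ((z.den : ℚ) ^ (n - 1 - (i : ℕ)) * (z.den : ℚ) ^ ((i : ℕ) + 1)) *
          ((c i : ℚ) * z ^ (n - 1 - (i : ℕ))) := by rw [← hz]; ring
      _ = (z.den : ℚ) ^ n * ((c i : ℚ) * z ^ (n - 1 - (i : ℕ))) := by
          rw [← pow_add, ← e]
  rw [hsum, ← hz, two_mul, pow_add]
  ring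

lemma kk_sq {n : ℕ} (z : ℚ) (c : Fin n → ℤ) (h : IsSquare ((FZ ℚ c).eval z)) :
    ∃ W : ℕ, kk z c = (W : ℤ) ^ 2 := by
  obtain ⟨r, hr⟩ := h
  have h1 : IsSquare ((kk z c : ℤ) : ℚ) :=
    ⟨(z.den : ℚ) ^ n * r, by rw [kk_eq, hr]; ring⟩
  rw [Rat.isSquare_intCast_iff] at h1
  obtain ⟨w, hw⟩ := h1
  exact ⟨w.natAbs, by rw [hw, Int.natCast_natAbs, sq_abs]; ring⟩

/-- Counting with a finite set of exceptions. -/
lemma cnt_or_fin {n : ℕ} (P P' : (Fin n → ℤ) → Prop) (F : Finset (Fin n → ℤ)) (X : ℕ)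
    (h : ∀ c, P c → P' c ∨ c ∈ F) : BG.cnt n P X ≤ BG.cnt n P' X + F.card := by
  classical
  unfold BG.cnt
  refine (card_le_card ?_).trans (card_union_le _ _)
  intro c hc
  rw [mem_filter] at hc
  rw [mem_union, mem_filter]
  rcases h c hc.2 with h | h
  · exact Or.inl ⟨hc.1, h⟩
  · exact Or.inr h

end Sml

open Sml

theorem smooth_small (n m : ℕ) (hn : 2 ≤ n) (b : Fin (m + 1) → ℤ) (h0 : b 0 ≠ 0)
    (hsq : Squarefree (GZ ℚ b)) (ε : ℝ) (hε : 0 < ε) :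
    ∃ X₀ : ℕ, ∀ X : ℕ, X₀ ≤ X →
      (BG.cnt n (fun c => ¬ Squarefree (FZ ℚ c * GZ ℚ b)) X : ℝ) ≤ ε * X ^ (n * (n + 1) / 2) := by
  classical
  obtain ⟨X₁, h₁⟩ := BG.reducible_small n hn 1 one_ne_zero (ε / 2) (by positivity)
  have hfin := fin_dvd n (GZ ℚ b) (GZ_ne_zero b h0)
  obtain ⟨X₂, h₂⟩ := exists_nat_ge (2 * (hfin.toFinset.card : ℝ) / ε)
  refine ⟨X₁ + X₂ + 1, fun X hX => ?_⟩
  have g1 := h₁ X (by omega)
  have hX1 : (1 : ℝ) ≤ X := by exact_mod_cast (by omega : 1 ≤ X)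
  have g2 : 2 * (hfin.toFinset.card : ℝ) / ε ≤ (X : ℝ) :=
    h₂.trans (by exact_mod_cast (by omega : X₂ ≤ X))
  have hle : BG.cnt n (fun c => ¬ Squarefree (FZ ℚ c * GZ ℚ b)) X ≤
      BG.cnt n (fun b => ¬ Irreducible (FZ ℚ fun i => (1 : ℤ) ^ (i : ℕ) * b i)) X +
        hfin.toFinset.card := by
    refine cnt_or_fin _ _ _ X fun c hc => ?_
    by_cases hir : Irreducible (FZ ℚ c)
    · right
      rw [Set.Finite.mem_toFinset]
      by_contra hd
      exact hc ((squarefree_mul_iff).2 ⟨hir.isRelPrime_iff_not_dvd.2 hd, hir.squarefree, hsq⟩)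
    · left
      simpa using hir
  have hN : 1 ≤ n * (n + 1) / 2 := by
    have : 2 * 3 ≤ n * (n + 1) := Nat.mul_le_mul hn (by omega)
    omega
  have g3 : (hfin.toFinset.card : ℝ) ≤ ε / 2 * X ^ (n * (n + 1) / 2) := by
    rw [div_le_iff₀ hε] at g2
    calc (hfin.toFinset.card : ℝ) ≤ ε / 2 * X := by linarith
      _ ≤ _ := by
        gcongr
        exact le_self_pow₀ hX1 (by omega)
  have g4 : (BG.cnt n (fun c => ¬ Squarefree (FZ ℚ c * GZ ℚ b)) X : ℝ) ≤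
      (BG.cnt n (fun b => ¬ Irreducible (FZ ℚ fun i => (1 : ℤ) ^ (i : ℕ) * b i)) X : ℝ) +
        (hfin.toFinset.card : ℝ) := by exact_mod_cast hle
  linarith

/-- The number of squares. -/
lemma Sml.fiber_le {m : ℕ} (hm : 1 ≤ m) (z : ℚ) (X : ℕ) (hX : 1 ≤ X)
    (T : Finset (Fin (m + 1) → ℤ)) (a : Fin m → ℤ)
    (hT : ∀ c ∈ T, |c (Fin.last m)| ≤ (X : ℤ) ^ (m + 1) ∧ Fin.init c = a ∧
      IsSquare ((FZ ℚ c).eval z)) :
    T.card ≤ 2 * z.den ^ (m + 1) * X ^ m + 1 := by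
  classical
  have hW : ∀ c : Fin (m + 1) → ℤ, ∃ W : ℕ, c ∈ T → kk z c = (W : ℤ) ^ 2 := by
    intro c
    by_cases hc : c ∈ T
    · obtain ⟨W, h⟩ := kk_sq z c (hT c hc).2.2
      exact ⟨W, fun _ => h⟩
    · exact ⟨0, fun h => absurd h hc⟩
  choose W hW using hW
  rcases T.eq_empty_or_nonempty with rfl | hne
  · simp
  obtain ⟨c₀, hc₀, hmin⟩ := T.exists_min_image W hne
  have hdiff : ∀ c ∈ T, ∀ c' ∈ T, kk z c - kk z c' =
      (z.den : ℤ) ^ (2 * (m + 1)) * (c (Fin.last m) - c' (Fin.last m)) := by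
    intro c hc c' hc'
    have h1 := kk_eq z c
    have h2 := kk_eq z c'
    have h3 : (FZ ℚ c).eval z - (FZ ℚ c').eval z =
        ((c (Fin.last m) : ℤ) : ℚ) - ((c' (Fin.last m) : ℤ) : ℚ) := by
      simp only [FZ, fpol, eval_add, eval_mul, eval_C, eval_pow, eval_X, one_mul,
        eval_finsetSum]
      rw [Fin.sum_univ_castSucc, Fin.sum_univ_castSucc]
      have h4 : ∀ i : Fin m, c i.castSucc = c' i.castSucc := by
        intro i
        have e1 := congrFun (hT c hc).2.1 i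
        have e2 := congrFun (hT c' hc').2.1 i
        exact e1.trans e2.symm
      simp only [h4, Fin.val_last]
      have h5 : m + 1 - 1 - m = 0 := by omega
      rw [h5]
      ring
    have h6 : ((kk z c - kk z c' : ℤ) : ℚ) =
        (((z.den : ℤ) ^ (2 * (m + 1)) * (c (Fin.last m) - c' (Fin.last m)) : ℤ) : ℚ) := by
      push_cast
      rw [h1, h2, ← mul_sub, h3]
    exact_mod_cast h6
  have hinj : Set.InjOn (fun c => W c - W c₀) (T : Set (Fin (m + 1) → ℤ)) := by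
    intro c hc c' hc' he
    rw [mem_coe] at hc hc'
    have e1 := hmin c hc
    have e2 := hmin c' hc'
    have e3 : W c = W c' := by
      simp only at he
      omega
    have e4 := hdiff c hc c' hc'
    rw [hW c hc, hW c' hc', e3, sub_self] at e4
    have e5 : (z.den : ℤ) ^ (2 * (m + 1)) ≠ 0 := by
      have : (z.den : ℤ) ≠ 0 := by exact_mod_cast z.den_nz
      positivity
    have e6 : c (Fin.last m) = c' (Fin.last m) := by
      rcases mul_eq_zero.1 e4.symm with h | h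
      · exact absurd h e5
      · linarith
    rw [← Fin.snoc_init_self c, ← Fin.snoc_init_self c', (hT c hc).2.1, (hT c' hc').2.1, e6]
  have hmaps : ∀ c ∈ T, W c - W c₀ ∈ range (2 * z.den ^ (m + 1) * X ^ m + 1) := by
    intro c hc
    rw [mem_range]
    have e1 := hmin c hc
    have e4 := hdiff c hc c₀ hc₀
    rw [hW c hc, hW c₀ hc₀] at e4
    have e5 : c (Fin.last m) - c₀ (Fin.last m) ≤ 2 * (X : ℤ) ^ (m + 1) := by
      have h1 := (abs_le.1 (hT c hc).1).2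
      have h2 := (abs_le.1 (hT c₀ hc₀).1).1
      linarith
    have e6 : ((W c : ℤ) - W c₀) ^ 2 ≤ (2 * (z.den : ℤ) ^ (m + 1) * (X : ℤ) ^ m) ^ 2 := by
      have h1 : ((W c : ℤ) - W c₀) ^ 2 ≤ (W c : ℤ) ^ 2 - (W c₀ : ℤ) ^ 2 := by
        have : (W c₀ : ℤ) ≤ W c := by exact_mod_cast e1
        have : (0 : ℤ) ≤ W c₀ := by positivity
        nlinarith
      have h2 : (z.den : ℤ) ^ (2 * (m + 1)) * (c (Fin.last m) - c₀ (Fin.last m)) ≤
          (z.den : ℤ) ^ (2 * (m + 1)) * (2 * (X : ℤ) ^ (m + 1)) :=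
        mul_le_mul_of_nonneg_left e5 (by positivity)
      have h3 : (X : ℤ) ^ (m + 1) ≤ (X : ℤ) ^ (2 * m) :=
        pow_le_pow_right₀ (by exact_mod_cast hX) (by omega)
      have h4 : (z.den : ℤ) ^ (2 * (m + 1)) * (2 * (X : ℤ) ^ (m + 1)) ≤
          (z.den : ℤ) ^ (2 * (m + 1)) * (4 * (X : ℤ) ^ (2 * m)) := by
        refine mul_le_mul_of_nonneg_left ?_ (by positivity)
        have : (0 : ℤ) ≤ (X : ℤ) ^ (m + 1) := by positivity
        linarith
      calc ((W c : ℤ) - W c₀) ^ 2 ≤ _ := h1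
        _ = _ := e4
        _ ≤ _ := h2
        _ ≤ _ := h4
        _ = _ := by
          rw [mul_pow, mul_pow, ← pow_mul, ← pow_mul]
          ring
    have e7 : (W c : ℤ) - W c₀ ≤ 2 * (z.den : ℤ) ^ (m + 1) * (X : ℤ) ^ m :=
      le_of_sq_le_sq e6 (by positivity)
    have e8 : ((W c - W c₀ : ℕ) : ℤ) ≤ ((2 * z.den ^ (m + 1) * X ^ m : ℕ) : ℤ) := by
      rw [Nat.cast_sub e1]
      push_cast
      exact e7
    have e9 : W c - W c₀ ≤ 2 * z.den ^ (m + 1) * X ^ m := by exact_mod_cast e8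
    omega
  have := Finset.card_le_card_of_injOn _ hmaps hinj
  rwa [card_range] at this

theorem point_small (n : ℕ) (hn : 2 ≤ n) (z : ℚ) (ε : ℝ) (hε : 0 < ε) :
    ∃ X₀ : ℕ, ∀ X : ℕ, X₀ ≤ X →
      (BG.cnt n (fun c => IsSquare ((FZ ℚ c).eval z)) X : ℝ) ≤ ε * X ^ (n * (n + 1) / 2) := by
  classical
  obtain ⟨m, rfl⟩ : ∃ m, n = m + 1 := ⟨n - 1, by omega⟩
  obtain ⟨X₀, h₀⟩ := exists_nat_ge ((3 : ℝ) ^ m * (2 * z.den ^ (m + 1) + 1) / ε)
  refine ⟨X₀ + 1, fun X hX => ?_⟩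
  have hX1 : 1 ≤ X := by omega
  have hX1' : (1 : ℝ) ≤ X := by exact_mod_cast hX1
  have g0 : (3 : ℝ) ^ m * (2 * z.den ^ (m + 1) + 1) / ε ≤ (X : ℝ) :=
    h₀.trans (by exact_mod_cast (by omega : X₀ ≤ X))
  rw [div_le_iff₀ hε] at g0
  set S := (Fintype.piFinset fun i : Fin (m + 1) =>
    Icc (-(X : ℤ) ^ ((i : ℕ) + 1)) ((X : ℤ) ^ ((i : ℕ) + 1))).filter
      (fun c => IsSquare ((FZ ℚ c).eval z)) with hS
  have hSle : S.card ≤ (2 * z.den ^ (m + 1) * X ^ m + 1) * (S.image Fin.init).card := by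
    refine Finset.card_le_mul_card_image S _ fun a _ => ?_
    refine Sml.fiber_le (by omega) z X hX1 _ a fun c hc => ?_
    rw [mem_filter, hS, mem_filter, Fintype.mem_piFinset] at hc
    refine ⟨?_, hc.2, hc.1.2⟩
    have := hc.1.1 (Fin.last m)
    rw [mem_Icc, Fin.val_last] at this
    exact abs_le.2 this
  have himg : (S.image Fin.init).card ≤ ∏ i : Fin m, (2 * X ^ ((i : ℕ) + 1) + 1) := by
    have hsub : S.image Fin.init ⊆ Fintype.piFinset fun i : Fin m =>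
        Icc (-(X : ℤ) ^ ((i : ℕ) + 1)) ((X : ℤ) ^ ((i : ℕ) + 1)) := by
      intro a ha
      rw [mem_image] at ha
      obtain ⟨c, hc, rfl⟩ := ha
      rw [hS, mem_filter, Fintype.mem_piFinset] at hc
      rw [Fintype.mem_piFinset]
      intro i
      exact hc.1 i.castSucc
    refine (card_le_card hsub).trans (le_of_eq ?_)
    rw [Fintype.card_piFinset]
    refine prod_congr rfl fun i _ => ?_
    rw [Int.card_Icc]
    have : ((X : ℤ) ^ ((i : ℕ) + 1) + 1 - -(X : ℤ) ^ ((i : ℕ) + 1)) =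
        ((2 * X ^ ((i : ℕ) + 1) + 1 : ℕ) : ℤ) := by
      push_cast
      ring
    rw [this, Int.toNat_natCast]
  have hprod : ((∏ i : Fin m, (2 * X ^ ((i : ℕ) + 1) + 1) : ℕ) : ℝ) ≤
      3 ^ m * (X : ℝ) ^ (m * (m + 1) / 2) := by
    push_cast
    rw [← BG.Redu.prod_pow_box]
    calc ∏ i : Fin m, (2 * (X : ℝ) ^ ((i : ℕ) + 1) + 1)
        ≤ ∏ i : Fin m, (3 * (X : ℝ) ^ ((i : ℕ) + 1)) := by
          refine prod_le_prod (fun i _ => by positivity) fun i _ => ?_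
          have h1 : (1 : ℝ) ≤ (X : ℝ) ^ ((i : ℕ) + 1) := one_le_pow₀ hX1'
          linarith
      _ = _ := by rw [prod_mul_distrib, prod_const, card_univ, Fintype.card_fin]
  have hcnt : BG.cnt (m + 1) (fun c => IsSquare ((FZ ℚ c).eval z)) X = S.card := by
    rw [hS]
    unfold BG.cnt
    congr
  have hexp : (m + 1) * (m + 1 + 1) / 2 = m * (m + 1) / 2 + (m + 1) := by
    have : (m + 1) * (m + 1 + 1) = m * (m + 1) + 2 * (m + 1) := by ring
    rw [this]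
    omega
  have h1 : (S.card : ℝ) ≤ (2 * (z.den : ℝ) ^ (m + 1) * (X : ℝ) ^ m + 1) *
      (3 ^ m * (X : ℝ) ^ (m * (m + 1) / 2)) := by
    have h2 : (S.card : ℝ) ≤ ((2 * z.den ^ (m + 1) * X ^ m + 1 : ℕ) : ℝ) *
        ((∏ i : Fin m, (2 * X ^ ((i : ℕ) + 1) + 1) : ℕ) : ℝ) := by
      exact_mod_cast hSle.trans (Nat.mul_le_mul_left _ himg)
    refine h2.trans ?_
    have h3 : ((2 * z.den ^ (m + 1) * X ^ m + 1 : ℕ) : ℝ) =
        2 * (z.den : ℝ) ^ (m + 1) * (X : ℝ) ^ m + 1 := by push_cast; ring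
    rw [h3]
    exact mul_le_mul_of_nonneg_left hprod (by positivity)
  rw [hcnt]
  refine h1.trans ?_
  have h4 : 2 * (z.den : ℝ) ^ (m + 1) * (X : ℝ) ^ m + 1 ≤
      (2 * (z.den : ℝ) ^ (m + 1) + 1) * (X : ℝ) ^ m := by
    have : (1 : ℝ) ≤ (X : ℝ) ^ m := one_le_pow₀ hX1'
    linarith
  calc (2 * (z.den : ℝ) ^ (m + 1) * (X : ℝ) ^ m + 1) * (3 ^ m * (X : ℝ) ^ (m * (m + 1) / 2))
      ≤ ((2 * (z.den : ℝ) ^ (m + 1) + 1) * (X : ℝ) ^ m) *
        (3 ^ m * (X : ℝ) ^ (m * (m + 1) / 2)) :=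
        mul_le_mul_of_nonneg_right h4 (by positivity)
    _ = (3 ^ m * (2 * (z.den : ℝ) ^ (m + 1) + 1)) * ((X : ℝ) ^ m *
        (X : ℝ) ^ (m * (m + 1) / 2)) := by ring
    _ ≤ (X * ε) * ((X : ℝ) ^ m * (X : ℝ) ^ (m * (m + 1) / 2)) :=
        mul_le_mul_of_nonneg_right g0 (by positivity)
    _ = ε * (X : ℝ) ^ ((m + 1) * (m + 1 + 1) / 2) := by
        rw [hexp, pow_add, pow_succ]
        ring

end Stoll308.NE
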