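import Pool.Agent.Work.MP_308fa9_nt.NE.Upper
import Pool.Agent.Work.MP_308fa9_nt.NE.Small

set_option autoImplicit false

/-!
The theorem on the curves `y² = f(t)`, `w² = q(t)`, `f` monic.
-/

namespace Stoll308.NE

open Polynomial Finset Matrix BG BF

theorem points_small (n : ℕ) (hn : 2 ≤ n) (Z : Finset ℚ) (ε : ℝ) (hε : 0 < ε) :
    ∃ X₀ : ℕ, ∀ X : ℕ, X₀ ≤ X →
      (BG.cnt n (fun c => ∃ z ∈ Z, IsSquare ((FZ ℚ c).eval z)) X : ℝ) ≤
        ε * X ^ (n * (n + 1) / 2) := by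
  classical
  have h := fun z => point_small n hn z (ε / (Z.card + 1)) (by positivity)
  choose f hf using h
  obtain ⟨X₀, hX₀⟩ := exists_bound Z (fun z => (f z : ℝ))
  refine ⟨X₀, fun X hX => ?_⟩
  refine (cnt_exists Z (fun z c => IsSquare ((FZ ℚ c).eval z)) X
    (ε / (Z.card + 1) * X ^ (n * (n + 1) / 2)) ?_).trans ?_
  · intro z hz
    have h1 := hX₀ z hz
    have h2 : f z ≤ X₀ := by exact_mod_cast h1
    exact hf z X (by omega)
  · have e5 : (Z.card : ℝ) * (ε / (Z.card + 1) * X ^ (n * (n + 1) / 2)) =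
        (Z.card / (Z.card + 1)) * (ε * X ^ (n * (n + 1) / 2)) := by ring
    rw [e5]
    refine mul_le_of_le_one_left (by positivity) ?_
    rw [div_le_one (by positivity)]
    linarith

/-- For almost all monic `f` the curve `y² = f(t)`, `w² = q(t)` is smooth, its Selmer set is the class
of the points at infinity, and there are no points with `t ∈ Z`. -/
theorem main (n m : ℕ) (hn : 4 ≤ n) (he : Even n) (hm : 2 ≤ m) (hem : Even m)
    (b : Fin (m + 1) → ℤ) (h0 : b 0 ≠ 0) (hsq : Squarefree (GZ ℚ b)) (Z : Finset ℚ) (ε : ℝ)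
    (hε : 0 < ε) :
    ∃ X₀ : ℕ, ∀ X : ℕ, X₀ ≤ X →
      (BG.cnt n (fun c => ¬ Nice b Z c) X : ℝ) ≤ ε * X ^ (n * (n + 1) / 2) := by
  obtain ⟨X₁, h1⟩ := smooth_small n m (by omega) b h0 hsq (ε / 3) (by positivity)
  obtain ⟨X₂, h2⟩ := sel_small n m hn he hm hem b h0 hsq (ε / 3) (by positivity)
  obtain ⟨X₃, h3⟩ := points_small n (by omega) Z (ε / 3) (by positivity)
  refine ⟨X₁ + X₂ + X₃, fun X hX => ?_⟩
  have g1 := h1 X (by omega)
  have g2 := h2 X (by omega)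
  have g3 := h3 X (by omega)
  have hle : BG.cnt n (fun c => ¬ Nice b Z c) X ≤
      BG.cnt n (fun c => ¬ Squarefree (FZ ℚ c * GZ ℚ b)) X + (BG.cnt n (fun c => BadSel b c) X +
        BG.cnt n (fun c => ∃ z ∈ Z, IsSquare ((FZ ℚ c).eval z)) X) := by
    refine le_trans (BG.cnt_mono (Q := fun c => ¬ Squarefree (FZ ℚ c * GZ ℚ b) ∨ BadSel b c ∨
      ∃ z ∈ Z, IsSquare ((FZ ℚ c).eval z)) X ?_) ?_
    · intro c _ hc
      by_contra hcon
      push Not at hcon
      obtain ⟨c1, c2, c3⟩ := hcon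
      apply hc
      refine ⟨c1, fun δ ε hδ => ?_, c3⟩
      by_contra ht
      exact c2 ⟨δ, ε, hδ, ht⟩
    · refine (BG.cnt_or _ _ X).trans (Nat.add_le_add_left ?_ _)
      exact BG.cnt_or _ _ X
  have hle' : (BG.cnt n (fun c => ¬ Nice b Z c) X : ℝ) ≤
      BG.cnt n (fun c => ¬ Squarefree (FZ ℚ c * GZ ℚ b)) X + (BG.cnt n (fun c => BadSel b c) X +
        BG.cnt n (fun c => ∃ z ∈ Z, IsSquare ((FZ ℚ c).eval z)) X) := by
    exact_mod_cast hle
  linarith

end Stoll308.NE
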