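import Pool.Agent.Work.MP_308fa9_nt.NE.Basic
import Pool.Agent.Work.MP_308fa9_nt.BG.Major
import Pool.Agent.Work.MP_308fa9_nt.BG.RedBasis
import Pool.Agent.Work.MP_308fa9_nt.DQ.Pair
import Pool.Agent.Work.MP_308fa9_nt.DQ.Upper
import Pool.Agent.Work.MP_308fa9_nt.BG.Rep

set_option autoImplicit false

/-!
The class comes from a reduced pair.
-/

namespace Stoll308.NE

open Polynomial Finset Matrix BG DQ

lemma rep_mon_cf {n : ℕ} (c : Fin n → ℤ) : BF.mon ℚ (cf c) = FZ ℚ c := by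
  unfold BF.mon
  rw [cf_zero, GZ_cf, Int.cast_one, inv_one, C_1, one_mul]

lemma rep_isPair {n : ℕ} {c : Fin n → ℤ} {δ : ℚ[X]} {A B : Matrix (Fin n) (Fin n) ℤ}
    (h : BF.IsPair (cf c) δ A B) : BG.IsPair c δ A B := by
  obtain ⟨G, hG, hA, hB⟩ := h
  rw [rep_mon_cf, cf_zero, Int.cast_one, inv_one, one_smul] at hA hB
  exact ⟨G, hG, hA, hB⟩

theorem exists_red {n : ℕ} (hn : 4 ≤ n) (he : Even n) : ∃ (K : ℝ) (D : ℕ), 1 ≤ K ∧
    ∀ c : Fin n → ℤ, Irreducible (FZ ℚ c) → ∀ M : ℝ, 0 ≤ M →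
      (∀ θ : ℂ, (FZ ℂ c).eval θ = 0 → ‖θ‖ ≤ M) → ∀ δ : ℚ[X], IsCoprime δ (FZ ℚ c) →
      (∀ (p : ℕ) [Fact p.Prime], p ≠ 2 → ∃ h : ℚ_[p][X], Prim p h ∧
        Cls (BF.GZ ℚ_[p] (cf c)) (δ.map (algebraMap ℚ ℚ_[p])) h) →
      ∃ (N : ℕ) (A B : Matrix (Fin n) (Fin n) ℤ) (t : Fin n → ℝ), 0 < N ∧ N ≤ D ∧
        RPair K M c A B t ∧ BG.IsPair c δ A B ∧ BF.IsPair (SC.sc N (cf c)) δ A B ∧
        A.det = (-1) ^ (n / 2) * SC.sc N (cf c) 0 := by
  obtain ⟨K₀, hK₀, hred⟩ := red_basis n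
  obtain ⟨D, hD⟩ : ∃ D : ℕ, D = (2 : ℕ).factorial ^ (2 * n) := ⟨_, rfl⟩
  have hD1 : (1 : ℝ) ≤ D := by
    rw [hD]
    exact_mod_cast Nat.one_le_pow _ _ (Nat.factorial_pos 2)
  have hKD : 1 ≤ K₀ * (D : ℝ) ^ 2 := one_le_mul_of_one_le_of_one_le hK₀ (one_le_pow₀ hD1)
  refine ⟨√(K₀ * (D : ℝ) ^ 2), D, Real.one_le_sqrt.2 hKD, ?_⟩
  intro c hF M hM0 hM δ hδ hloc
  have h0 : cf c 0 ≠ 0 := by
    rw [cf_zero]
    exact one_ne_zero
  have hF' : Irreducible (BF.GZ ℚ (cf c)) := by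
    rw [GZ_cf]
    exact hF
  have hδ' : IsCoprime δ (BF.GZ ℚ (cf c)) := by
    rw [GZ_cf]
    exact hδ
  have hl := BF.last_ne_zero (by omega) (cf c) h0 hF'
  obtain ⟨A₀, B₀, N, hN, hND, hbf, hdet⟩ := DQ.exists_pair hn he 2 le_rfl (cf c) h0 hl
    (fun p _ _ => by
      rw [cf_zero, Int.cast_one, norm_one, norm_pow]
      exact pow_le_one₀ (norm_nonneg _) (Padic.norm_int_le_one ((2 : ℕ).factorial : ℤ)))
    (fun p hp _ h => by
      exfalso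
      rw [cf_zero] at h
      have h1 : (p : ℤ) ∣ ((1 : ℕ) : ℤ) := by exact_mod_cast h
      have h2 := Int.natCast_dvd_natCast.1 h1
      exact hp.one_lt.ne' (Nat.dvd_one.1 h2)) δ hδ' hloc
  rw [← hD] at hND
  have hpair := rep_isPair hbf
  obtain ⟨P, hP, hPdet, hPA, hPB⟩ := BG.majorant (by omega) c hF δ hδ A₀ B₀ hpair M hM
  obtain ⟨U, hU, hsort, hprod⟩ := hred P hP
  have hpair' := hpair.conj hU
  have hbf' := SC.IsPair.sc (BF.IsPair.conj hbf hU) hN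
  set Q := U.map (Int.cast : ℤ → ℝ) * P * (U.map (Int.cast : ℤ → ℝ))ᵀ with hQ
  have hQii : ∀ i, Q i i = (fun j => ((U i j : ℤ) : ℝ)) ⬝ᵥ P *ᵥ (fun j => ((U i j : ℤ) : ℝ)) := by
    intro i
    rw [hQ, rep_conj_apply]
    rfl
  have hQpos : ∀ i, 0 < Q i i := by
    intro i
    rw [hQii]
    have h1 := hP.dotProduct_mulVec_pos (rep_row_ne U hU i)
    simpa using h1
  have hdetA : (U * A₀ * Uᵀ).det = A₀.det := by
    rw [det_mul, det_mul, det_transpose]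
    have h1 : U.det * U.det = 1 := by
      rcases Int.isUnit_iff.1 hU with h | h <;> rw [h] <;> norm_num
    calc U.det * A₀.det * U.det = U.det * U.det * A₀.det := by ring
      _ = A₀.det := by rw [h1, one_mul]
  have hcastA : ∀ (A' : Matrix (Fin n) (Fin n) ℤ) (i j : Fin n),
      (((U * A' * Uᵀ) i j : ℤ) : ℝ) = (fun j => ((U i j : ℤ) : ℝ)) ⬝ᵥ
        (A'.map (Int.cast : ℤ → ℝ)) *ᵥ (fun k => ((U j k : ℤ) : ℝ)) := by
    intro A' i j
    rw [rep_conj_apply]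
    simp only [dotProduct, mulVec, Matrix.map_apply]
    push_cast
    rfl
  have hdetD : |(A₀.det : ℝ)| ≤ (D : ℝ) ^ 2 := by
    rw [hdet, cf_zero]
    push_cast
    rw [mul_one, abs_mul, abs_pow, abs_neg, abs_one, one_pow, one_mul, abs_of_nonneg (by positivity)]
    have : (N : ℝ) ≤ D := by exact_mod_cast hND
    gcongr
  refine ⟨N, U * A₀ * Uᵀ, U * B₀ * Uᵀ, fun i => √(Q i i), hN, hND, ?_, hpair', hbf', ?_⟩
  · refine ⟨hpair'.symmA, hpair'.symmB, hpair'.hasChar hδ, fun i => Real.sqrt_pos.2 (hQpos i),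
      ?_, ?_, ?_, ?_⟩
    · intro i j
      rw [hcastA, ← Real.sqrt_mul (hQpos i).le]
      apply Real.abs_le_sqrt
      rw [hQii i, hQii j]
      exact hPA _ _
    · intro i j
      rw [hcastA, ← Real.sqrt_mul (hQpos i).le]
      have h1 : M * √(Q i i * Q j j) = √(M ^ 2 * (Q i i * Q j j)) := by
        rw [Real.sqrt_mul (sq_nonneg M), Real.sqrt_sq hM0]
      rw [h1]
      apply Real.abs_le_sqrt
      rw [hQii i, hQii j]
      exact hPB _ _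
    · intro i j hij
      exact Real.sqrt_le_sqrt (hsort i j hij)
    · rw [← Real.sqrt_prod _ (fun i _ => (hQpos i).le)]
      apply Real.sqrt_le_sqrt
      refine hprod.trans ?_
      rw [hPdet]
      gcongr
  · rw [hdetA, hdet]
    rfl

end Stoll308.NE
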