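import Pool.Agent.Work.MP_308fa9_nt.NE.Basic
import Pool.Agent.Work.MP_308fa9_nt.DQ.NotGood

set_option autoImplicit false

/-!
A constant of odd valuation is a good class only if the polynomial is a square modulo `p`.
-/

namespace Stoll308.NE

open Polynomial Finset Matrix BG SC

namespace SqDet

open SelfDual

variable {p : ℕ} [hp : Fact p.Prime] {n : ℕ}

lemma norm_sum_le_one {ι : Type*} (s : Finset ι) (f : ι → ℚ_[p]) (h : ∀ i ∈ s, ‖f i‖ ≤ 1) :
    ‖∑ i ∈ s, f i‖ ≤ 1 :=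
  IsUltrametricDist.norm_sum_le_of_forall_le_of_nonneg zero_le_one h

lemma dot_symm (S : Matrix (Fin n) (Fin n) ℚ_[p]) (hS : S.IsSymm) (v u : Fin n → ℚ_[p]) :
    v ⬝ᵥ (S *ᵥ u) = u ⬝ᵥ (S *ᵥ v) := by
  rw [dotProduct_mulVec, ← mulVec_transpose, hS.eq, dotProduct_comm]

/-- the dual of the rows of `G` -/
def Ld (S G : Matrix (Fin n) (Fin n) ℚ_[p]) : Submodule ℤ_[p] (Fin n → ℚ_[p]) where
  carrier := {v | ∀ i, ‖v ⬝ᵥ (S *ᵥ G i)‖ ≤ 1}
  add_mem' := by
    intro v w hv hw i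
    rw [add_dotProduct]
    exact MaxLat.norm_add_le_of (hv i) (hw i)
  zero_mem' := by
    intro i
    rw [zero_dotProduct, norm_zero]
    exact zero_le_one
  smul_mem' := by
    intro z v hv i
    have h1 : (z • v) ⬝ᵥ (S *ᵥ G i) = (algebraMap ℤ_[p] ℚ_[p] z) * (v ⬝ᵥ (S *ᵥ G i)) := by
      rw [smul_dotProduct, Algebra.smul_def]
    rw [h1]
    exact MaxLat.norm_smul_le_of z (hv i)

lemma mem_Ld (S G : Matrix (Fin n) (Fin n) ℚ_[p]) (v : Fin n → ℚ_[p]) :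
    v ∈ Ld S G ↔ ∀ i, ‖v ⬝ᵥ (S *ᵥ G i)‖ ≤ 1 := Iff.rfl

/-- the elements of a unimodular lattice are integral combinations of the basis -/
lemma span_of_mem (S G : Matrix (Fin n) (Fin n) ℚ_[p]) (hG : G.det ≠ 0)
    (h1 : ∀ i j, ‖(G * S * Gᵀ) i j‖ ≤ 1) (h2 : ‖(G * S * Gᵀ).det‖ = 1) (v : Fin n → ℚ_[p])
    (hv : v ∈ Ld S G) : ∃ z : Fin n → ℚ_[p], (∀ i, ‖z i‖ ≤ 1) ∧ v = z ᵥ* G := by
  rw [mem_Ld] at hv
  have hex : ∀ i j, ∃ z : ℤ_[p], (G * S * Gᵀ) i j = algebraMap ℤ_[p] ℚ_[p] z :=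
    fun i j => ⟨⟨(G * S * Gᵀ) i j, h1 i j⟩, rfl⟩
  choose Z hZ using hex
  obtain ⟨Z', hZ'⟩ : ∃ Z' : Matrix (Fin n) (Fin n) ℤ_[p], Z' = Matrix.of Z := ⟨_, rfl⟩
  have hA : G * S * Gᵀ = Z'.map (algebraMap ℤ_[p] ℚ_[p]) := by
    ext i j
    rw [Matrix.map_apply, hZ', Matrix.of_apply, ← hZ]
  have hdet : IsUnit Z'.det := by
    rw [PadicInt.isUnit_iff]
    have e1 : (Z'.map (algebraMap ℤ_[p] ℚ_[p])).det = algebraMap ℤ_[p] ℚ_[p] Z'.det := by
      rw [RingHom.map_det, RingHom.mapMatrix_apply]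
    rw [hA, e1] at h2
    exact h2
  have hinv : (G * S * Gᵀ) * Z'⁻¹.map (algebraMap ℤ_[p] ℚ_[p]) = 1 := by
    rw [hA, ← Matrix.map_mul, Matrix.mul_nonsing_inv _ hdet,
      Matrix.map_one _ (map_zero _) (map_one _)]
  have hGu : IsUnit G.det := hG.isUnit
  -- `(S Gᵀ) A⁻¹ G = 1`
  have hinv2 : (S * Gᵀ) * Z'⁻¹.map (algebraMap ℤ_[p] ℚ_[p]) * G = 1 := by
    have e1 : G * ((S * Gᵀ) * Z'⁻¹.map (algebraMap ℤ_[p] ℚ_[p]) * G) = G * 1 := by
      have e2 : G * ((S * Gᵀ) * Z'⁻¹.map (algebraMap ℤ_[p] ℚ_[p]) * G) =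
          ((G * S * Gᵀ) * Z'⁻¹.map (algebraMap ℤ_[p] ℚ_[p])) * G := by
        simp only [Matrix.mul_assoc]
      rw [e2, hinv, Matrix.one_mul, Matrix.mul_one]
    have e3 := congrArg (fun M => G⁻¹ * M) e1
    rw [Matrix.nonsing_inv_mul_cancel_left _ _ hGu,
      Matrix.nonsing_inv_mul_cancel_left _ _ hGu] at e3
    exact e3
  obtain ⟨y, hy⟩ : ∃ y : Fin n → ℚ_[p], y = v ᵥ* (S * Gᵀ) := ⟨_, rfl⟩
  have hy1 : ∀ i, ‖y i‖ ≤ 1 := by
    intro i
    have e1 : y i = v ⬝ᵥ (S *ᵥ G i) := by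
      rw [hy, ← vecMul_vecMul, dotProduct_mulVec]
      rfl
    rw [e1]
    exact hv i
  refine ⟨y ᵥ* Z'⁻¹.map (algebraMap ℤ_[p] ℚ_[p]), ?_, ?_⟩
  · intro i
    rw [vecMul, dotProduct]
    apply norm_sum_le_one
    intro j _
    rw [norm_mul, Matrix.map_apply]
    exact mul_le_one₀ (hy1 j) (norm_nonneg _) (PadicInt.norm_le_one _)
  · rw [hy, vecMul_vecMul, vecMul_vecMul, ← Matrix.mul_assoc, hinv2, vecMul_one]

/-- the value of an integral form on integral combinations -/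
lemma value_int (G T : Matrix (Fin n) (Fin n) ℚ_[p]) (h : ∀ i j, ‖(G * T * Gᵀ) i j‖ ≤ 1)
    (z z' : Fin n → ℚ_[p]) (hz : ∀ i, ‖z i‖ ≤ 1) (hz' : ∀ i, ‖z' i‖ ≤ 1) :
    ‖(z ᵥ* G) ⬝ᵥ (T *ᵥ (z' ᵥ* G))‖ ≤ 1 := by
  have e : (z ᵥ* G) ⬝ᵥ (T *ᵥ (z' ᵥ* G)) = z ⬝ᵥ ((G * T * Gᵀ) *ᵥ z') := by
    rw [← mulVec_mulVec, ← mulVec_mulVec, dotProduct_mulVec z, mulVec_transpose]
  rw [e, dotProduct]
  apply norm_sum_le_one
  intro i _
  rw [norm_mul, mulVec, dotProduct]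
  refine mul_le_one₀ (hz i) (norm_nonneg _) ?_
  apply norm_sum_le_one
  intro j _
  rw [norm_mul]
  exact mul_le_one₀ (h i j) (norm_nonneg _) (hz' j)

lemma C_norm (c : ℚ_[p]) (hc : c ≠ 0) (g : ℚ_[p][X]) : IsCoprime (C c) g := by
  refine ⟨C c⁻¹, 0, ?_⟩
  rw [← C_mul, inv_mul_cancel₀ hc, C_1, zero_mul, add_zero]

/-- the main argument, for the constant `p` -/
lemma main (g : ℤ_[p][X]) (hg : g.Monic) (hgn : g.natDegree = n)
    (h : Good p n (toQ g) (C (p : ℚ_[p]))) :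
    ∃ k : (ZMod p)[X], g.map (PadicInt.toZMod : ℤ_[p] →+* ZMod p) = k ^ 2 := by
  have hp0 : (p : ℚ_[p]) ≠ 0 := by exact_mod_cast hp.out.ne_zero
  have hpz : (p : ℤ_[p]) ≠ 0 := by exact_mod_cast hp.out.ne_zero
  have hF : (toQ g).Monic := hg.map _
  have hFn : (toQ g).natDegree = n := by rw [hg.natDegree_map, hgn]
  obtain ⟨φ, hφ⟩ : ∃ φ : ℤ_[p] →+* ZMod p, φ = PadicInt.toZMod := ⟨_, rfl⟩
  have hφs : Function.Surjective φ := ZMod.ringHom_surjective φ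
  obtain ⟨G, hG0, hG1, hG2⟩ := h
  obtain ⟨S, hS⟩ : ∃ S : Matrix (Fin n) (Fin n) ℚ_[p], S = Hank n (toQ g) (C (p : ℚ_[p])) :=
    ⟨_, rfl⟩
  have hSs : S.IsSymm := hS ▸ hank_isSymm _ _
  have hS0 : S.det ≠ 0 := hS ▸ hank_det_ne_zero _ _ hF hFn (C_norm _ hp0 _)
  have hG1' : ∀ i j, ‖(G * S * Gᵀ) i j‖ ≤ 1 := by
    intro i j
    have := hG1 0 i j
    rw [pow_zero, one_mul, ← hS] at this
    exact this
  have hG2' : ‖(G * S * Gᵀ).det‖ = 1 := by rw [hS]; exact hG2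
  obtain ⟨L, hL⟩ : ∃ L, L = Ld S G := ⟨_, rfl⟩
  have hspan : ∀ v ∈ L, ∃ z : Fin n → ℚ_[p], (∀ i, ‖z i‖ ≤ 1) ∧ v = z ᵥ* G := by
    intro v hv
    rw [hL] at hv
    exact span_of_mem S G hG0 hG1' hG2' v hv
  have hrow : ∀ i, G i ∈ L := by
    intro i
    rw [hL, mem_Ld]
    intro j
    have := hG1' i j
    rwa [conj_apply] at this
  -- the forms are integral on the lattice
  have hval : ∀ (k : ℕ), ∀ v ∈ L, ∀ w ∈ L,
      ‖HankL.tau n (toQ g) (X ^ k * C (p : ℚ_[p]) * P v * P w)‖ ≤ 1 := by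
    intro k v hv w hw
    obtain ⟨z, hz, rfl⟩ := hspan v hv
    obtain ⟨z', hz', rfl⟩ := hspan w hw
    rw [← dot]
    exact value_int G _ (hG1 k) z z' hz hz'
  -- stability under integral polynomials
  have hstab : ∀ (a : ℤ_[p][X]), ∀ v ∈ L, ∀ w : Fin n → ℚ_[p],
      toQ g ∣ P w - toQ a * P v → w ∈ L := by
    intro a v hv w hw
    rw [hL, mem_Ld]
    intro i
    rw [hS, dot]
    have e1 : HankL.tau n (toQ g) (C (p : ℚ_[p]) * P w * P (G i)) =
        HankL.tau n (toQ g) (∑ k ∈ Finset.range (a.natDegree + 1),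
          C (algebraMap ℤ_[p] ℚ_[p] (a.coeff k)) * (X ^ k * C (p : ℚ_[p]) * P v * P (G i))) := by
      apply tau_congr _ _ _ hF
      have e2 : ∑ k ∈ Finset.range (a.natDegree + 1),
          C (algebraMap ℤ_[p] ℚ_[p] (a.coeff k)) * (X ^ k * C (p : ℚ_[p]) * P v * P (G i)) =
          toQ a * (C (p : ℚ_[p]) * P v * P (G i)) := by
        have e3 : toQ a = ∑ k ∈ Finset.range (a.natDegree + 1),
            C (algebraMap ℤ_[p] ℚ_[p] (a.coeff k)) * X ^ k := by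
          conv_lhs => rw [a.as_sum_range_C_mul_X_pow]
          rw [toQ, Polynomial.map_sum]
          refine Finset.sum_congr rfl fun k _ => ?_
          rw [Polynomial.map_mul, map_C, Polynomial.map_pow, map_X]
        rw [e3, Finset.sum_mul]
        refine Finset.sum_congr rfl fun k _ => ?_
        ring
      rw [e2]
      obtain ⟨s, hs⟩ := hw
      refine ⟨C (p : ℚ_[p]) * P (G i) * s, ?_⟩
      linear_combination (C (p : ℚ_[p]) * P (G i)) * hs
    rw [e1, map_sum]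
    apply norm_sum_le_one
    intro k _
    rw [← smul_eq_C_mul, map_smul, smul_eq_mul, norm_mul]
    exact mul_le_one₀ (PadicInt.norm_le_one _) (norm_nonneg _) (hval k v hv _ (hrow i))
  -- the sum of the two lattices
  obtain ⟨R, hR⟩ : ∃ R, R = MaxLat.ball p n 1 zero_le_one := ⟨_, rfl⟩
  have memR : ∀ v : Fin n → ℚ_[p], v ∈ R ↔ ∀ i, ‖v i‖ ≤ 1 := by
    intro v
    rw [hR]
    exact Iff.rfl
  obtain ⟨H, hH0, hH⟩ := exists_basis p (L ⊔ R) ⟨1, one_ne_zero, fun v hv => by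
    rw [one_smul]
    exact Submodule.mem_sup_right ((memR v).2 hv)⟩ ⟨(∑ j, ∑ i, ‖G j i‖) + 1, by
    intro v hv i
    obtain ⟨a, ha, b, hb, rfl⟩ := Submodule.mem_sup.1 hv
    obtain ⟨z, hz, rfl⟩ := hspan a ha
    rw [Pi.add_apply]
    refine (norm_add_le _ _).trans (add_le_add ?_ ((memR b).1 hb i))
    rw [vecMul, dotProduct]
    refine (norm_sum_le _ _).trans (Finset.sum_le_sum fun j _ => ?_)
    rw [norm_mul]
    calc ‖z j‖ * ‖G j i‖ ≤ 1 * ‖G j i‖ := by gcongr; exact hz j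
      _ = ‖G j i‖ := one_mul _
      _ ≤ ∑ i, ‖G j i‖ := Finset.single_le_sum (f := fun i => ‖G j i‖)
          (fun i _ => norm_nonneg _) (Finset.mem_univ i)⟩
  have hHu : IsUnit H.det := hH0.isUnit
  have hSu : IsUnit S.det := hS0.isUnit
  -- the dual basis
  obtain ⟨W, hW⟩ : ∃ W : Fin n → Fin n → ℚ_[p], W = fun j => S⁻¹ *ᵥ (H⁻¹ *ᵥ Pi.single j 1) :=
    ⟨_, rfl⟩
  have hSW : ∀ j, S *ᵥ W j = H⁻¹ *ᵥ Pi.single j 1 := by
    intro j
    rw [hW]
    simp only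
    rw [mulVec_mulVec, Matrix.mul_nonsing_inv _ hSu, one_mulVec]
  have hWM : ∀ m ∈ L ⊔ R, ∀ j, ‖m ⬝ᵥ (S *ᵥ W j)‖ ≤ 1 := by
    intro m hm j
    obtain ⟨c, hc, rfl⟩ := (hH m).1 hm
    rw [hSW, ← dotProduct_mulVec, mulVec_mulVec, Matrix.mul_nonsing_inv _ hHu, one_mulVec,
      dotProduct_single, mul_one]
    exact hc j
  have hWL : ∀ j, W j ∈ L := by
    intro j
    rw [hL, mem_Ld]
    intro i
    rw [dot_symm S hSs]
    exact hWM _ (Submodule.mem_sup_left (hrow i)) j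
  have hWR : ∀ j, ∃ z : Fin n → ℤ_[p], C (p : ℚ_[p]) * P (W j) = toQ (P z) := by
    intro j
    have h1 : ∀ i, ‖((p : ℚ_[p]) • W j) i‖ ≤ 1 := by
      apply int_of_tau g hg hgn
      intro i
      have h2 := hWM (Pi.single i 1) (Submodule.mem_sup_right ((memR _).2 (by
        intro i'
        by_cases hi : i' = i
        · rw [hi, Pi.single_eq_same, norm_one]
        · rw [Pi.single_eq_of_ne hi, norm_zero]
          exact zero_le_one))) j
      have e2 : P (Pi.single i 1 : Fin n → ℚ_[p]) = X ^ (i : ℕ) := by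
        rw [P, Finset.sum_eq_single i]
        · rw [Pi.single_eq_same, C_1, one_mul]
        · intro b _ hb
          rw [Pi.single_eq_of_ne hb, C_0, zero_mul]
        · intro h
          exact absurd (Finset.mem_univ _) h
      rw [hS, dot, e2] at h2
      rw [MaxLat.P_smul]
      have e3 : C (p : ℚ_[p]) * P (W j) * X ^ (i : ℕ) =
          C (p : ℚ_[p]) * X ^ (i : ℕ) * P (W j) := by ring
      rw [e3]
      exact h2
    obtain ⟨z, hz⟩ := MaxLat.exists_int _ h1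
    exact ⟨z, by rw [← hz, MaxLat.P_smul]⟩
  -- the ideal
  obtain ⟨I, hI⟩ : ∃ I : Ideal (ZMod p)[X], ∀ a, a ∈ I ↔ ∃ (b : ℤ_[p][X]) (w : Fin n → ℚ_[p]),
      b.map φ = a ∧ w ∈ L ∧ toQ g ∣ C (p : ℚ_[p]) * P w - toQ b := by
    refine ⟨{ carrier := {a | ∃ (b : ℤ_[p][X]) (w : Fin n → ℚ_[p]),
                b.map φ = a ∧ w ∈ L ∧ toQ g ∣ C (p : ℚ_[p]) * P w - toQ b}
              add_mem' := ?_
              zero_mem' := ?_
              smul_mem' := ?_ }, fun a => Iff.rfl⟩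
    · rintro a a' ⟨b, w, rfl, hw, hb⟩ ⟨b', w', rfl, hw', hb'⟩
      refine ⟨b + b', w + w', Polynomial.map_add _, L.add_mem hw hw', ?_⟩
      have e1 : C (p : ℚ_[p]) * P (w + w') - toQ (b + b') =
          (C (p : ℚ_[p]) * P w - toQ b) + (C (p : ℚ_[p]) * P w' - toQ b') := by
        rw [MaxLat.P_add, toQ, Polynomial.map_add]
        ring
      rw [e1]
      exact dvd_add hb hb'
    · refine ⟨0, 0, Polynomial.map_zero _, L.zero_mem, ?_⟩
      have e1 : P (0 : Fin n → ℚ_[p]) = 0 := by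
        simp only [P, Pi.zero_apply, C_0, zero_mul, Finset.sum_const_zero]
      have e2 : toQ (0 : ℤ_[p][X]) = 0 := Polynomial.map_zero _
      rw [e1, e2, mul_zero, sub_zero]
      exact dvd_zero _
    · rintro c a ⟨b, w, rfl, hw, hb⟩
      obtain ⟨c0, rfl⟩ := Polynomial.map_surjective φ hφs c
      obtain ⟨w', hw'⟩ := exists_vec (n := n) (toQ g) hF hFn (toQ c0 * P w)
      refine ⟨c0 * b, w', by rw [Polynomial.map_mul, smul_eq_mul], hstab c0 w hw w' hw', ?_⟩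
      have e1 : C (p : ℚ_[p]) * P w' - toQ (c0 * b) =
          C (p : ℚ_[p]) * (P w' - toQ c0 * P w) + toQ c0 * (C (p : ℚ_[p]) * P w - toQ b) := by
        rw [toQ, toQ, toQ, Polynomial.map_mul]
        ring
      rw [e1]
      exact dvd_add (Dvd.dvd.mul_left hw' _) (Dvd.dvd.mul_left hb _)
  -- the product of two elements of the ideal is zero
  have claim1 : ∀ a ∈ I, ∀ a' ∈ I, g.map φ ∣ a * a' := by
    intro a ha a' ha'
    obtain ⟨b, w, rfl, hw, hb⟩ := (hI _).1 ha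
    obtain ⟨b', w', rfl, hw', hb'⟩ := (hI _).1 ha'
    obtain ⟨q, hq⟩ := exists_vec (n := n) (toQ g) hF hFn (C (p : ℚ_[p]) * P w * P w')
    have hqi : ∀ i, ‖q i‖ ≤ 1 := by
      apply int_of_tau g hg hgn
      intro i
      have e1 : HankL.tau n (toQ g) (P q * X ^ (i : ℕ)) =
          HankL.tau n (toQ g) (X ^ (i : ℕ) * C (p : ℚ_[p]) * P w * P w') := by
        apply tau_congr _ _ _ hF
        obtain ⟨s, hs⟩ := hq
        refine ⟨X ^ (i : ℕ) * s, ?_⟩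
        linear_combination (X ^ (i : ℕ)) * hs
      rw [e1]
      exact hval _ w hw w' hw'
    obtain ⟨z, hz⟩ := MaxLat.exists_int q hqi
    have h1 : g ∣ C (p : ℤ_[p]) * P z - b * b' := by
      apply toQ_dvd hg
      obtain ⟨s, hs⟩ := hq
      obtain ⟨t, ht⟩ := hb
      obtain ⟨t', ht'⟩ := hb'
      rw [hz] at hs
      refine ⟨C (p : ℚ_[p]) * s + C (p : ℚ_[p]) * P w * t' + toQ b' * t, ?_⟩
      have e1 : toQ (C (p : ℤ_[p]) * P z - b * b') = C (p : ℚ_[p]) * toQ (P z) - toQ b * toQ b' := by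
        rw [toQ, toQ, toQ, toQ, Polynomial.map_sub, Polynomial.map_mul, Polynomial.map_mul, map_C,
          map_natCast]
      rw [e1]
      linear_combination (C (p : ℚ_[p])) * hs + (C (p : ℚ_[p]) * P w) * ht' + (toQ b') * ht
    have h2 := Polynomial.map_dvd φ h1
    rw [Polynomial.map_sub, Polynomial.map_mul, Polynomial.map_mul, map_C, map_natCast,
      CharP.cast_eq_zero, C_0, zero_mul, zero_sub, dvd_neg] at h2
    exact h2
  -- the annihilator of the ideal is contained in the ideal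
  have claim2 : ∀ c : (ZMod p)[X], (∀ a ∈ I, g.map φ ∣ c * a) → c ∈ I := by
    intro c hc
    obtain ⟨c0, rfl⟩ := Polynomial.map_surjective φ hφs c
    obtain ⟨v, hv⟩ := exists_vec (n := n) (toQ g) hF hFn (C (p : ℚ_[p])⁻¹ * toQ c0)
    have hpC : C (p : ℚ_[p]) * C (p : ℚ_[p])⁻¹ = 1 := by
      rw [← C_mul, mul_inv_cancel₀ hp0, C_1]
    have hv' : toQ g ∣ C (p : ℚ_[p]) * P v - toQ c0 := by
      obtain ⟨s, hs⟩ := hv
      refine ⟨C (p : ℚ_[p]) * s, ?_⟩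
      linear_combination (C (p : ℚ_[p])) * hs + (toQ c0) * hpC
    have hvz : ∀ j, ‖v ⬝ᵥ (S *ᵥ W j)‖ ≤ 1 := by
      intro j
      obtain ⟨z, hz⟩ := hWR j
      have h1 : (P z).map φ ∈ I := by
        rw [hI]
        exact ⟨P z, W j, rfl, hWL j, by rw [hz, sub_self]; exact dvd_zero _⟩
      obtain ⟨s, hs⟩ := hc _ h1
      obtain ⟨s0, rfl⟩ := Polynomial.map_surjective φ hφs s
      -- `c0 z - g s0` is divisible by `p`
      have h2 : ∃ t : ℤ_[p][X], c0 * P z - g * s0 = C (p : ℤ_[p]) * t := by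
        have h3 : (c0 * P z - g * s0).map φ = 0 := by
          rw [Polynomial.map_sub, Polynomial.map_mul, Polynomial.map_mul, hs, sub_self]
        have h4 : C (p : ℤ_[p]) ∣ c0 * P z - g * s0 := by
          rw [Polynomial.C_dvd_iff_dvd_coeff]
          intro i
          have h5 := congrArg (fun q => q.coeff i) h3
          simp only [coeff_map, coeff_zero] at h5
          have h6 : (c0 * P z - g * s0).coeff i ∈ RingHom.ker (PadicInt.toZMod : ℤ_[p] →+* ZMod p) := by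
            rw [RingHom.mem_ker, ← hφ]
            exact h5
          rw [PadicInt.ker_toZMod, PadicInt.maximalIdeal_eq_span_p,
            Ideal.mem_span_singleton] at h6
          exact h6
        exact h4
      obtain ⟨t, ht⟩ := h2
      have e1 : HankL.tau n (toQ g) (C (p : ℚ_[p]) * P v * P (W j)) =
          HankL.tau n (toQ g) (toQ t) := by
        apply tau_congr _ _ _ hF
        obtain ⟨r, hr⟩ := hv'
        have ht' : toQ c0 * toQ (P z) - toQ g * toQ s0 = C (p : ℚ_[p]) * toQ t := by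
          have := congrArg toQ ht
          rw [toQ, toQ, Polynomial.map_sub, Polynomial.map_mul, Polynomial.map_mul,
            Polynomial.map_mul, map_C, map_natCast] at this
          exact this
        refine ⟨r * P (W j) + C (p : ℚ_[p])⁻¹ * toQ s0, ?_⟩
        linear_combination (P (W j)) * hr + (C (p : ℚ_[p])⁻¹) * ht' +
          (C (p : ℚ_[p])⁻¹ * toQ c0) * hz + (toQ t - P (W j) * toQ c0) * hpC
      rw [hS, dot, e1]
      exact tau_int g t hg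
    have hvM : v ∈ L ⊔ R := by
      rw [hH]
      refine ⟨v ᵥ* H⁻¹, ?_, ?_⟩
      · intro j
        have h1 := hvz j
        rw [hSW, dotProduct_mulVec, dotProduct_single, mul_one] at h1
        exact h1
      · rw [vecMul_vecMul, Matrix.nonsing_inv_mul _ hHu, vecMul_one]
    obtain ⟨l, hl, r, hr, rfl⟩ := Submodule.mem_sup.1 hvM
    obtain ⟨r', hr'⟩ := MaxLat.exists_int r ((memR r).1 hr)
    rw [hI]
    refine ⟨c0 - C (p : ℤ_[p]) * P r', l, ?_, hl, ?_⟩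
    · rw [Polynomial.map_sub, Polynomial.map_mul, map_C, map_natCast, CharP.cast_eq_zero, C_0,
        zero_mul, sub_zero]
    · have e1 : C (p : ℚ_[p]) * P l - toQ (c0 - C (p : ℤ_[p]) * P r') =
          C (p : ℚ_[p]) * P (l + r) - toQ c0 := by
        have e2 : toQ (c0 - C (p : ℤ_[p]) * P r') = toQ c0 - C (p : ℚ_[p]) * toQ (P r') := by
          rw [toQ, toQ, toQ, Polynomial.map_sub, Polynomial.map_mul, map_C, map_natCast]
        rw [e2, ← hr', MaxLat.P_add]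
        ring
      rw [e1]
      exact hv'
  -- the generator
  have hgI : g.map φ ∈ I := by
    rw [hI]
    refine ⟨g, 0, rfl, L.zero_mem, ?_⟩
    have e1 : P (0 : Fin n → ℚ_[p]) = 0 := by
      simp only [P, Pi.zero_apply, C_0, zero_mul, Finset.sum_const_zero]
    rw [e1, mul_zero, zero_sub, dvd_neg]
  have hgm : (g.map φ).Monic := hg.map _
  have hgen : ∃ k : (ZMod p)[X], k.Monic ∧ ∀ a, a ∈ I ↔ k ∣ a := by
    have h1 : Submodule.IsPrincipal I := inferInstance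
    obtain ⟨k, hk⟩ := h1
    have hk' : ∀ a, a ∈ I ↔ k ∣ a := by
      intro a
      rw [hk]
      exact Ideal.mem_span_singleton
    have hk0 : k ≠ 0 := by
      rintro rfl
      exact hgm.ne_zero (zero_dvd_iff.1 ((hk' _).1 hgI))
    refine ⟨normalize k, Polynomial.monic_normalize hk0, fun a => ?_⟩
    rw [hk' a, normalize_dvd_iff]
  obtain ⟨k, hkm, hk⟩ := hgen
  obtain ⟨m, hm⟩ := (hk _).1 hgI
  have h1 : g.map φ ∣ k * k := claim1 k ((hk k).2 dvd_rfl) k ((hk k).2 dvd_rfl)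
  have h2 : m ∈ I := by
    apply claim2
    intro a ha
    obtain ⟨s, hs⟩ := (hk a).1 ha
    refine ⟨s, ?_⟩
    rw [hs, hm]
    ring
  have h3 : k * k ∣ g.map φ := by
    rw [hm]
    exact mul_dvd_mul_left k ((hk m).1 h2)
  refine ⟨k, ?_⟩
  rw [← hφ, pow_two]
  exact Polynomial.eq_of_monic_of_associated hgm (hkm.mul hkm) (associated_of_dvd_dvd h1 h3)

end SqDet

theorem sq_of_good {n : ℕ} (hn : 1 ≤ n) (p : ℕ) [Fact p.Prime] (g : ℤ_[p][X]) (hg : g.Monic)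
    (hgn : g.natDegree = n) (u : ℚ_[p]) (hu : u ≠ 0) (ho : Odd u.valuation)
    (h : Good p n (toQ g) (C u)) :
    ∃ k : (ZMod p)[X], g.map (PadicInt.toZMod : ℤ_[p] →+* ZMod p) = k ^ 2 := by
  have hp0 : (p : ℚ_[p]) ≠ 0 := by exact_mod_cast (Fact.out : p.Prime).ne_zero
  have hG : (toQ g).Monic := hg.map _
  have hGn : (toQ g).natDegree = n := by rw [hg.natDegree_map, hgn]
  obtain ⟨j, hj⟩ := ho
  apply SqDet.main g hg hgn
  have hpj : (p : ℚ_[p]) ^ j ≠ 0 := zpow_ne_zero _ hp0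
  refine Good.congr hG hGn h ((p : ℚ_[p]) ^ u.valuation * u⁻¹) ?_ 1 (C ((p : ℚ_[p]) ^ j))
    isCoprime_one_left (SqDet.C_norm _ hpj _) ?_
  · rw [norm_mul, norm_inv, Padic.norm_eq_zpow_neg_valuation hu, norm_zpow, Padic.norm_p,
      _root_.inv_zpow, ← _root_.zpow_neg]
    apply mul_inv_cancel₀
    apply zpow_ne_zero
    exact_mod_cast (Fact.out : p.Prime).ne_zero
  · have e1 : C ((p : ℚ_[p]) ^ u.valuation * u⁻¹) * C u * 1 ^ 2 -
        C (p : ℚ_[p]) * C ((p : ℚ_[p]) ^ j) ^ 2 = 0 := by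
      rw [one_pow, mul_one, ← C_mul, ← C_pow, ← C_mul, ← C_sub, C_eq_zero, hj, mul_assoc,
        inv_mul_cancel₀ hu, mul_one, two_mul, zpow_add₀ hp0, zpow_add₀ hp0, zpow_one]
      ring
    rw [e1]
    exact dvd_zero _

end Stoll308.NE
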