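import Pool.Agent.Work.MP_308fa9_nt.NE.Basic
import Pool.Agent.Work.MP_308fa9_nt.BG.ElsC

set_option autoImplicit false

/-!
Few monic polynomials are squares modulo a large prime.
-/

namespace Stoll308.NE

open Polynomial Finset Matrix BG

/-- The box of the coefficients. -/
private noncomputable def box (n X : ℕ) : Finset (Fin n → ℤ) :=
  Fintype.piFinset fun i : Fin n => Els.itv X ((i : ℕ) + 1)

private lemma box_proj {n X : ℕ} {b : Fin n → ℤ} (hb : b ∈ box n X) :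
    Els.proj b ∈ Els.tset n X := by
  unfold box at hb
  unfold Els.tset
  rw [Fintype.mem_piFinset] at hb ⊢
  intro i
  unfold Els.proj
  have h1 := hb i
  split_ifs with hi
  · exact h1
  · exact mem_singleton_self _

open Classical in
private lemma card_sq_le {n : ℕ} (hn : 3 ≤ n) {X p : ℕ} (hp : p.Prime) (hp2 : p ≠ 2) :
    (((box n X).filter fun b => Els.SqRed 1 1 b p).card : ℝ) ≤ ((Els.tset n X).card : ℝ) *
      ((2 * X ^ (n - 1) / p + 2) * (2 * X ^ n / p + 2)) := by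
  have hp0 : (0 : ℝ) < p := by exact_mod_cast hp.pos
  have hp1 : (1 : ℝ) ≤ p := by exact_mod_cast hp.one_lt.le
  have := Fact.mk hp
  have hαp : ((1 : ℤ) : ZMod p) ≠ 0 := by
    rw [Int.cast_one]
    exact one_ne_zero
  apply Els.card_le_fiber _ _ Els.proj
  · intro b hb
    rw [mem_filter] at hb
    exact box_proj hb.1
  · intro c _
    rcases (((box n X).filter fun b => Els.SqRed 1 1 b p).filter
      fun b => Els.proj b = c).eq_empty_or_nonempty with h | ⟨b₀, hb₀⟩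
    · rw [h]
      simp only [card_empty, Nat.cast_zero]
      positivity
    · rw [mem_filter, mem_filter] at hb₀
      obtain ⟨⟨hb₀, hbad₀⟩, hc₀⟩ := hb₀
      set u : Fin n := ⟨n - 2, by omega⟩ with hu
      set v : Fin n := ⟨n - 1, by omega⟩ with hv
      have hle : (((box n X).filter fun b => Els.SqRed 1 1 b p).filter
          fun b => Els.proj b = c).card ≤
          (((Ioc (-(X : ℤ) ^ (n - 1) - 1) ((X : ℤ) ^ (n - 1))).filter
              fun x => (p : ℤ) ∣ x - b₀ u) ×ˢ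
            ((Ioc (-(X : ℤ) ^ n - 1) ((X : ℤ) ^ n)).filter
              fun d => (p : ℤ) ∣ d - b₀ v)).card := by
        apply card_le_card_of_injOn (fun b => (b u, b v))
        · intro b hb
          rw [mem_coe, mem_filter, mem_filter, box, Fintype.mem_piFinset] at hb
          obtain ⟨⟨hb, hbad⟩, hc⟩ := hb
          have huniq := Els.bad_uniq le_rfl hn hp2 hαp hbad hbad₀
            (fun i hi => Els.proj_eq (hc.trans hc₀.symm) i hi)
          have h1 := hb u
          have h2 := hb v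
          rw [Els.itv, mem_Icc] at h1 h2
          have hun : (u : ℕ) + 1 = n - 1 := by simp only [hu]; omega
          have hvn : (v : ℕ) + 1 = n := by simp only [hv]; omega
          rw [hun] at h1
          rw [hvn] at h2
          rw [mem_coe, mem_product]
          constructor
          · rw [mem_filter, mem_Ioc]
            exact ⟨⟨by linarith [h1.1], h1.2⟩, huniq u⟩
          · rw [mem_filter, mem_Ioc]
            exact ⟨⟨by linarith [h2.1], h2.2⟩, huniq v⟩
        · intro b hb b' hb' hbb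
          rw [mem_coe, mem_filter] at hb hb'
          simp only [Prod.mk.injEq] at hbb
          funext i
          by_cases hi : (i : ℕ) + 2 < n
          · exact Els.proj_eq (hb.2.trans hb'.2.symm) i hi
          · by_cases hi2 : (i : ℕ) = n - 2
            · have : i = u := Fin.ext hi2
              rw [this]
              exact hbb.1
            · have : i = v := Fin.ext (by simp only [hv]; have := i.2; omega)
              rw [this]
              exact hbb.2
      rw [card_product] at hle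
      have hX0 : (0 : ℤ) ≤ (X : ℤ) ^ (n - 1) := by positivity
      have hX0' : (0 : ℤ) ≤ (X : ℤ) ^ n := by positivity
      have hpz : (0 : ℤ) < p := by exact_mod_cast hp.pos
      have h1 := BE.ap_card_le (-(X : ℤ) ^ (n - 1) - 1) ((X : ℤ) ^ (n - 1)) p (b₀ u)
        hpz (by linarith)
      have h2 := BE.ap_card_le (-(X : ℤ) ^ n - 1) ((X : ℤ) ^ n) p (b₀ v)
        hpz (by linarith)
      have hle' : ((((box n X).filter fun b => Els.SqRed 1 1 b p).filter
          fun b => Els.proj b = c).card : ℝ) ≤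
          (((Ioc (-(X : ℤ) ^ (n - 1) - 1) ((X : ℤ) ^ (n - 1))).filter
              fun x => (p : ℤ) ∣ x - b₀ u).card : ℝ) *
            (((Ioc (-(X : ℤ) ^ n - 1) ((X : ℤ) ^ n)).filter
              fun d => (p : ℤ) ∣ d - b₀ v).card : ℝ) := by
        exact_mod_cast hle
      refine hle'.trans ?_
      push_cast at h1 h2 ⊢
      have h4 : 1 / (p : ℝ) ≤ 1 := by
        rw [div_le_one hp0]
        exact hp1
      have key : ∀ y : ℝ, (y - (-y - 1)) / p + 1 ≤ 2 * y / p + 2 := by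
        intro y
        have h3 : (y - (-y - 1)) / p = 2 * y / p + 1 / p := by ring
        rw [h3]
        linarith
      exact mul_le_mul (h1.trans (key _)) (h2.trans (key _)) (Nat.cast_nonneg _) (by positivity)

open Classical in
private lemma card_zero_le {n : ℕ} (hn : 3 ≤ n) (X : ℕ) :
    (((box n X).filter fun b => Els.NN 1 b = 0).card : ℝ) ≤
      ((Els.tset n X).card : ℝ) * (2 * X ^ (n - 1) + 1) := by
  apply Els.card_le_fiber _ _ Els.proj
  · intro b hb
    rw [mem_filter] at hb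
    exact box_proj hb.1
  · intro c _
    set u : Fin n := ⟨n - 2, by omega⟩ with hu
    rw [← Els.card_itv X (n - 1)]
    have hle : (((box n X).filter fun b => Els.NN 1 b = 0).filter
        fun b => Els.proj b = c).card ≤ (Els.itv X (n - 1)).card := by
      apply card_le_card_of_injOn (fun b => b u)
      · intro b hb
        rw [mem_coe, mem_filter, mem_filter, box, Fintype.mem_piFinset] at hb
        have h1 := hb.1.1 u
        have hun : (u : ℕ) + 1 = n - 1 := by simp only [hu]; omega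
        rw [hun] at h1
        exact h1
      · intro b hb b' hb' hbb
        rw [mem_coe, mem_filter, mem_filter] at hb hb'
        simp only at hbb
        apply Els.NN_inj (by omega) one_ne_zero hb.1.2 hb'.1.2
        intro i hi
        by_cases hi2 : (i : ℕ) + 2 < n
        · exact Els.proj_eq (hb.2.trans hb'.2.symm) i hi2
        · have : i = u := Fin.ext (by simp only [hu]; omega)
          rw [this]
          exact hbb
    exact_mod_cast hle

open Classical in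
private lemma sum_sq_le {n : ℕ} (hn : 3 ≤ n) {X Q A : ℕ} (hX : 1 ≤ X) (hQ : 2 ≤ Q) (hA : 1 ≤ A)
    (hQX : Q ≤ A * X ^ n) :
    ∑ p ∈ (Ioc Q (A * X ^ n)).filter Nat.Prime,
        (((box n X).filter fun b => Els.SqRed 1 1 b p).card : ℝ) ≤
      ((Els.tset n X).card : ℝ) *
        (4 * X ^ (2 * n - 1) / Q + 12 * A * (A + n + 1) * X ^ (n + 1)) := by
  have hX1 : (1 : ℝ) ≤ X := by exact_mod_cast hX
  have hA1 : (1 : ℝ) ≤ A := by exact_mod_cast hA
  have hQ0 : (0 : ℝ) < Q := by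
    have : 0 < Q := by omega
    exact_mod_cast this
  have hT : (0 : ℝ) ≤ ((Els.tset n X).card : ℝ) := Nat.cast_nonneg _
  have h1 : ∑ p ∈ (Ioc Q (A * X ^ n)).filter Nat.Prime,
        (((box n X).filter fun b => Els.SqRed 1 1 b p).card : ℝ) ≤
      ∑ p ∈ (Ioc Q (A * X ^ n)).filter Nat.Prime, ((Els.tset n X).card : ℝ) *
        (4 * X ^ (2 * n - 1) * ((p : ℝ) ^ 2)⁻¹ + 12 * A * X ^ n * (p : ℝ)⁻¹) := by
    apply sum_le_sum
    intro p hp
    rw [mem_filter, mem_Ioc] at hp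
    have hp0 : (0 : ℝ) < p := by exact_mod_cast hp.2.pos
    have hpX : (p : ℝ) ≤ A * (X : ℝ) ^ n := by exact_mod_cast hp.1.2
    refine (card_sq_le hn hp.2 (by omega)).trans ?_
    apply mul_le_mul_of_nonneg_left _ hT
    have e0 : (X : ℝ) ^ (n - 1) * X ^ n = X ^ (2 * n - 1) := by
      rw [← pow_add]
      congr 1
      omega
    calc (2 * (X : ℝ) ^ (n - 1) / p + 2) * (2 * X ^ n / p + 2)
        = 4 * (X ^ (n - 1) * X ^ n) * ((p : ℝ) ^ 2)⁻¹ + 4 * X ^ (n - 1) * (p : ℝ)⁻¹ +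
          4 * (X ^ n * (p : ℝ)⁻¹) + 4 := by
          field_simp
          ring
      _ = 4 * X ^ (2 * n - 1) * ((p : ℝ) ^ 2)⁻¹ + 4 * X ^ (n - 1) * (p : ℝ)⁻¹ +
          4 * (X ^ n * (p : ℝ)⁻¹) + 4 := by rw [e0]
      _ ≤ 4 * X ^ (2 * n - 1) * ((p : ℝ) ^ 2)⁻¹ + 4 * X ^ n * (p : ℝ)⁻¹ +
          4 * (X ^ n * (p : ℝ)⁻¹) + 4 * (A * X ^ n * (p : ℝ)⁻¹) := by
          have e1 : (X : ℝ) ^ (n - 1) ≤ X ^ n := pow_le_pow_right₀ hX1 (by omega)
          have e3 : (1 : ℝ) ≤ A * X ^ n * (p : ℝ)⁻¹ := by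
            rw [← div_eq_mul_inv, le_div_iff₀ hp0, one_mul]
            exact hpX
          have e5 : 4 * (X : ℝ) ^ (n - 1) * (p : ℝ)⁻¹ ≤ 4 * X ^ n * (p : ℝ)⁻¹ := by gcongr
          linarith
      _ ≤ 4 * X ^ (2 * n - 1) * ((p : ℝ) ^ 2)⁻¹ + 12 * A * X ^ n * (p : ℝ)⁻¹ := by
          have e7 : (0 : ℝ) ≤ (X : ℝ) ^ n * (p : ℝ)⁻¹ := by positivity
          have e8 : 1 * ((X : ℝ) ^ n * (p : ℝ)⁻¹) ≤ A * ((X : ℝ) ^ n * (p : ℝ)⁻¹) := by gcongr
          linarith
  have h2 : ∑ p ∈ (Ioc Q (A * X ^ n)).filter Nat.Prime, ((Els.tset n X).card : ℝ) *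
        (4 * X ^ (2 * n - 1) * ((p : ℝ) ^ 2)⁻¹ + 12 * A * X ^ n * (p : ℝ)⁻¹) ≤
      ∑ p ∈ Ioc Q (A * X ^ n), ((Els.tset n X).card : ℝ) *
        (4 * X ^ (2 * n - 1) * ((p : ℝ) ^ 2)⁻¹ + 12 * A * X ^ n * (p : ℝ)⁻¹) := by
    apply sum_le_sum_of_subset_of_nonneg (filter_subset _ _)
    intro p _ _
    positivity
  have h3 : ∑ p ∈ Ioc Q (A * X ^ n), (((p : ℕ) : ℝ) ^ 2)⁻¹ ≤ 1 / Q := by
    have h := sum_Ioc_inv_sq_le_sub (α := ℝ) (k := Q) (n := A * X ^ n) (by omega) hQX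
    have h4 : (0 : ℝ) ≤ (((A * X ^ n : ℕ) : ℕ) : ℝ)⁻¹ := by positivity
    rw [one_div]
    linarith
  have h4 : ∑ p ∈ Ioc Q (A * X ^ n), ((p : ℕ) : ℝ)⁻¹ ≤ (A + n + 1) * X := by
    have h5 : ∑ p ∈ Ioc Q (A * X ^ n), ((p : ℕ) : ℝ)⁻¹ ≤
        ∑ p ∈ Icc 1 (A * X ^ n), ((p : ℕ) : ℝ)⁻¹ := by
      apply sum_le_sum_of_subset_of_nonneg
      · intro p hp
        rw [mem_Ioc] at hp
        rw [mem_Icc]
        omega
      · intro p _ _
        positivity
    have h6 : ((harmonic (A * X ^ n) : ℚ) : ℝ) = ∑ p ∈ Icc 1 (A * X ^ n), ((p : ℕ) : ℝ)⁻¹ := by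
      rw [harmonic_eq_sum_Icc]
      push_cast
      rfl
    have h7 := harmonic_le_one_add_log (A * X ^ n)
    rw [h6] at h7
    have h8 : Real.log ((A * X ^ n : ℕ) : ℝ) = Real.log A + n * Real.log X := by
      push_cast
      rw [Real.log_mul (by positivity) (by positivity), Real.log_pow]
    rw [h8] at h7
    have h9 := Real.log_le_sub_one_of_pos (show (0 : ℝ) < X by linarith)
    have h10 := Real.log_le_sub_one_of_pos (show (0 : ℝ) < A by linarith)
    have hn0 : (0 : ℝ) ≤ n := Nat.cast_nonneg _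
    have h11 : (n : ℝ) * Real.log X ≤ n * (X - 1) := mul_le_mul_of_nonneg_left h9 hn0
    have h12 : (A : ℝ) * 1 ≤ A * X := by gcongr
    nlinarith
  refine h1.trans (h2.trans ?_)
  rw [← mul_sum, sum_add_distrib, ← mul_sum, ← mul_sum]
  apply mul_le_mul_of_nonneg_left _ hT
  calc 4 * (X : ℝ) ^ (2 * n - 1) * ∑ p ∈ Ioc Q (A * X ^ n), (((p : ℕ) : ℝ) ^ 2)⁻¹ +
        12 * A * X ^ n * ∑ p ∈ Ioc Q (A * X ^ n), ((p : ℕ) : ℝ)⁻¹
      ≤ 4 * X ^ (2 * n - 1) * (1 / Q) + 12 * A * X ^ n * ((A + n + 1) * X) := by gcongr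
    _ = 4 * X ^ (2 * n - 1) / Q + 12 * A * (A + n + 1) * X ^ (n + 1) := by
        rw [pow_succ]
        ring

private lemma card_tset_le (ν X : ℕ) (hX : 1 ≤ X) :
    ((Els.tset (ν + 2) X).card : ℝ) ≤ 3 ^ ν * (X : ℝ) ^ (ν * (ν + 1) / 2) := by
  have hX1 : (1 : ℝ) ≤ X := by exact_mod_cast hX
  unfold Els.tset
  rw [Fintype.card_piFinset, Fin.prod_univ_castSucc, Fin.prod_univ_castSucc]
  simp only [Fin.val_castSucc, Fin.val_last]
  rw [if_neg (by omega), if_neg (by omega), card_singleton, mul_one, mul_one]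
  push_cast
  have h3 : (3 : ℝ) ^ ν = ∏ _i : Fin ν, (3 : ℝ) := by
    rw [prod_const, card_univ, Fintype.card_fin]
  rw [← Els.prod_pow_succ, ← Fin.prod_univ_eq_prod_range (fun i => (X : ℝ) ^ (i + 1)) ν, h3,
    ← prod_mul_distrib]
  apply prod_le_prod
  · intro i _
    positivity
  · intro i _
    have hi := i.2
    rw [if_pos (by omega), Els.card_itv]
    have : (1 : ℝ) ≤ (X : ℝ) ^ ((i : ℕ) + 1) := one_le_pow₀ hX1
    linarith

theorem sq_small (n : ℕ) (hn : 4 ≤ n) (he : Even n) (ε : ℝ) (hε : 0 < ε) :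
    ∃ P₀ X₀ : ℕ, ∀ X : ℕ, X₀ ≤ X →
      (BG.cnt n (fun c => ∃ p : ℕ, P₀ < p ∧ p.Prime ∧
        ∃ k : (ZMod p)[X], FZ (ZMod p) c = k ^ 2) X : ℝ) ≤ ε * X ^ (n * (n + 1) / 2) := by
  classical
  have _ := he
  obtain ⟨A, hA1, hA⟩ := Els.NN_bound n (by omega) 1
  obtain ⟨ν, rfl⟩ : ∃ ν, n = ν + 2 := ⟨n - 2, by omega⟩
  set n := ν + 2 with hnν
  set K : ℝ := 3 ^ ν with hK
  have hK0 : 0 < K := by positivity
  set B : ℝ := 12 * A * (A + n + 1) + 3 with hB
  have hB0 : 0 < B := by positivity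
  obtain ⟨Q, hQ⟩ := exists_nat_ge (8 * K / ε)
  obtain ⟨Y, hY⟩ := exists_nat_ge (2 * K * B / ε)
  refine ⟨Q + 2, Y + Q + 2, ?_⟩
  intro X hX
  have hX1 : 1 ≤ X := by omega
  have hX1' : (1 : ℝ) ≤ X := by exact_mod_cast hX1
  have hX0 : (0 : ℝ) < X := by linarith
  have hQX : Q + 2 ≤ A * X ^ n := by
    calc Q + 2 ≤ X := by omega
      _ ≤ X ^ n := Nat.le_self_pow (by omega) X
      _ ≤ A * X ^ n := Nat.le_mul_of_pos_left _ hA1
  set bad := ((Ioc (Q + 2) (A * X ^ n)).filter Nat.Prime).biUnion fun p =>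
    (box n X).filter fun b => Els.SqRed 1 1 b p with hbad
  have hsub : ((Fintype.piFinset fun i : Fin n =>
        Icc (-(X : ℤ) ^ ((i : ℕ) + 1)) ((X : ℤ) ^ ((i : ℕ) + 1))).filter
          (fun c => ∃ p : ℕ, Q + 2 < p ∧ p.Prime ∧ ∃ k : (ZMod p)[X], FZ (ZMod p) c = k ^ 2)) ⊆
      bad ∪ (box n X).filter fun b => Els.NN 1 b = 0 := by
    intro b hb
    rw [mem_filter] at hb
    obtain ⟨hb, p, hpQ, hp, k, hk⟩ := hb
    have hb' : b ∈ box n X := hb
    have hbox : ∀ i : Fin n, |b i| ≤ (X : ℤ) ^ ((i : ℕ) + 1) := by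
      intro i
      rw [Fintype.mem_piFinset] at hb
      exact abs_le.2 (mem_Icc.1 (hb i))
    have := Fact.mk hp
    have hp2 : p ≠ 2 := by omega
    have hsq : Els.SqRed 1 1 b p := by
      refine ⟨1, expand (ZMod p) 2 k, ?_⟩
      have h1 : fpol ((1 : ℤ) : ZMod p) (fun i => (b i : ZMod p)) = k ^ 2 := by
        rw [Int.cast_one]
        exact hk
      rw [h1, map_pow, C_1, one_mul]
    rw [mem_union]
    by_cases h0 : Els.NN 1 b = 0
    · right
      rw [mem_filter]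
      exact ⟨hb', h0⟩
    · left
      rw [hbad, mem_biUnion]
      refine ⟨p, ?_, ?_⟩
      · rw [mem_filter, mem_Ioc]
        refine ⟨⟨hpQ, ?_⟩, hp⟩
        have hα0 : ((1 : ℤ) : ZMod p) ≠ 0 := by
          rw [Int.cast_one]
          exact one_ne_zero
        have hdvd := Els.bad_dvd le_rfl (by omega) hp2 hα0 hsq
        have h4 := Int.natAbs_dvd_natAbs.2 hdvd
        rw [Int.natAbs_natCast] at h4
        exact (Nat.le_of_dvd (Int.natAbs_pos.2 h0) h4).trans (hA X hX1 b hbox)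
      · rw [mem_filter]
        exact ⟨hb', hsq⟩
  have hcnt : (BG.cnt n (fun c => ∃ p : ℕ, Q + 2 < p ∧ p.Prime ∧
      ∃ k : (ZMod p)[X], FZ (ZMod p) c = k ^ 2) X : ℝ) ≤
      (bad.card : ℝ) + (((box n X).filter fun b => Els.NN 1 b = 0).card : ℝ) := by
    have h1 := (card_le_card hsub).trans (card_union_le _ _)
    unfold BG.cnt
    exact_mod_cast h1
  set T : ℝ := ((Els.tset n X).card : ℝ) with hT
  have hT0 : 0 ≤ T := Nat.cast_nonneg _
  have hTle : T ≤ K * (X : ℝ) ^ (ν * (ν + 1) / 2) := card_tset_le ν X hX1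
  have hb2 : (bad.card : ℝ) ≤ T * (4 * X ^ (2 * n - 1) / ((Q + 2 : ℕ) : ℝ) +
      12 * A * (A + n + 1) * X ^ (n + 1)) := by
    have h1 := card_biUnion_le (s := (Ioc (Q + 2) (A * X ^ n)).filter Nat.Prime)
      (t := fun p => (box n X).filter fun b => Els.SqRed 1 1 b p)
    have h2 : (bad.card : ℝ) ≤ ∑ p ∈ (Ioc (Q + 2) (A * X ^ n)).filter Nat.Prime,
        (((box n X).filter fun b => Els.SqRed 1 1 b p).card : ℝ) := by exact_mod_cast h1
    exact h2.trans (sum_sq_le (by omega) hX1 (by omega) hA1 hQX)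
  have hb3 := card_zero_le (n := n) (by omega) X
  have hp1 : (X : ℝ) ^ (n + 1) * X ≤ X ^ (2 * n - 1) := by
    rw [← pow_succ]
    exact pow_le_pow_right₀ hX1' (by omega)
  have hp2 : (2 * (X : ℝ) ^ (n - 1) + 1) * X ≤ 3 * X ^ (2 * n - 1) := by
    have h1 : (1 : ℝ) ≤ X ^ (n - 1) := one_le_pow₀ hX1'
    have h2 : (X : ℝ) ^ (n - 1) * X ≤ X ^ (2 * n - 1) := by
      rw [← pow_succ]
      exact pow_le_pow_right₀ hX1' (by omega)
    have h3 : (1 : ℝ) * X ≤ X ^ (n - 1) * X := by gcongr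
    nlinarith
  have hQ' : 4 * (X : ℝ) ^ (2 * n - 1) / ((Q + 2 : ℕ) : ℝ) ≤ ε / (2 * K) * X ^ (2 * n - 1) := by
    have hQ2 : (0 : ℝ) < ((Q + 2 : ℕ) : ℝ) := by positivity
    rw [div_le_iff₀ hQ2]
    have h1 : 8 * K / ε ≤ ((Q + 2 : ℕ) : ℝ) := by
      push_cast
      linarith
    have h2 : 4 ≤ ε / (2 * K) * ((Q + 2 : ℕ) : ℝ) := by
      calc (4 : ℝ) = ε / (2 * K) * (8 * K / ε) := by
            field_simp
            ring
        _ ≤ ε / (2 * K) * ((Q + 2 : ℕ) : ℝ) := by gcongr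
    calc 4 * (X : ℝ) ^ (2 * n - 1) ≤ (ε / (2 * K) * ((Q + 2 : ℕ) : ℝ)) * X ^ (2 * n - 1) := by
          gcongr
      _ = ε / (2 * K) * X ^ (2 * n - 1) * ((Q + 2 : ℕ) : ℝ) := by ring
  have hBX : 12 * A * (A + n + 1) * (X : ℝ) ^ (n + 1) + (2 * (X : ℝ) ^ (n - 1) + 1) ≤
      ε / (2 * K) * X ^ (2 * n - 1) := by
    have h1 : (12 * A * (A + n + 1) * (X : ℝ) ^ (n + 1) + (2 * (X : ℝ) ^ (n - 1) + 1)) * X ≤
        B * X ^ (2 * n - 1) := by
      have h2 : 12 * (A : ℝ) * (A + n + 1) * (X ^ (n + 1) * X) ≤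
          12 * A * (A + n + 1) * X ^ (2 * n - 1) := by gcongr
      rw [hB]
      linarith
    have h3 : B ≤ ε / (2 * K) * X := by
      have h4 : 2 * K * B / ε ≤ X := by
        have : (Y : ℝ) ≤ X := by
          have : Y ≤ X := by omega
          exact_mod_cast this
        linarith
      calc B = ε / (2 * K) * (2 * K * B / ε) := by
            field_simp
        _ ≤ ε / (2 * K) * X := by gcongr
    have h5 : B * (X : ℝ) ^ (2 * n - 1) ≤ (ε / (2 * K) * X) * X ^ (2 * n - 1) := by gcongr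
    have h6 : (ε / (2 * K) * X) * (X : ℝ) ^ (2 * n - 1) =
        (ε / (2 * K) * X ^ (2 * n - 1)) * X := by ring
    exact le_of_mul_le_mul_right (h1.trans (h5.trans h6.le)) hX0
  have hfin : (bad.card : ℝ) + (((box n X).filter fun b => Els.NN 1 b = 0).card : ℝ) ≤
      T * (ε / K * X ^ (2 * n - 1)) := by
    have h1 : (bad.card : ℝ) + (((box n X).filter fun b => Els.NN 1 b = 0).card : ℝ) ≤
        T * (4 * X ^ (2 * n - 1) / ((Q + 2 : ℕ) : ℝ) +
          (12 * A * (A + n + 1) * X ^ (n + 1) + (2 * X ^ (n - 1) + 1))) := by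
      have := add_le_add hb2 hb3
      linarith
    refine h1.trans (mul_le_mul_of_nonneg_left ?_ hT0)
    have h2 := add_le_add hQ' hBX
    have h3 : ε / (2 * K) * (X : ℝ) ^ (2 * n - 1) + ε / (2 * K) * X ^ (2 * n - 1) =
        ε / K * X ^ (2 * n - 1) := by
      field_simp
      ring
    linarith
  refine hcnt.trans (hfin.trans ?_)
  have hexp : n * (n + 1) / 2 = ν * (ν + 1) / 2 + (2 * n - 1) := by
    have : n * (n + 1) = ν * (ν + 1) + 2 * (2 * n - 1) := by
      rw [hnν, show 2 * (ν + 2) - 1 = 2 * ν + 3 by omega]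
      ring
    rw [this, Nat.add_mul_div_left _ _ two_pos]
  rw [hexp, pow_add]
  calc T * (ε / K * (X : ℝ) ^ (2 * n - 1))
      ≤ (K * (X : ℝ) ^ (ν * (ν + 1) / 2)) * (ε / K * X ^ (2 * n - 1)) := by gcongr
    _ = ε * (X ^ (ν * (ν + 1) / 2) * X ^ (2 * n - 1)) := by
        field_simp

end Stoll308.NE
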