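import Pool.Agent.Work.MP_308fa9_nt.NE.Basic
import Pool.Agent.Work.MP_308fa9_nt.EA.ToOdd

set_option autoImplicit false

/-!
A point over `ℚ_p` is a point over an algebra of odd dimension.
-/

namespace Stoll308.NE

open Polynomial Finset BG BF DQ

lemma side_dvd {K : Type} [Field K] (g d : K[X]) (t u : K) (s : K[X]) (hu : u ≠ 0)
    (h : g ∣ (C t - X) - C u * d * s ^ 2) :
    g ∣ C (-u⁻¹) * (LinearMap.mulLeft K t).charpoly - d * s ^ 2 := by
  rw [EA.charpoly_self]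
  have e : C (-u⁻¹) * (X - C t) - d * s ^ 2 = C u⁻¹ * ((C t - X) - C u * d * s ^ 2) := by
    have h1 : C u⁻¹ * C u = (1 : K[X]) := by
      rw [← C_mul, inv_mul_cancel₀ hu, C_1]
    rw [C_neg]
    linear_combination (d * s ^ 2) * h1
  rw [e]
  exact Dvd.dvd.mul_left h _

theorem image_of_loc {n m : ℕ} (c : Fin n → ℤ) (b : Fin (m + 1) → ℤ) (δ ε : ℚ[X]) (K : Type)
    [Field K] [Algebra ℚ K] (h : LocImage c b δ ε K) : OddImage (cf c) b δ ε K := by
  obtain ⟨t, y, w, u, s, s', hy, hw, hu, hy2, hw2, hf, hq⟩ := h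
  refine ⟨K, inferInstance, inferInstance, inferInstance, t, y, w, -u⁻¹, s, s', ?_,
    isUnit_iff_ne_zero.2 hy, isUnit_iff_ne_zero.2 hw, neg_ne_zero.2 (inv_ne_zero hu), ?_, ?_, ?_, ?_⟩
  · rw [Module.finrank_self]
    exact odd_one
  · rw [coe_aeval_eq_eval, GZ_cf]
    exact hy2
  · rw [coe_aeval_eq_eval]
    exact hw2
  · rw [GZ_cf]
    exact side_dvd _ _ t u s hu hf
  · exact side_dvd _ _ t u s' hu hq

end Stoll308.NE
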