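import Pool.Agent.Work.MP_308fa9_nt.NE.Basic
import Pool.Agent.Work.MP_308fa9_nt.SC.SqRoot
import Pool.Agent.Work.MP_308fa9_nt.SC.Core

set_option autoImplicit false

/-!
The class of the points at infinity is in the Selmer set, if the leading coefficient of `q` is a
square.
-/

namespace Stoll308.NE

open Polynomial Finset BG BF

lemma eval_inv {K : Type*} [Field K] {m : ℕ} (a : Fin (m + 1) → ℤ) (T : K) (hT : T ≠ 0) :
    (GZ K a).eval T⁻¹ = T⁻¹ ^ m * (a 0 + T * ∑ i : Fin m, (a i.succ : K) * T ^ (i : ℕ)) := by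
  simp only [GZ, gpol, eval_finsetSum, eval_mul, eval_C, eval_pow, eval_X]
  rw [Fin.sum_univ_succ, mul_add, Fin.val_zero, Nat.sub_zero, mul_comm, mul_sum, mul_sum]
  congr 1
  refine Finset.sum_congr rfl fun i _ => ?_
  have h1 : T⁻¹ ^ m = T⁻¹ ^ (m - (i.succ : ℕ)) * T⁻¹ ^ ((i : ℕ) + 1) := by
    rw [← pow_add]
    congr 1
    rw [Fin.val_succ]
    omega
  have h2 : T⁻¹ ^ ((i : ℕ) + 1) * T ^ ((i : ℕ) + 1) = 1 := by
    rw [← mul_pow, inv_mul_cancel₀ hT, one_pow]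
  rw [h1, pow_succ T (i : ℕ)] at *
  linear_combination (-(a i.succ : K) * T⁻¹ ^ (m - (i.succ : ℕ))) * h2

lemma comp_eq {R : Type*} [CommRing R] {m : ℕ} (a : Fin (m + 1) → ℤ) :
    C (a 0 : R) * (FZ R (fun i : Fin m => a 0 ^ (i : ℕ) * a i.succ)).comp (C (a 0 : R) * X) =
      C ((a 0 : R) ^ m) * GZ R a := by
  simp only [FZ, fpol, GZ, gpol, add_comp, mul_comp, C_comp, pow_comp, X_comp, Polynomial.sum_comp]
  rw [Fin.sum_univ_succ, mul_add, mul_add, mul_sum, mul_sum]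
  congr 1
  · rw [Fin.val_zero, Nat.sub_zero, mul_pow, C_1, C_pow]
    ring
  · refine Finset.sum_congr rfl fun i _ => ?_
    have h1 : m - 1 - (i : ℕ) = m - (i.succ : ℕ) := by
      rw [Fin.val_succ]
      omega
    have h2 : (C (a 0 : R)) ^ m = C (a 0 : R) ^ (m - (i.succ : ℕ)) * C (a 0 : R) ^ (i : ℕ) *
        C (a 0 : R) := by
      rw [← pow_add, ← pow_succ]
      congr 1
      rw [Fin.val_succ]
      omega
    rw [h1, mul_pow, Int.cast_mul, Int.cast_pow, C_mul, C_pow, C_pow, h2]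
    ring

/-- The classes of a point near infinity, for one of the two polynomials. -/
lemma near_inf {m : ℕ} (he : Even m) (a : Fin (m + 1) → ℤ) (h0 : a 0 ≠ 0) (α B B' : ℤ)
    (hα : a 0 = α ^ 2) (hB0 : B ≠ 0) (hB : B = a 0 * B') (p : ℕ) [hp : Fact p.Prime]
    (hp2 : p ≠ 2) :
    (∃ y : ℚ_[p], y ≠ 0 ∧ y ^ 2 = (GZ ℚ_[p] a).eval ((p : ℚ_[p]) * B)⁻¹) ∧
      ∃ s : ℚ_[p][X], GZ ℚ_[p] a ∣ (C ((p : ℚ_[p]) * B)⁻¹ - X) -
        C ((p : ℚ_[p]) * B)⁻¹ * s ^ 2 := by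
  obtain ⟨T, hT⟩ : ∃ T : ℚ_[p], T = (p : ℚ_[p]) * B := ⟨_, rfl⟩
  have hB0' : (B : ℚ_[p]) ≠ 0 := by exact_mod_cast hB0
  have hp0 : (p : ℚ_[p]) ≠ 0 := by exact_mod_cast hp.out.ne_zero
  have hT0 : T ≠ 0 := by
    rw [hT]
    exact mul_ne_zero hp0 hB0'
  have ha0 : ((a 0 : ℤ) : ℚ_[p]) ≠ 0 := by exact_mod_cast h0
  have hα0 : (α : ℚ_[p]) ≠ 0 := by
    intro h
    apply ha0
    rw [hα, Int.cast_pow, h]
    ring
  rw [← hT]
  constructor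
  · obtain ⟨x, hx⟩ : ∃ x : ℤ_[p], x = (B' : ℤ_[p]) *
        ∑ i : Fin m, (a i.succ : ℤ_[p]) * ((p : ℤ_[p]) * B) ^ (i : ℕ) := ⟨_, rfl⟩
    obtain ⟨σ, hσ⟩ := SC.Core.sqrt_one_add p hp2 x
    have hσ' : (σ : ℚ_[p]) ^ 2 = 1 + p * (B' *
        ∑ i : Fin m, (a i.succ : ℚ_[p]) * T ^ (i : ℕ)) := by
      have h1 := congrArg (fun z : ℤ_[p] => (z : ℚ_[p])) hσ
      simp only [hx] at h1
      push_cast at h1
      rw [h1, hT, PadicInt.coe_sum]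
      push_cast
      rfl
    have hσ0 : (σ : ℚ_[p]) ≠ 0 := by
      intro h
      have h1 : σ = 0 := Subtype.coe_injective h
      rw [h1, zero_pow two_ne_zero] at hσ
      have h2 : IsUnit (p : ℤ_[p]) := IsUnit.of_mul_eq_one (-x) (by linear_combination hσ)
      exact PadicInt.prime_p.not_isUnit h2
    refine ⟨T⁻¹ ^ (m / 2) * α * σ, mul_ne_zero (mul_ne_zero (pow_ne_zero _ (inv_ne_zero hT0)) hα0)
      hσ0, ?_⟩
    rw [eval_inv a T hT0, mul_pow, mul_pow, hσ', ← pow_mul, Nat.div_mul_cancel he.two_dvd]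
    have h1 : (α : ℚ_[p]) ^ 2 = (a 0 : ℤ) := by rw [hα, Int.cast_pow]
    have h2 : T = (p : ℚ_[p]) * ((a 0 : ℤ) * B') := by rw [hT, hB, Int.cast_mul]
    rw [h1]
    obtain ⟨z, hz⟩ : ∃ z : ℚ_[p], z = ∑ i : Fin m, (a i.succ : ℚ_[p]) * T ^ (i : ℕ) :=
      ⟨_, rfl⟩
    rw [← hz]
    linear_combination (-(T⁻¹ ^ m) * z) * h2
  · obtain ⟨s, t, hs, -⟩ := SC.sq_root p hp2
      (FZ ℤ_[p] (fun i : Fin m => a 0 ^ (i : ℕ) * a i.succ)) (-(C (B' : ℤ_[p]) * X))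
      (FZ_monic _)
    have h1 : FZ ℚ_[p] (fun i : Fin m => a 0 ^ (i : ℕ) * a i.succ) ∣
        (1 - C ((p : ℚ_[p]) * B') * X) - (s.map (algebraMap ℤ_[p] ℚ_[p])) ^ 2 := by
      have h2 := Polynomial.map_dvd (algebraMap ℤ_[p] ℚ_[p]) hs
      rw [FZ_map, Polynomial.map_sub, Polynomial.map_pow, Polynomial.map_add,
        Polynomial.map_mul, Polynomial.map_neg, Polynomial.map_mul, map_C, map_C, map_X,
        Polynomial.map_one, map_natCast, map_intCast] at h2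
      have e : (1 + C (p : ℚ_[p]) * -(C (B' : ℚ_[p]) * X) : ℚ_[p][X]) =
          1 - C ((p : ℚ_[p]) * B') * X := by
        rw [C_mul]
        ring
      rw [e] at h2
      exact h2
    obtain ⟨w, hw⟩ := h1
    have h3 := congrArg (fun P : ℚ_[p][X] => P.comp (C ((a 0 : ℤ) : ℚ_[p]) * X)) hw
    simp only [sub_comp, mul_comp, pow_comp, one_comp, C_comp, X_comp] at h3
    have h4 := comp_eq (R := ℚ_[p]) a
    obtain ⟨P, hP⟩ : ∃ P, P = (FZ ℚ_[p] (fun i : Fin m => a 0 ^ (i : ℕ) * a i.succ)).comp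
      (C ((a 0 : ℤ) : ℚ_[p]) * X) := ⟨_, rfl⟩
    obtain ⟨S, hS⟩ : ∃ S, S = (s.map (algebraMap ℤ_[p] ℚ_[p])).comp
      (C ((a 0 : ℤ) : ℚ_[p]) * X) := ⟨_, rfl⟩
    obtain ⟨W, hW⟩ : ∃ W, W = w.comp (C ((a 0 : ℤ) : ℚ_[p]) * X) := ⟨_, rfl⟩
    rw [← hP] at h3 h4
    rw [← hS, ← hW] at h3
    refine ⟨S, ?_⟩
    have h5 : (C ((a 0 : ℤ) : ℚ_[p]) : ℚ_[p][X]) * C (((a 0 : ℤ) : ℚ_[p])⁻¹) = 1 := by
      rw [← C_mul, mul_inv_cancel₀ ha0, C_1]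
    have h6 : C T⁻¹ * C T = (1 : ℚ_[p][X]) := by rw [← C_mul, inv_mul_cancel₀ hT0, C_1]
    have h7 : (C T : ℚ_[p][X]) = C ((p : ℚ_[p]) * B') * C ((a 0 : ℤ) : ℚ_[p]) := by
      rw [← C_mul, hT, hB, Int.cast_mul]
      congr 1
      ring
    refine ⟨C T⁻¹ * C (((a 0 : ℤ) : ℚ_[p])⁻¹) * C (((a 0 : ℤ) : ℚ_[p]) ^ m) * W, ?_⟩
    have h8 : C (((a 0 : ℤ) : ℚ_[p])⁻¹) * (C (((a 0 : ℤ) : ℚ_[p]) ^ m) * GZ ℚ_[p] a) = P := by
      rw [← h4]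
      linear_combination P * h5
    linear_combination (-C T⁻¹ * W) * h8 + C T⁻¹ * h3 + (X : ℚ_[p][X]) * h6 +
      (C T⁻¹ * X : ℚ_[p][X]) * (-h7)

/-- If the leading coefficient of `q` is a square then the Selmer set contains the class of the points
at infinity. -/
theorem inSel_one {n m : ℕ} (he : Even n) (hem : Even m) (b : Fin (m + 1) → ℤ) (h0 : b 0 ≠ 0)
    (hb : IsSquare (b 0)) (c : Fin n → ℤ) : InSel c b 1 1 := by
  refine ⟨isCoprime_one_left, isCoprime_one_left, fun p _ hp => ?_⟩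
  obtain ⟨β, hβ⟩ := hb
  obtain ⟨⟨y, hy, hy2⟩, s, hs⟩ := near_inf he (cf c) (by rw [cf_zero]; exact one_ne_zero) 1 (b 0)
    (b 0) (by rw [cf_zero, one_pow]) h0 (by rw [cf_zero, one_mul]) p hp
  obtain ⟨⟨w, hw, hw2⟩, s', hs'⟩ := near_inf hem b h0 β (b 0) 1 (by rw [hβ]; ring) h0
    (by rw [mul_one]) p hp
  rw [GZ_cf] at hy2 hs
  have hne : ((p : ℚ_[p]) * (b 0 : ℤ))⁻¹ ≠ 0 := by
    apply inv_ne_zero
    exact mul_ne_zero (by exact_mod_cast (Fact.out : p.Prime).ne_zero) (by exact_mod_cast h0)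
  refine ⟨((p : ℚ_[p]) * (b 0 : ℤ))⁻¹, y, w, ((p : ℚ_[p]) * (b 0 : ℤ))⁻¹, s, s', hy, hw, hne, hy2,
    hw2, ?_, ?_⟩
  · rw [Polynomial.map_one, mul_one]
    exact hs
  · rw [Polynomial.map_one, mul_one]
    exact hs'

end Stoll308.NE
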