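import Pool.Agent.Work.MP_308fa9_nt.NE.Const
import Pool.Agent.Work.MP_308fa9_nt.NE.Rep
import Pool.Agent.Work.MP_308fa9_nt.NE.LargeT
import Pool.Agent.Work.MP_308fa9_nt.NE.Cusp
import Pool.Agent.Work.MP_308fa9_nt.NE.DistC
import Pool.Agent.Work.MP_308fa9_nt.NE.SqDet
import Pool.Agent.Work.MP_308fa9_nt.NE.SqSmall
import Pool.Agent.Work.MP_308fa9_nt.NE.ToOdd
import Pool.Agent.Work.MP_308fa9_nt.FQ.Upper
import Pool.Agent.Work.MP_308fa9_nt.EA.Twist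

set_option autoImplicit false

/-!
The Selmer set is trivial for almost all polynomials.
-/

namespace Stoll308.NE

open Polynomial Finset Matrix BG BF FQ DQ SC

lemma mon_cf {n : ℕ} (K : Type*) [Field K] (c : Fin n → ℤ) : mon K (cf c) = FZ K c := by
  unfold mon
  rw [cf_zero, Int.cast_one, inv_one, C_1, one_mul, GZ_cf]

/-- A prime which divides a squarefree constant class is a prime modulo which `f` is a square. -/
lemma sq_of_dvd {n : ℕ} (hn : 2 ≤ n) (c : Fin n → ℤ) (k : ℤ) (hk : Squarefree k) (p : ℕ)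
    [hp : Fact p.Prime] (hp2 : p ≠ 2) (hpk : (p : ℤ) ∣ k) (δ s h : ℚ_[p][X])
    (hs : IsCoprime s (FZ ℚ_[p] c)) (e : FZ ℚ_[p] c ∣ δ - C (k : ℚ_[p]) * s ^ 2) (hh : Prim p h)
    (hc : Cls (GZ ℚ_[p] (cf c)) δ h) : ∃ k' : (ZMod p)[X], FZ (ZMod p) c = k' ^ 2 := by
  have hk0 : k ≠ 0 := hk.ne_zero
  have h0 : ¬ (p : ℤ) ∣ cf c 0 := by
    rw [cf_zero]
    intro h1
    have := Int.le_of_dvd one_pos h1
    have := hp.out.two_le
    omega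
  have hgood := good_unit hn p hp2 (cf c) h0 δ h hh hc
  rw [mon_cf] at hgood
  have hgood' : Good p n (FZ ℚ_[p] c) (C (k : ℚ_[p])) := by
    refine Good.congr (FZ_monic c) (FZ_natDegree c) hgood 1 norm_one 1 s isCoprime_one_left hs ?_
    rw [C_1, one_mul, one_pow, mul_one]
    exact e
  have hmap : toQ (FZ ℤ_[p] c) = FZ ℚ_[p] c := FZ_map _ c
  rw [← hmap] at hgood'
  have hkp : (k : ℚ_[p]) ≠ 0 := by exact_mod_cast hk0
  have hval : ((k : ℚ_[p])).valuation = 1 := by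
    rw [Padic.valuation_intCast]
    obtain ⟨j, hj⟩ := hpk
    have hj0 : j ≠ 0 := by
      rintro rfl
      exact hk0 (by rw [hj, mul_zero])
    have hpj : ¬ (p : ℤ) ∣ j := by
      rintro ⟨i, hi⟩
      have h1 : (p : ℤ) * p ∣ k := ⟨i, by rw [hj, hi]; ring⟩
      have h2 := hk _ h1
      exact (Nat.prime_iff_prime_int.1 hp.out).not_isUnit h2
    have h3 : padicValInt p k = 1 := by
      rw [hj, padicValInt.mul (by exact_mod_cast hp.out.ne_zero) hj0,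
        padicValInt.self hp.out.one_lt, padicValInt.eq_zero_of_not_dvd hpj]
    rw [h3]
    rfl
  obtain ⟨k', hk'⟩ := sq_of_good (by omega) p (FZ ℤ_[p] c) (FZ_monic c) (FZ_natDegree c)
    (k : ℚ_[p]) hkp (by rw [hval]; exact odd_one) hgood'
  refine ⟨k', ?_⟩
  rw [← hk']
  exact (FZ_map _ c).symm

/-- A squarefree integer with small primes only is bounded. -/
lemma abs_le_of_primes (P : ℕ) (k : ℤ) (hk : Squarefree k)
    (h : ∀ p : ℕ, p.Prime → (p : ℤ) ∣ k → p ≤ P) : |k| ≤ (P.factorial : ℤ) := by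
  have h1 : Squarefree k.natAbs := Int.squarefree_natAbs.2 hk
  have h2 : ∏ p ∈ k.natAbs.primeFactors, p ∣ P.factorial := by
    refine Finset.prod_primes_dvd _ ?_ ?_
    · intro p hp
      exact (Nat.prime_of_mem_primeFactors hp).prime
    · intro p hp
      have hp1 := Nat.prime_of_mem_primeFactors hp
      have hp2 := Nat.dvd_of_mem_primeFactors hp
      exact Nat.dvd_factorial hp1.pos (h p hp1 (Int.natCast_dvd.2 hp2))
  rw [Nat.prod_primeFactors_of_squarefree h1] at h2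
  have h3 := Nat.le_of_dvd P.factorial_pos h2
  rw [Int.abs_eq_natAbs]
  exact_mod_cast h3

/-- The Selmer set is not trivial. -/
def BadSel {n m : ℕ} (b : Fin (m + 1) → ℤ) (c : Fin n → ℤ) : Prop :=
  ∃ δ ε : ℚ[X], InSel c b δ ε ∧ ¬ TrivPair c b δ ε

/-- The polynomial is a square modulo a large prime. -/
def Q2 {n : ℕ} (P : ℕ) (c : Fin n → ℤ) : Prop :=
  ∃ p : ℕ, P < p ∧ p.Prime ∧ ∃ k : (ZMod p)[X], FZ (ZMod p) c = k ^ 2

/-- The polynomial comes from the cusp. -/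
def Q3 {n : ℕ} (K M τ₀ : ℝ) (c : Fin n → ℤ) : Prop :=
  Irreducible (FZ ℚ c) ∧ ∃ (A B : Matrix (Fin n) (Fin n) ℤ) (t : Fin n → ℝ),
    RPair K M c A B t ∧ ¬ Dist A B ∧ ∃ i, t i ≤ τ₀

/-- The polynomial comes from the main body. -/
def Q4 {n : ℕ} (K M τ₀ : ℝ) (D : ℕ) (S : Set ℕ) (r s : ℕ → ℤ) (c : Fin n → ℤ) : Prop :=
  ∃ (N : ℕ) (A B : Matrix (Fin n) (Fin n) ℤ) (t : Fin n → ℝ), 0 < N ∧ N ≤ D ∧
    RPair K M c A B t ∧ (∀ i, τ₀ < t i) ∧ A.det = (-1) ^ (n / 2) * (N : ℤ) ^ 2 ∧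
    ∀ l : ℕ, l.Prime → 5 ≤ l → l ∈ S → ¬ BadZ (s l) l A (B - r l • A)

/-- The cases for one polynomial. -/
lemma cases_of {n m : ℕ} (hn : 4 ≤ n) (he : Even n) (hm : 2 ≤ m) (hem : Even m)
    (b : Fin (m + 1) → ℤ) (h0 : b 0 ≠ 0) {K : ℝ} {D : ℕ}
    (hred : ∀ c : Fin n → ℤ, Irreducible (FZ ℚ c) → ∀ M : ℝ, 0 ≤ M →
      (∀ θ : ℂ, (FZ ℂ c).eval θ = 0 → ‖θ‖ ≤ M) → ∀ δ : ℚ[X], IsCoprime δ (FZ ℚ c) →
      (∀ (p : ℕ) [Fact p.Prime], p ≠ 2 → ∃ h : ℚ_[p][X], Prim p h ∧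
        Cls (BF.GZ ℚ_[p] (cf c)) (δ.map (algebraMap ℚ ℚ_[p])) h) →
      ∃ (N : ℕ) (A B : Matrix (Fin n) (Fin n) ℤ) (t : Fin n → ℝ), 0 < N ∧ N ≤ D ∧
        RPair K M c A B t ∧ BG.IsPair c δ A B ∧ BF.IsPair (SC.sc N (cf c)) δ A B ∧
        A.det = (-1) ^ (n / 2) * SC.sc N (cf c) 0)
    {M' : ℕ} {F : Finset (Matrix (Fin m) (Fin m) ℤ × Matrix (Fin m) (Fin m) ℤ)}
    (hF : ∀ δ : ℚ[X], IsCoprime δ (GZ ℚ b) →
      (∀ (p : ℕ) [Fact p.Prime], p ≠ 2 →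
        ∃ h : ℚ_[p][X], Prim p h ∧ Cls (GZ ℚ_[p] b) (δ.map (algebraMap ℚ ℚ_[p])) h) →
      ∃ N : ℕ, 0 < N ∧ N ≤ M' ∧ ∃ x ∈ F, BF.IsPair (sc N b) δ x.1 x.2 ∧
        x.1.det = (-1) ^ (m / 2) * sc N b 0)
    (S : Set ℕ) (r : ℕ → ℤ)
    (s : Matrix (Fin m) (Fin m) ℤ × Matrix (Fin m) (Fin m) ℤ → ℕ → ℤ)
    (hs2 : ∀ x : Matrix (Fin m) (Fin m) ℤ × Matrix (Fin m) (Fin m) ℤ,
      (∃ N : ℕ, 0 < N ∧ N ≤ M' ∧ x.1.IsSymm ∧ x.2.IsSymm ∧ BF.HasChar (sc N b) x.1 x.2) →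
          ∀ l : ℕ, l.Prime → 5 ≤ l → l ∈ S → ∀ A B : Matrix (Fin n) (Fin n) ℤ,
            BadZ (s x l) l A (B - r l • A) → DQ.Bad l A B x.1 x.2)
    (P : ℕ) (hP : 2 ≤ P) (τ₀ M : ℝ) (hM : 0 ≤ M) (c : Fin n → ℤ) (hirr : Irreducible (FZ ℚ c))
    (hroot : ∀ θ : ℂ, (FZ ℂ c).eval θ = 0 → ‖θ‖ ≤ M) (hc : BadSel b c) :
    Q2 P c ∨ Q3 K M τ₀ c ∨ (∃ x ∈ F, Q4 K M τ₀ D S r (s x) c) ∨
      ∃ y ∈ ((Icc (-(P.factorial : ℤ)) (P.factorial : ℤ)).filter (· ≠ 0) ×ˢ Icc 1 M') ×ˢ F,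
        CC b y.1.1 y.1.2 y.2 c := by
  classical
  by_cases q2 : Q2 P c
  · exact Or.inl q2
  right
  obtain ⟨δ, ε₀, ⟨hδ, hε₀, hloc⟩, hnt⟩ := hc
  have hdloc : ∀ (p : ℕ) [Fact p.Prime], p ≠ 2 → DLoc (GZ ℚ_[p] (cf c)) (GZ ℚ_[p] b)
      (δ.map (algebraMap ℚ ℚ_[p])) (ε₀.map (algebraMap ℚ ℚ_[p])) :=
    fun p _ hp => dloc_of_image (cf c) b δ ε₀ ℚ_[p] (image_of_loc c b δ ε₀ ℚ_[p] (hloc p hp))
  have hcf0 : cf c 0 ≠ 0 := by
    rw [cf_zero]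
    exact one_ne_zero
  have hirr' : Irreducible (GZ ℚ (cf c)) := by rwa [GZ_cf]
  have hδc : IsCoprime δ (GZ ℚ (cf c)) := by rwa [GZ_cf]
  obtain ⟨κ, hκ, huloc⟩ := exists_scale (by omega) (cf c) b hcf0 hirr' δ ε₀ hδc hdloc
  have hκu : IsUnit (C κ : ℚ[X]) := isUnit_C.2 (isUnit_iff_ne_zero.2 hκ)
  have hδ' : IsCoprime (C κ * δ) (FZ ℚ c) := (isCoprime_mul_unit_left_left hκu _ _).2 hδ
  have hε' : IsCoprime (C κ * ε₀) (GZ ℚ b) := (isCoprime_mul_unit_left_left hκu _ _).2 hε₀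
  obtain ⟨N, A, B, t, hN, hND, r1, r2, r3, r4⟩ := hred c hirr M hM hroot (C κ * δ) hδ'
    (fun p _ hp => by
      obtain ⟨h, e1, e2, -⟩ := huloc p hp
      exact ⟨h, e1, e2⟩)
  obtain ⟨N', hN', hNM', x, hxF, r2', r3'⟩ := hF (C κ * ε₀) hε' (fun p _ hp => by
      obtain ⟨h, e1, -, e2⟩ := huloc p hp
      exact ⟨h, e1, e2⟩)
  have h0' : SC.sc N' b 0 ≠ 0 := sc_ne h0 hN'
  have hchar := r2'.hasChar h0' r3'
  have hsc0 : SC.sc N (cf c) 0 = (N : ℤ) ^ 2 := by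
    unfold SC.sc
    rw [cf_zero, mul_one]
  have hall : ∀ (p : ℕ) [Fact p.Prime], p ≠ 2 → DLoc (GZ ℚ_[p] (cf c)) (GZ ℚ_[p] b)
      ((C κ * δ).map (algebraMap ℚ ℚ_[p])) ((C κ * ε₀).map (algebraMap ℚ ℚ_[p])) := by
    intro p _ hp
    obtain ⟨h, -, e1, e2⟩ := huloc p hp
    refine ⟨h, 1, one_ne_zero, ?_, ?_⟩
    · rwa [C_1, one_mul]
    · rwa [C_1, one_mul]
  by_cases hd : Dist A B
  · -- a constant class
    right
    right
    obtain ⟨e, s₀, he0, hs₀, hes⟩ := const_of_dist hn he c hirr (C κ * δ) hδ' A B r2 hd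
    obtain ⟨k, q, hk, hq, hkq⟩ := EA.rat_squarefree e he0
    have hqu : IsUnit (C q : ℚ[X]) := isUnit_C.2 (isUnit_iff_ne_zero.2 hq)
    have hcs : IsCoprime (C q * s₀) (FZ ℚ c) := (isCoprime_mul_unit_left_left hqu _ _).2 hs₀
    have hdv : FZ ℚ c ∣ C κ * δ - C (k : ℚ) * (C q * s₀) ^ 2 := by
      have e1 : C (k : ℚ) * (C q * s₀) ^ 2 = C e * s₀ ^ 2 := by
        rw [hkq, C_mul, C_pow]
        ring
      rw [e1]
      exact hes
    have hkP : |k| ≤ (P.factorial : ℤ) := by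
      refine abs_le_of_primes P k hk fun p hp hpk => ?_
      by_contra hcon
      push Not at hcon
      have : Fact p.Prime := ⟨hp⟩
      have hp2 : p ≠ 2 := by omega
      obtain ⟨h, e1, e2, -⟩ := huloc p hp2
      apply q2
      refine ⟨p, hcon, hp, ?_⟩
      refine sq_of_dvd (by omega) c k hk p hp2 hpk ((C κ * δ).map (algebraMap ℚ ℚ_[p]))
        ((C q * s₀).map (algebraMap ℚ ℚ_[p])) h ?_ ?_ e1 e2
      · have h1 := hcs.map (mapRingHom (algebraMap ℚ ℚ_[p]))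
        rw [coe_mapRingHom, FZ_map] at h1
        exact h1
      · have h1 := Polynomial.map_dvd (algebraMap ℚ ℚ_[p]) hdv
        have h3 : (C (k : ℚ) * (C q * s₀) ^ 2).map (algebraMap ℚ ℚ_[p]) =
            C (k : ℚ_[p]) * ((C q * s₀).map (algebraMap ℚ ℚ_[p])) ^ 2 := by
          rw [Polynomial.map_mul, Polynomial.map_pow, map_C, map_intCast]
        rw [FZ_map, Polynomial.map_sub, h3] at h1
        exact h1
    refine ⟨((k, N'), x), ?_, ?_⟩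
    · rw [mem_product, mem_product, mem_filter, mem_Icc, mem_Icc]
      exact ⟨⟨⟨abs_le.1 hkP, hk.ne_zero⟩, hN', hNM'⟩, hxF⟩
    · refine ⟨C κ * δ, C κ * ε₀, C q * s₀, hδ', hε', hdv, r2', hall, ?_⟩
      rintro ⟨s₁, hs₁⟩
      apply hnt
      have hk0 : (k : ℚ) ≠ 0 := by exact_mod_cast hk.ne_zero
      refine ⟨κ⁻¹ * k, C q * s₀, s₁, mul_ne_zero (inv_ne_zero hκ) hk0, ?_, ?_⟩
      · have h1 := hdv.mul_left (C κ⁻¹)
        have e1 : C κ⁻¹ * (C κ * δ - C (k : ℚ) * (C q * s₀) ^ 2) =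
            δ - C (κ⁻¹ * k) * (C q * s₀) ^ 2 := by
          have e2 : (C κ⁻¹ * C κ : ℚ[X]) = 1 := by rw [← C_mul, inv_mul_cancel₀ hκ, C_1]
          rw [C_mul]
          linear_combination δ * e2
        rwa [e1] at h1
      · have h1 := hs₁.mul_left (C κ⁻¹)
        have e1 : C κ⁻¹ * (C κ * ε₀ - C (k : ℚ) * s₁ ^ 2) = ε₀ - C (κ⁻¹ * k) * s₁ ^ 2 := by
          have e2 : (C κ⁻¹ * C κ : ℚ[X]) = 1 := by rw [← C_mul, inv_mul_cancel₀ hκ, C_1]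
          rw [C_mul]
          linear_combination ε₀ * e2
        rwa [e1] at h1
  by_cases ht : ∃ i, t i ≤ τ₀
  · exact Or.inl ⟨hirr, A, B, t, r1, hd, ht⟩
  right
  left
  push Not at ht
  refine ⟨x, hxF, N, A, B, t, hN, hND, r1, ht, by rw [r4, hsc0], ?_⟩
  intro l hl h5 hlS hbad
  have hbad' := hs2 x ⟨N', hN', hNM', r2'.symmA, r2'.symmB, hchar⟩ l hl h5 hlS A B hbad
  have : Fact l.Prime := ⟨hl⟩
  have h2 : l ≠ 2 := by omega
  refine lcond hn he hm hem (SC.sc N (cf c)) (SC.sc N' b) (sc_ne hcf0 hN) h0'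
    (C κ * δ) (C κ * ε₀) (coprime_sc (by rwa [GZ_cf]) hN) (coprime_sc hε' hN') l h2 ?_ A B x.1 x.2
    r3 r4 r2' r3' hbad'
  obtain ⟨h, -, e1, e2⟩ := huloc l h2
  refine ⟨h, 1, one_ne_zero, ?_, ?_⟩
  · rw [C_1, one_mul]
    exact e1.sc hN
  · rw [C_1, one_mul]
    exact e2.sc hN'

/-- A bound for the cardinality of finite sets gives a bound for `cnt`. -/
lemma cnt_le_card {n : ℕ} (P : (Fin n → ℤ) → Prop) (X : ℕ) (R : ℝ)
    (h : ∀ T : Finset (Fin n → ℤ), (∀ c ∈ T, P c) → (T.card : ℝ) ≤ R) :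
    (BG.cnt n P X : ℝ) ≤ R := by
  classical
  unfold BG.cnt
  exact h _ fun c hc => (mem_filter.1 hc).2

lemma cnt_exists {n : ℕ} {α : Type*} (F : Finset α) (P : α → (Fin n → ℤ) → Prop) (X : ℕ) (R : ℝ)
    (h : ∀ y ∈ F, (BG.cnt n (P y) X : ℝ) ≤ R) :
    (BG.cnt n (fun c => ∃ y ∈ F, P y c) X : ℝ) ≤ F.card * R := by
  classical
  have h1 : BG.cnt n (fun c => ∃ y ∈ F, P y c) X ≤ ∑ y ∈ F, BG.cnt n (P y) X := by
    unfold BG.cnt
    refine le_trans (card_le_card ?_) card_biUnion_le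
    intro c hc
    simp only [mem_filter, mem_biUnion] at hc ⊢
    obtain ⟨hc1, y, hy, hc2⟩ := hc
    exact ⟨y, hy, hc1, hc2⟩
  calc (BG.cnt n (fun c => ∃ y ∈ F, P y c) X : ℝ) ≤ ((∑ y ∈ F, BG.cnt n (P y) X : ℕ) : ℝ) := by
        exact_mod_cast h1
    _ = ∑ y ∈ F, (BG.cnt n (P y) X : ℝ) := by push_cast; rfl
    _ ≤ ∑ _y ∈ F, R := sum_le_sum h
    _ = F.card * R := by rw [sum_const, nsmul_eq_mul]

lemma exists_bound {α : Type*} (F : Finset α) (f : α → ℝ) : ∃ X₀ : ℕ, ∀ y ∈ F, f y ≤ X₀ := by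
  refine ⟨⌈∑ x ∈ F, |f x|⌉₊, fun y hy => (le_abs_self _).trans ?_⟩
  refine le_trans ?_ (Nat.le_ceil _)
  exact single_le_sum (f := fun x => |f x|) (fun y _ => abs_nonneg _) hy

theorem sel_small (n m : ℕ) (hn : 4 ≤ n) (he : Even n) (hm : 2 ≤ m) (hem : Even m)
    (b : Fin (m + 1) → ℤ) (h0b : b 0 ≠ 0) (hsqf : Squarefree (GZ ℚ b)) (ε : ℝ) (hε : 0 < ε) :
    ∃ X₀ : ℕ, ∀ X : ℕ, X₀ ≤ X →
      (BG.cnt n (fun c => BadSel b c) X : ℝ) ≤ ε * X ^ (n * (n + 1) / 2) := by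
  classical
  obtain ⟨L, hL⟩ : ∃ L : ℕ, L = n * (n + 1) / 2 := ⟨_, rfl⟩
  rw [← hL]
  obtain ⟨K, D, hK, hred⟩ := exists_red hn he
  obtain ⟨M', F, hF⟩ := fin_pairs hm hem b h0b hsqf
  obtain ⟨X₁, h1⟩ := reducible_small n (by omega) 1 one_ne_zero (ε / 5) (by positivity)
  obtain ⟨P, X₂, h2⟩ := sq_small n hn he (ε / 5) (by positivity)
  obtain ⟨τ₀, M₀, hτ₀, h3⟩ := cusp n hn he K hK (ε / 5 / 2 ^ L) (by positivity)
  -- the primes
  obtain ⟨S, hSdef⟩ : ∃ S : Set ℕ, S = {l | l ∈ {l | ∃ r : ℤ, Root b l r} ∧ M' < l} := ⟨_, rfl⟩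
  have hS : FQ.Dense S := by
    refine (dense_root (by omega) b h0b hsqf).of_gt M' fun l hl hM => ?_
    rw [hSdef]
    exact ⟨hl, hM⟩
  have hr : ∀ l : ℕ, ∃ r : ℤ, l ∈ S → Root b l r := by
    intro l
    by_cases hl : l ∈ S
    · obtain ⟨r, hr⟩ := (hSdef ▸ hl : l ∈ {l | l ∈ {l | ∃ r : ℤ, Root b l r} ∧ M' < l}).1
      exact ⟨r, fun _ => hr⟩
    · exact ⟨0, fun h => absurd h hl⟩
  choose r hr using hr
  have hSM : ∀ l ∈ S, M' < l := by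
    intro l hl
    rw [hSdef] at hl
    exact hl.2
  -- the signs
  have hsgn : ∀ x : Matrix (Fin m) (Fin m) ℤ × Matrix (Fin m) (Fin m) ℤ,
      ∃ s : ℕ → ℤ, (∀ l, s l = 1 ∨ s l = -1) ∧
        ((∃ N : ℕ, 0 < N ∧ N ≤ M' ∧ x.1.IsSymm ∧ x.2.IsSymm ∧
          BF.HasChar (sc N b) x.1 x.2) →
          ∀ l : ℕ, l.Prime → 5 ≤ l → l ∈ S → ∀ A B : Matrix (Fin n) (Fin n) ℤ,
            BadZ (s l) l A (B - r l • A) → DQ.Bad l A B x.1 x.2) := by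
    intro x
    by_cases hx : ∃ N : ℕ, 0 < N ∧ N ≤ M' ∧ x.1.IsSymm ∧ x.2.IsSymm ∧
        BF.HasChar (sc N b) x.1 x.2
    · obtain ⟨N, hN, hNM, hA, hB, hc⟩ := hx
      obtain ⟨s, hs1, hs2⟩ := exists_sign (n := n) he hem b M' N hN hNM r x.1 x.2 hA hB hc
      exact ⟨s, hs1, fun _ l hl h5 hlS => hs2 l hl h5 (hSM l hlS) (hr l hlS)⟩
    · exact ⟨fun _ => 1, fun _ => Or.inl rfl, fun h => absurd h hx⟩
  choose s hs1 hs2 using hsgn
  have hlt := fun x => large_t hn he K τ₀ hτ₀ D S hS r (s x) (hs1 x)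
    (ε / 5 / (F.card + 1) / 2 ^ L) (by positivity)
  choose Mx hMx using hlt
  obtain ⟨X₃, hX₃⟩ := exists_bound F Mx
  obtain ⟨Y, hY⟩ : ∃ Y : Finset ((ℤ × ℕ) × (Matrix (Fin m) (Fin m) ℤ × Matrix (Fin m) (Fin m) ℤ)),
      Y = ((Icc (-((P + 2).factorial : ℤ)) ((P + 2).factorial : ℤ)).filter (· ≠ 0) ×ˢ
        Icc 1 M') ×ˢ F := ⟨_, rfl⟩
  have hcs : ∀ y : (ℤ × ℕ) × (Matrix (Fin m) (Fin m) ℤ × Matrix (Fin m) (Fin m) ℤ),
      ∃ X₀ : ℕ, y ∈ Y → ∀ X : ℕ, X₀ ≤ X →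
        (BG.cnt n (CC b y.1.1 y.1.2 y.2) X : ℝ) ≤ ε / 5 / (Y.card + 1) * X ^ L := by
    intro y
    by_cases hy : y ∈ Y
    · have hy' := hy
      rw [hY, mem_product, mem_product, mem_filter, mem_Icc, mem_Icc] at hy'
      obtain ⟨X₀, hX₀⟩ := const_small (n := n) (by omega) hm b h0b hsqf y.1.1 hy'.1.1.2 y.1.2
        hy'.1.2.1 y.2 (ε / 5 / (Y.card + 1)) (by positivity)
      rw [← hL] at hX₀
      exact ⟨X₀, fun _ => hX₀⟩
    · exact ⟨0, fun h => absurd h hy⟩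
  choose Xy hXy using hcs
  obtain ⟨X₄, hX₄⟩ := exists_bound Y (fun y => (Xy y : ℝ))
  refine ⟨X₁ + X₂ + ⌈|M₀|⌉₊ + X₃ + X₄ + 1, ?_⟩
  intro X hX
  have hX1 : 1 ≤ X := by omega
  have hXr : (1 : ℝ) ≤ X := by exact_mod_cast hX1
  have g1 := h1 X (by omega)
  have g2 := h2 X (by omega)
  rw [← hL] at g1 g2
  have hM₀ : M₀ ≤ 2 * X := by
    have e1 : |M₀| ≤ ⌈|M₀|⌉₊ := Nat.le_ceil _
    have e2 : ((⌈|M₀|⌉₊ : ℕ) : ℝ) ≤ X := by
      have : ⌈|M₀|⌉₊ ≤ X := by omega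
      exact_mod_cast this
    linarith [le_abs_self M₀]
  have hsc : ∀ e : ℝ, e / 2 ^ L * (2 * (X : ℝ)) ^ L = e * X ^ L := fun e => by
    rw [mul_pow, ← mul_assoc, div_mul_cancel₀ _ (by positivity)]
  have g3 := cnt_le_card (Q3 K (2 * X) τ₀) X _ (h3 (2 * X) hM₀)
  rw [← hL, hsc] at g3
  have g4 : (BG.cnt n (fun c => ∃ x ∈ F, Q4 K (2 * X) τ₀ D S r (s x) c) X : ℝ) ≤
      ε / 5 * X ^ L := by
    refine (cnt_exists F (fun x => Q4 K (2 * X) τ₀ D S r (s x)) X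
      (ε / 5 / (F.card + 1) * X ^ L) ?_).trans ?_
    · intro x hx
      have e1 : Mx x ≤ 2 * X := by
        have e2 := hX₃ x hx
        have e3 : (X₃ : ℝ) ≤ X := by
          have : X₃ ≤ X := by omega
          exact_mod_cast this
        linarith
      have e4 := cnt_le_card (Q4 K (2 * X) τ₀ D S r (s x)) X _ (hMx x (2 * X) e1)
      rw [← hL, hsc] at e4
      exact e4
    · have e5 : (F.card : ℝ) * (ε / 5 / (F.card + 1) * X ^ L) =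
          (F.card / (F.card + 1)) * (ε / 5 * X ^ L) := by ring
      rw [e5]
      refine mul_le_of_le_one_left (by positivity) ?_
      rw [div_le_one (by positivity)]
      linarith
  have g5 : (BG.cnt n (fun c => ∃ y ∈ Y, CC b y.1.1 y.1.2 y.2 c) X : ℝ) ≤ ε / 5 * X ^ L := by
    refine (cnt_exists Y (fun y => CC b y.1.1 y.1.2 y.2) X
      (ε / 5 / (Y.card + 1) * X ^ L) ?_).trans ?_
    · intro y hy
      refine hXy y hy X ?_
      have e2 := hX₄ y hy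
      have e3 : Xy y ≤ X₄ := by exact_mod_cast e2
      omega
    · have e5 : (Y.card : ℝ) * (ε / 5 / (Y.card + 1) * X ^ L) =
          (Y.card / (Y.card + 1)) * (ε / 5 * X ^ L) := by ring
      rw [e5]
      refine mul_le_of_le_one_left (by positivity) ?_
      rw [div_le_one (by positivity)]
      linarith
  set P1 : (Fin n → ℤ) → Prop := fun c =>
    ¬ Irreducible (FZ ℚ fun i => (1 : ℤ) ^ (i : ℕ) * c i) with hP1
  set P2 : (Fin n → ℤ) → Prop := fun c => ∃ p : ℕ, P < p ∧ p.Prime ∧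
    ∃ k : (ZMod p)[X], FZ (ZMod p) c = k ^ 2 with hP2
  set P4 : (Fin n → ℤ) → Prop := fun c => ∃ x ∈ F, Q4 K (2 * X) τ₀ D S r (s x) c with hP4
  set P5 : (Fin n → ℤ) → Prop := fun c => ∃ y ∈ Y, CC b y.1.1 y.1.2 y.2 c with hP5
  have hle : BG.cnt n (fun c => BadSel b c) X ≤ BG.cnt n P1 X + (BG.cnt n P2 X +
      (BG.cnt n (Q3 K (2 * X) τ₀) X + (BG.cnt n P4 X + BG.cnt n P5 X))) := by
    refine le_trans (BG.cnt_mono (Q := fun c => P1 c ∨ P2 c ∨ Q3 K (2 * X) τ₀ c ∨ P4 c ∨ P5 c)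
      X ?_) ?_
    · intro c hcX hc
      by_cases hirr : Irreducible (FZ ℚ c)
      swap
      · left
        rw [hP1]
        simp only [one_pow, one_mul]
        exact hirr
      right
      have hroot : ∀ θ : ℂ, (FZ ℂ c).eval θ = 0 → ‖θ‖ ≤ 2 * X := by
        intro θ hθ
        have e1 := root_bound 1 one_ne_zero c X hX1 hcX θ (by
          simp only [one_pow, one_mul]
          exact hθ)
        rw [Int.cast_one, abs_one, mul_one] at e1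
        exact e1
      rcases cases_of hn he hm hem b h0b hred hF S r s hs2 (P + 2) (by omega) τ₀ (2 * X)
        (by positivity) c hirr hroot hc with h | h | h | h
      · obtain ⟨p, hp1, hp2, hp3⟩ := h
        exact Or.inl ⟨p, by omega, hp2, hp3⟩
      · exact Or.inr (Or.inl h)
      · exact Or.inr (Or.inr (Or.inl h))
      · rw [← hY] at h
        exact Or.inr (Or.inr (Or.inr h))
    · refine (BG.cnt_or _ _ X).trans (Nat.add_le_add_left ?_ _)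
      refine (BG.cnt_or _ _ X).trans (Nat.add_le_add_left ?_ _)
      refine (BG.cnt_or _ _ X).trans (Nat.add_le_add_left ?_ _)
      exact BG.cnt_or _ _ X
  have hle' : (BG.cnt n (fun c => BadSel b c) X : ℝ) ≤ BG.cnt n P1 X + (BG.cnt n P2 X +
      (BG.cnt n (Q3 K (2 * X) τ₀) X + (BG.cnt n P4 X + BG.cnt n P5 X))) := by
    exact_mod_cast hle
  linarith

end Stoll308.NE
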